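import Mathlib

set_option autoImplicit false

/-! M2. Padé approximation to powers: `X^n A + (1-X)^n B = C`, two independent solutions. -/

namespace Pool.Agent.MinHt

open Polynomial Finset

/-- `G a b c` is the coefficient of `s ^ b` in `(1 - s) ^ (-c-1) (1 - s X) ^ (-a-1)` -/
noncomputable def padG (a b c : ℕ) : ℤ[X] :=
  ∑ j ∈ range (b + 1), C (((c + b - j).choose c * (a + j).choose a : ℕ) : ℤ) * X ^ j

lemma padG_coeff (a b c j : ℕ) : (padG a b c).coeff j =
    if j ≤ b then (((c + b - j).choose c * (a + j).choose a : ℕ) : ℤ) else 0 := by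
  rw [padG, finsetSum_coeff]
  simp only [coeff_C_mul, coeff_X_pow]
  split_ifs with h
  · rw [Finset.sum_eq_single_of_mem j (by rw [mem_range]; omega)]
    · simp
    · intro i _ hi
      rw [if_neg (Ne.symm hi), mul_zero]
  · apply Finset.sum_eq_zero
    intro i hi
    rw [mem_range] at hi
    rw [if_neg (by omega), mul_zero]

lemma padG_natDegree (a b c : ℕ) : (padG a b c).natDegree ≤ b := by
  rw [natDegree_le_iff_coeff_eq_zero]
  intro j hj
  rw [padG_coeff, if_neg (by omega)]

lemma one_sub_X_mul_coeff_zero (p : ℤ[X]) : ((1 - X) * p).coeff 0 = p.coeff 0 := by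
  rw [sub_mul, one_mul, coeff_sub, mul_comm X p, coeff_mul_X_zero, sub_zero]

lemma one_sub_X_mul_coeff_succ (p : ℤ[X]) (i : ℕ) :
    ((1 - X) * p).coeff (i + 1) = p.coeff (i + 1) - p.coeff i := by
  rw [sub_mul, one_mul, coeff_sub, mul_comm X p, coeff_mul_X]

lemma padG_rec (a b c : ℕ) : (1 - X) * padG (a + 1) b (c + 1) =
    padG a b (c + 1) - X * padG (a + 1) b c := by
  ext j
  rcases j with _ | i
  · rw [one_sub_X_mul_coeff_zero, coeff_sub, mul_comm X, coeff_mul_X_zero, sub_zero, padG_coeff,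
      padG_coeff, if_pos (Nat.zero_le _), if_pos (Nat.zero_le _)]
    simp
  · rw [one_sub_X_mul_coeff_succ, coeff_sub, mul_comm X, coeff_mul_X]
    simp only [padG_coeff]
    rcases lt_trichotomy i b with h | h | h
    · rw [if_pos (show i + 1 ≤ b by omega), if_pos (show i ≤ b by omega),
        if_pos (show i + 1 ≤ b by omega), if_pos (show i ≤ b by omega)]
      obtain ⟨N, hN⟩ : ∃ N, N = c + b - i := ⟨_, rfl⟩
      rw [show c + 1 + b - (i + 1) = N by omega, show c + 1 + b - i = N + 1 by omega, ← hN,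
        show a + 1 + (i + 1) = (a + 1 + i) + 1 by omega, show a + (i + 1) = a + 1 + i by omega,
        Nat.choose_succ_succ (a + 1 + i) a, Nat.choose_succ_succ N c]
      push_cast
      ring
    · subst h
      rw [if_neg (by omega), if_pos le_rfl, if_neg (by omega), if_pos le_rfl]
      rw [show c + 1 + i - i = c + 1 by omega, show c + i - i = c by omega]
      simp
    · rw [if_neg (by omega), if_neg (by omega), if_neg (by omega), if_neg (by omega)]

lemma padG_rec₀ (b c : ℕ) : (1 - X) * padG 0 b (c + 1) =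
    C (((c + 1 + b).choose (c + 1) : ℕ) : ℤ) - X * padG 0 b c := by
  ext j
  rcases j with _ | i
  · rw [one_sub_X_mul_coeff_zero, coeff_sub, mul_comm X, coeff_mul_X_zero, sub_zero, padG_coeff,
      if_pos (Nat.zero_le _)]
    simp
  · rw [one_sub_X_mul_coeff_succ, coeff_sub, mul_comm X, coeff_mul_X, coeff_C_succ]
    simp only [padG_coeff]
    rcases lt_trichotomy i b with h | h | h
    · rw [if_pos (show i + 1 ≤ b by omega), if_pos (show i ≤ b by omega),
        if_pos (show i ≤ b by omega)]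
      obtain ⟨N, hN⟩ : ∃ N, N = c + b - i := ⟨_, rfl⟩
      rw [show c + 1 + b - (i + 1) = N by omega, show c + 1 + b - i = N + 1 by omega, ← hN,
        Nat.choose_succ_succ N c]
      simp
    · subst h
      rw [if_neg (by omega), if_pos le_rfl, if_pos le_rfl]
      rw [show c + 1 + i - i = c + 1 by omega, show c + i - i = c by omega]
      simp
    · rw [if_neg (by omega), if_neg (by omega), if_neg (by omega)]

lemma padG_rec₁ (a b : ℕ) : (1 - X) * padG (a + 1) b 0 =
    padG a b 0 - X ^ (b + 1) * C (((a + 1 + b).choose (a + 1) : ℕ) : ℤ) := by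
  ext j
  rcases j with _ | i
  · rw [one_sub_X_mul_coeff_zero, coeff_sub, coeff_mul_C, coeff_X_pow, if_neg (by omega),
      zero_mul, sub_zero, padG_coeff, padG_coeff, if_pos (Nat.zero_le _), if_pos (Nat.zero_le _)]
    simp
  · rw [one_sub_X_mul_coeff_succ, coeff_sub, coeff_mul_C, coeff_X_pow]
    simp only [padG_coeff]
    rcases lt_trichotomy i b with h | h | h
    · rw [if_pos (show i + 1 ≤ b by omega), if_pos (show i ≤ b by omega),
        if_pos (show i + 1 ≤ b by omega), if_neg (by omega)]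
      rw [show a + 1 + (i + 1) = (a + 1 + i) + 1 by omega, show a + (i + 1) = a + 1 + i by omega,
        Nat.choose_succ_succ (a + 1 + i) a]
      simp
    · subst h
      rw [if_neg (by omega), if_pos le_rfl, if_neg (by omega), if_pos rfl]
      simp
    · rw [if_neg (by omega), if_neg (by omega), if_neg (by omega), if_neg (by omega)]
      simp

lemma padG_rec₂ (b : ℕ) : (1 - X) * padG 0 b 0 = 1 - X ^ (b + 1) := by
  ext j
  rcases j with _ | i
  · rw [one_sub_X_mul_coeff_zero, coeff_sub, coeff_X_pow, if_neg (by omega),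
      sub_zero, padG_coeff, if_pos (Nat.zero_le _)]
    simp
  · rw [one_sub_X_mul_coeff_succ, coeff_sub, coeff_X_pow]
    simp only [padG_coeff]
    rcases lt_trichotomy i b with h | h | h
    · rw [if_pos (show i + 1 ≤ b by omega), if_pos (show i ≤ b by omega), if_neg (by omega),
        coeff_one, if_neg (by omega)]
      simp
    · subst h
      rw [if_neg (by omega), if_pos le_rfl, if_pos rfl, coeff_one, if_neg (by omega)]
      simp
    · rw [if_neg (by omega), if_neg (by omega), if_neg (by omega), coeff_one, if_neg (by omega)]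


/-- the product `(1-X)^(a+c+1) G` has no terms of degree `c+1, .., b+c` -/
lemma pad_split (b : ℕ) : ∀ a c : ℕ, ∃ A D : ℤ[X], A.natDegree ≤ a ∧ D.natDegree ≤ c ∧
    (1 - X) ^ (a + c + 1) * padG a b c = D + X ^ (b + c + 1) * A ∧
    0 < (-1) ^ (c + 1) * A.coeff 0 := by
  intro a
  induction a with
  | zero =>
    intro c
    induction c with
    | zero =>
      refine ⟨-1, 1, by simp, by simp, ?_, by simp⟩
      rw [show 0 + 0 + 1 = 1 from rfl, pow_one, padG_rec₂]
      ring
    | succ c ih =>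
      obtain ⟨A, D, hA, hD, h, h0⟩ := ih
      refine ⟨-A, C (((c + 1 + b).choose (c + 1) : ℕ) : ℤ) * (1 - X) ^ (c + 1) - X * D, by simpa using hA,
        ?_, ?_, ?_⟩
      · refine (natDegree_sub_le _ _).trans (max_le ?_ ?_)
        · refine (natDegree_C_mul_le _ _).trans ?_
          refine natDegree_pow_le.trans ?_
          have : (1 - X : ℤ[X]).natDegree ≤ 1 := by
            refine (natDegree_sub_le _ _).trans (by simp)
          nlinarith
        · refine natDegree_mul_le.trans ?_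
          rw [natDegree_X]
          omega
      · rw [show 0 + (c + 1) + 1 = (0 + c + 1) + 1 by ring, pow_succ, mul_assoc, padG_rec₀, mul_sub,
          mul_left_comm _ X, h]
        ring
      · rw [coeff_neg, pow_succ]
        linarith
  | succ a iha =>
    intro c
    induction c with
    | zero =>
      obtain ⟨A, D, hA, hD, h, h0⟩ := iha 0
      refine ⟨A - C (((a + 1 + b).choose (a + 1) : ℕ) : ℤ) * (1 - X) ^ (a + 1), D, ?_, hD, ?_, ?_⟩
      · refine (natDegree_sub_le _ _).trans (max_le (by omega) ?_)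
        refine (natDegree_C_mul_le _ _).trans ?_
        refine natDegree_pow_le.trans ?_
        have : (1 - X : ℤ[X]).natDegree ≤ 1 := by
          refine (natDegree_sub_le _ _).trans (by simp)
        nlinarith
      · rw [show a + 1 + 0 + 1 = (a + 0 + 1) + 1 by ring, pow_succ, mul_assoc, padG_rec₁, mul_sub, h]
        ring
      · rw [coeff_sub, coeff_C_mul]
        have h1 : ((1 - X : ℤ[X]) ^ (a + 1)).coeff 0 = 1 := by
          rw [coeff_zero_eq_eval_zero]
          simp
        rw [h1]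
        have h2 : (0 : ℤ) ≤ (((a + 1 + b).choose (a + 1) : ℕ) : ℤ) := by positivity
        simp only [zero_add, pow_one] at h0 ⊢
        linarith
    | succ c ihc =>
      obtain ⟨A, D, hA, hD, h, h0⟩ := iha (c + 1)
      obtain ⟨A', D', hA', hD', h', h0'⟩ := ihc
      refine ⟨A - A', D - X * D', ?_, ?_, ?_, ?_⟩
      · exact (natDegree_sub_le _ _).trans (max_le (by omega) hA')
      · refine (natDegree_sub_le _ _).trans (max_le hD ?_)
        refine natDegree_mul_le.trans ?_
        rw [natDegree_X]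
        omega
      · rw [show a + 1 + (c + 1) + 1 = (a + (c + 1) + 1) + 1 by ring, pow_succ, mul_assoc, padG_rec,
          mul_sub, h, mul_left_comm _ X, show a + (c + 1) + 1 = a + 1 + c + 1 by ring, h']
        ring
      · rw [coeff_sub, mul_sub]
        rw [pow_succ] at h0 ⊢
        linarith

lemma abs_coeff_one_sub_X_pow_mul (m : ℕ) {p : ℤ[X]} {M : ℤ} (hp : ∀ j, |p.coeff j| ≤ M) :
    ∀ j, |((1 - X) ^ m * p).coeff j| ≤ 2 ^ m * M := by
  induction m with
  | zero => simpa using hp
  | succ m ih =>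
    intro j
    rw [pow_succ', mul_assoc]
    have hM : 0 ≤ 2 ^ m * M := (abs_nonneg _).trans (ih 0)
    rcases j with _ | i
    · rw [one_sub_X_mul_coeff_zero]
      refine (ih 0).trans ?_
      rw [pow_succ]
      linarith
    · rw [one_sub_X_mul_coeff_succ]
      refine (abs_sub _ _).trans ?_
      have h1 := ih (i + 1)
      have h2 := ih i
      rw [pow_succ]
      linarith

lemma padG_abs (a b c : ℕ) (j : ℕ) : |(padG a b c).coeff j| ≤ 2 ^ (a + 2 * b + c) := by
  rw [padG_coeff]
  split_ifs with h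
  · rw [Nat.abs_cast]
    have h1 : (c + b - j).choose c ≤ 2 ^ (c + b) :=
      (Nat.choose_le_two_pow _ _).trans (Nat.pow_le_pow_right (by norm_num) (by omega))
    have h2 : (a + j).choose a ≤ 2 ^ (a + b) :=
      (Nat.choose_le_two_pow _ _).trans (Nat.pow_le_pow_right (by norm_num) (by omega))
    have h3 := Nat.mul_le_mul h1 h2
    rw [← pow_add] at h3
    have h4 : (c + b) + (a + b) = a + 2 * b + c := by ring
    rw [h4] at h3
    exact_mod_cast h3
  · simp

/-- the two polynomials are parts of the product -/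
lemma pad_triple (a b c : ℕ) : ∃ A D : ℤ[X], A.natDegree ≤ a ∧ D.natDegree ≤ c ∧
    X ^ (b + c + 1) * A + (1 - X) ^ (a + c + 1) * padG a b c = D ∧ A.coeff 0 ≠ 0 ∧
    (∀ j, |A.coeff j| ≤ 2 ^ (2 * (a + b + c) + 1)) ∧
    ∀ j, |D.coeff j| ≤ 2 ^ (2 * (a + b + c) + 1) := by
  obtain ⟨A, D, hA, hD, h, h0⟩ := pad_split b a c
  have hb := abs_coeff_one_sub_X_pow_mul (a + c + 1) (padG_abs a b c)
  have he : (2 : ℤ) ^ (a + c + 1) * 2 ^ (a + 2 * b + c) = 2 ^ (2 * (a + b + c) + 1) := by
    rw [← pow_add]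
    congr 1
    ring
  rw [he] at hb
  refine ⟨-A, D, by simpa using hA, hD, ?_, ?_, ?_, ?_⟩
  · rw [h]; ring
  · rw [coeff_neg]
    intro h1
    rw [neg_eq_zero.mp h1] at h0
    simp at h0
  · intro j
    have h1 := hb (j + (b + c + 1))
    rw [h, coeff_add, natDegree_le_iff_coeff_eq_zero.mp hD _ (by omega), zero_add, coeff_X_pow_mul] at h1
    rw [coeff_neg, abs_neg]
    exact h1
  · intro j
    by_cases hj : j ≤ c
    · have h1 := hb j
      rw [h, coeff_add, coeff_X_pow_mul', if_neg (by omega), add_zero] at h1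
      exact h1
    · rw [natDegree_le_iff_coeff_eq_zero.mp hD _ (by omega)]
      simp

lemma natDegree_one_sub_X_mul_le (p : ℤ[X]) : ((1 - X) * p).natDegree ≤ p.natDegree + 1 := by
  refine natDegree_mul_le.trans ?_
  have : (1 - X : ℤ[X]).natDegree ≤ 1 := by
    refine (natDegree_sub_le _ _).trans (by simp)
  omega

lemma abs_coeff_one_sub_X_mul {p : ℤ[X]} {M : ℤ} (hp : ∀ j, |p.coeff j| ≤ M) (j : ℕ) :
    |((1 - X) * p).coeff j| ≤ 2 * M := by
  have := abs_coeff_one_sub_X_pow_mul 1 hp j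
  simpa using this

lemma abs_coeff_X_mul {p : ℤ[X]} {M : ℤ} (hp : ∀ j, |p.coeff j| ≤ M) (j : ℕ) :
    |(X * p).coeff j| ≤ M := by
  rcases j with _ | i
  · rw [mul_comm, coeff_mul_X_zero, abs_zero]
    exact (abs_nonneg _).trans (hp 0)
  · rw [mul_comm, coeff_mul_X]
    exact hp i

/-- two triples with small degrees: the determinant is constant -/
lemma pade_det {n d₀ d₁ : ℕ} {A B D : Fin 2 → ℤ[X]} (hd : d₀ + d₁ ≤ n)
    (h : ∀ i, X ^ n * A i + (1 - X) ^ n * B i = D i)
    (hB0 : (B 0).natDegree ≤ d₀) (hD0 : (D 0).natDegree ≤ d₀)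
    (hB1 : (B 1).natDegree ≤ d₁) (hD1 : (D 1).natDegree ≤ d₁) :
    A 0 * B 1 - A 1 * B 0 = C ((A 0 * B 1 - A 1 * B 0).coeff 0) := by
  have h1 : D 0 * B 1 - D 1 * B 0 = X ^ n * (A 0 * B 1 - A 1 * B 0) := by
    rw [← h 0, ← h 1]
    ring
  have h2 : (D 0 * B 1 - D 1 * B 0).natDegree ≤ n := by
    refine (natDegree_sub_le _ _).trans (max_le ?_ ?_)
    · exact natDegree_mul_le.trans (by omega)
    · exact natDegree_mul_le.trans (by omega)
  rw [h1] at h2
  apply eq_C_of_natDegree_le_zero
  by_contra h3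
  have h4 : A 0 * B 1 - A 1 * B 0 ≠ 0 := by
    intro h5
    rw [h5] at h3
    simp at h3
  rw [natDegree_mul (pow_ne_zero _ X_ne_zero) h4, natDegree_X_pow] at h2
  omega

/-- `n = 2k`: weights `(k-1,k,k)` and `(k,k-1,k)`; `n = 2k+1`: weights `(k,k,k)` and `(k,k,k+1)`
(multiply `A` by `X ^ (b+c+1-n)`, `B` by `(1-X) ^ (a+c+1-n)`). The determinant `AB'-A'B` is constant:
`BC'-B'C = ± X^n (AB'-A'B)` has degree at most `n`; its value at `0` is not zero. -/
theorem exists_pade : ∃ c : ℕ, 1 ≤ c ∧ ∀ n : ℕ, 1 ≤ n → ∃ (A B D : Fin 2 → ℤ[X]) (g : ℤ), g ≠ 0 ∧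
    (∀ i, X ^ n * A i + (1 - X) ^ n * B i = D i) ∧ A 0 * B 1 - A 1 * B 0 = C g ∧
    ∀ i, ((A i).natDegree ≤ n - n / 2 ∧ (B i).natDegree ≤ n - n / 2 ∧
      (D i).natDegree ≤ n - n / 2) ∧
      ∀ j, |(A i).coeff j| ≤ c ^ n ∧ |(B i).coeff j| ≤ c ^ n ∧ |(D i).coeff j| ≤ c ^ n := by
  refine ⟨2 ^ 5, by norm_num, fun n hn => ?_⟩
  have key : ∀ {p : ℤ[X]} (e : ℕ), e ≤ 5 * n → (∀ j, |p.coeff j| ≤ 2 ^ e) →
      ∀ j, |p.coeff j| ≤ ((2 ^ 5 : ℕ) : ℤ) ^ n := by
    intro p e he hp j
    refine (hp j).trans ?_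
    rw [show ((2 ^ 5 : ℕ) : ℤ) = 2 ^ 5 by norm_num, ← pow_mul]
    exact pow_le_pow_right₀ (by norm_num) he
  have key1 : ∀ {p : ℤ[X]} (e : ℕ), e + 1 ≤ 5 * n → (∀ j, |p.coeff j| ≤ 2 ^ e) →
      ∀ j, |((1 - X) * p).coeff j| ≤ ((2 ^ 5 : ℕ) : ℤ) ^ n := by
    intro p e he hp
    refine key (e + 1) he fun j => ?_
    refine (abs_coeff_one_sub_X_mul hp j).trans ?_
    rw [pow_succ, mul_comm]
  rcases Nat.even_or_odd' n with ⟨k, hk | hk⟩
  · obtain ⟨l, rfl⟩ : ∃ l, k = l + 1 := ⟨k - 1, by omega⟩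
    obtain ⟨A₀, D₀, hA₀, hD₀, h₀, -, bA₀, bD₀⟩ := pad_triple l (l + 1) (l + 1)
    obtain ⟨A₁, D₁, hA₁, hD₁, h₁, hn₁, bA₁, bD₁⟩ := pad_triple (l + 1) l (l + 1)
    have hB₀ := padG_natDegree l (l + 1) (l + 1)
    have hB₁ := padG_natDegree (l + 1) l (l + 1)
    have gB₀ := padG_abs l (l + 1) (l + 1)
    have gB₁ := padG_abs (l + 1) l (l + 1)
    have g0 : (padG l (l + 1) (l + 1)).coeff 0 ≠ 0 := by
      rw [padG_coeff, if_pos (Nat.zero_le _)]
      have : 0 < (l + 1 + (l + 1) - 0).choose (l + 1) * (l + 0).choose l :=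
        Nat.mul_pos (Nat.choose_pos (by omega)) (Nat.choose_pos (by omega))
      exact_mod_cast this.ne'
    set B₀ := padG l (l + 1) (l + 1) with hB₀d
    set B₁ := padG (l + 1) l (l + 1) with hB₁d
    have e1 : n - n / 2 = l + 1 := by omega
    have H : ∀ i, X ^ n * (![X * A₀, A₁] : Fin 2 → ℤ[X]) i +
        (1 - X) ^ n * (![B₀, (1 - X) * B₁] : Fin 2 → ℤ[X]) i = (![D₀, D₁] : Fin 2 → ℤ[X]) i := by
      intro i
      fin_cases i
      · simp only [Fin.zero_eta, Matrix.cons_val_zero]
        rw [← h₀, hk]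
        ring
      · simp only [Fin.mk_one, Matrix.cons_val_one]
        rw [← h₁, hk]
        simp only [Matrix.cons_val_fin_one]
        ring
    have hdet := pade_det (n := n) (d₀ := l + 1) (d₁ := l + 1) (by omega) H (by simpa using hB₀)
      (by simpa using hD₀) (by
        simp only [Matrix.cons_val_one, Matrix.cons_val_fin_one]
        exact (natDegree_one_sub_X_mul_le _).trans (by omega)) (by simpa using hD₁)
    refine ⟨_, _, _, _, ?_, H, hdet, ?_⟩
    · simp only [Matrix.cons_val_zero, Matrix.cons_val_one, Matrix.cons_val_fin_one]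
      have e2 : (X * A₀ * ((1 - X) * B₁) - A₁ * B₀).coeff 0 = -(A₁.coeff 0 * B₀.coeff 0) := by
        simp only [coeff_sub, mul_coeff_zero, coeff_X_zero]
        ring
      rw [e2, neg_ne_zero]
      exact mul_ne_zero hn₁ g0
    · intro i
      rw [e1]
      fin_cases i
      · simp only [Fin.zero_eta, Matrix.cons_val_zero]
        refine ⟨⟨natDegree_mul_le.trans (by rw [natDegree_X]; omega), hB₀, hD₀⟩, fun j => ⟨?_, ?_, ?_⟩⟩
        · exact key _ (by omega) (abs_coeff_X_mul bA₀) j
        · exact key _ (by omega) gB₀ j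
        · exact key _ (by omega) bD₀ j
      · simp only [Fin.mk_one, Matrix.cons_val_one, Matrix.cons_val_fin_one]
        refine ⟨⟨hA₁, (natDegree_one_sub_X_mul_le _).trans (by omega), hD₁⟩, fun j => ⟨?_, ?_, ?_⟩⟩
        · exact key _ (by omega) bA₁ j
        · exact key1 _ (by omega) gB₁ j
        · exact key _ (by omega) bD₁ j
  · obtain ⟨A₀, D₀, hA₀, hD₀, h₀, hn₀, bA₀, bD₀⟩ := pad_triple k k k
    obtain ⟨A₁, D₁, hA₁, hD₁, h₁, -, bA₁, bD₁⟩ := pad_triple k k (k + 1)
    have hB₀ := padG_natDegree k k k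
    have hB₁ := padG_natDegree k k (k + 1)
    have gB₀ := padG_abs k k k
    have gB₁ := padG_abs k k (k + 1)
    have g1 : (padG k k (k + 1)).coeff 0 ≠ 0 := by
      rw [padG_coeff, if_pos (Nat.zero_le _)]
      have : 0 < (k + 1 + k - 0).choose (k + 1) * (k + 0).choose k :=
        Nat.mul_pos (Nat.choose_pos (by omega)) (Nat.choose_pos (by omega))
      exact_mod_cast this.ne'
    set B₀ := padG k k k with hB₀d
    set B₁ := padG k k (k + 1) with hB₁d
    have e1 : n - n / 2 = k + 1 := by omega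
    have H : ∀ i, X ^ n * (![A₀, X * A₁] : Fin 2 → ℤ[X]) i +
        (1 - X) ^ n * (![B₀, (1 - X) * B₁] : Fin 2 → ℤ[X]) i = (![D₀, D₁] : Fin 2 → ℤ[X]) i := by
      intro i
      fin_cases i
      · simp only [Fin.zero_eta, Matrix.cons_val_zero]
        rw [← h₀, hk]
        ring
      · simp only [Fin.mk_one, Matrix.cons_val_one]
        rw [← h₁, hk]
        simp only [Matrix.cons_val_fin_one]
        ring
    have hdet := pade_det (n := n) (d₀ := k) (d₁ := k + 1) (by omega) H (by simpa using hB₀)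
      (by simpa using hD₀) (by
        simp only [Matrix.cons_val_one, Matrix.cons_val_fin_one]
        exact (natDegree_one_sub_X_mul_le _).trans (by omega)) (by simpa using hD₁)
    refine ⟨_, _, _, _, ?_, H, hdet, ?_⟩
    · simp only [Matrix.cons_val_zero, Matrix.cons_val_one, Matrix.cons_val_fin_one]
      have e2 : (A₀ * ((1 - X) * B₁) - X * A₁ * B₀).coeff 0 = A₀.coeff 0 * B₁.coeff 0 := by
        simp only [coeff_sub, mul_coeff_zero, coeff_X_zero, coeff_one_zero]
        ring
      rw [e2]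
      exact mul_ne_zero hn₀ g1
    · intro i
      rw [e1]
      fin_cases i
      · simp only [Fin.zero_eta, Matrix.cons_val_zero]
        refine ⟨⟨by omega, by omega, by omega⟩, fun j => ⟨?_, ?_, ?_⟩⟩
        · exact key _ (by omega) bA₀ j
        · exact key _ (by omega) gB₀ j
        · exact key _ (by omega) bD₀ j
      · simp only [Fin.mk_one, Matrix.cons_val_one, Matrix.cons_val_fin_one]
        refine ⟨⟨natDegree_mul_le.trans (by rw [natDegree_X]; omega),
          (natDegree_one_sub_X_mul_le _).trans (by omega), hD₁⟩, fun j => ⟨?_, ?_, ?_⟩⟩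
        · exact key _ (by omega) (abs_coeff_X_mul bA₁) j
        · exact key1 _ (by omega) gB₁ j
        · exact key _ (by omega) bD₁ j

end Pool.Agent.MinHt
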