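import Pool.Agent.MinHt.PF
import Pool.Agent.MinHt.Pade

set_option autoImplicit false

/-! M3. The height inequality from Padé approximation. -/

namespace Pool.Agent.MinHt

open NumberField Height Real Module

/-- The height of the point `(u : w : 1)`. -/
noncomputable def PF.h2 {K : Type} [Field K] [NumberField K] {ι : Type} [Fintype ι] (P : PF K ι)
    (u w : K) : ℝ := ∑ j, log (max 1 (max (P.av j u) (P.av j w)))

namespace PF

variable {K : Type} [Field K] [NumberField K] {ι : Type} [Fintype ι] (P : PF K ι)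

private theorem av_neg (j : ι) (x : K) : P.av j (-x) = P.av j x := by
  have h1 : P.av j (-1) * P.av j (-1) = 1 := by
    rw [← map_mul]
    simp
  have h2 : P.av j (-1) = 1 := by
    have h3 := P.nonneg j (-1)
    nlinarith
  rw [show -x = -1 * x by ring, map_mul, h2, one_mul]

private theorem sub_le (j : ι) (x y : K) :
    P.av j (x - y) ≤ 2 ^ P.wt j * max (P.av j x) (P.av j y) := by
  have h := P.add_le j x (-y)
  rwa [av_neg, ← sub_eq_add_neg] at h

private theorem local_le {n m : ℕ} {A B D : Polynomial ℤ} {x u w : K} {c : ℝ}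
    (h : Polynomial.X ^ n * A + (1 - Polynomial.X) ^ n * B = D)
    (hA : A.natDegree ≤ m) (hB : B.natDegree ≤ m) (hD : D.natDegree ≤ m)
    (cA : ∀ i, (|A.coeff i| : ℝ) ≤ c) (cB : ∀ i, (|B.coeff i| : ℝ) ≤ c)
    (cD : ∀ i, (|D.coeff i| : ℝ) ≤ c) (hu : u * x ^ n + w * (1 - x) ^ n = 1) (j : ι) :
    P.av j (Polynomial.aeval x A * w - Polynomial.aeval x B * u) * (max 1 (P.av j x)) ^ n ≤
      2 ^ P.wt j * ((((m + 1) * c) ^ P.wt j * (max 1 (P.av j x)) ^ m) *
        max 1 (max (P.av j u) (P.av j w))) := by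
  set M := ((m + 1) * c) ^ P.wt j * (max 1 (P.av j x)) ^ m with hM
  set H := max 1 (max (P.av j u) (P.av j w)) with hH
  have bA := P.eval_le j A m c hA cA x
  have bB := P.eval_le j B m c hB cB x
  have bD := P.eval_le j D m c hD cD x
  rw [← hM] at bA bB bD
  have hM0 : 0 ≤ M := (P.nonneg j _).trans bA
  have hHu : P.av j u ≤ H := (le_max_left _ _).trans (le_max_right _ _)
  have hHw : P.av j w ≤ H := (le_max_right _ _).trans (le_max_right _ _)
  have hH1 : 1 ≤ H := le_max_left _ _
  have hx := congrArg (Polynomial.aeval x) h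
  simp only [map_add, map_mul, map_pow, map_sub, map_one, Polynomial.aeval_X] at hx
  rcases le_total (P.av j x) 1 with h1 | h1
  · rw [max_eq_left h1, one_pow, mul_one]
    refine (P.sub_le j _ _).trans ?_
    rw [map_mul, map_mul]
    refine mul_le_mul_of_nonneg_left (max_le ?_ ?_) (by positivity)
    · exact mul_le_mul bA hHw (P.nonneg j _) hM0
    · exact mul_le_mul bB hHu (P.nonneg j _) hM0
  · rw [max_eq_right h1, ← map_pow, ← map_mul]
    have h2 : (Polynomial.aeval x A * w - Polynomial.aeval x B * u) * x ^ n =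
        Polynomial.aeval x D * w - Polynomial.aeval x B := by
      linear_combination w * hx - Polynomial.aeval x B * hu
    rw [h2]
    refine (P.sub_le j _ _).trans ?_
    rw [map_mul]
    refine mul_le_mul_of_nonneg_left (max_le ?_ ?_) (by positivity)
    · exact mul_le_mul bD hHw (P.nonneg j _) hM0
    · refine bB.trans ?_
      nlinarith

private theorem global_le {n m : ℕ} (hmn : m ≤ n) {A B D : Polynomial ℤ} {x u w : K} {c : ℝ}
    (hc : 1 ≤ c)
    (h : Polynomial.X ^ n * A + (1 - Polynomial.X) ^ n * B = D)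
    (hA : A.natDegree ≤ m) (hB : B.natDegree ≤ m) (hD : D.natDegree ≤ m)
    (cA : ∀ i, (|A.coeff i| : ℝ) ≤ c) (cB : ∀ i, (|B.coeff i| : ℝ) ≤ c)
    (cD : ∀ i, (|D.coeff i| : ℝ) ≤ c) (hu : u * x ^ n + w * (1 - x) ^ n = 1)
    (hx : x ∈ P.good)
    (hκ : Polynomial.aeval x A * w - Polynomial.aeval x B * u ∈ P.good) :
    ((n - m : ℕ) : ℝ) * logHeight₁ x ≤
      log (2 * ((m + 1) * c)) * finrank ℚ K + P.h2 u w := by
  set κ := Polynomial.aeval x A * w - Polynomial.aeval x B * u with hκd
  have hκ0 := P.good_ne _ hκ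
  have key : ∀ j, log (P.av j κ) + ((n - m : ℕ) : ℝ) * log⁺ (P.av j x) ≤
      log (2 * ((m + 1) * c)) * P.wt j + log (max 1 (max (P.av j u) (P.av j w))) := by
    intro j
    have h1 := P.local_le h hA hB hD cA cB cD hu j
    rw [← hκd] at h1
    have h2 : 0 < P.av j κ := P.av_pos j hκ0
    have h3 : (0 : ℝ) < max 1 (P.av j x) := lt_of_lt_of_le one_pos (le_max_left _ _)
    have h4 : (0 : ℝ) < max 1 (max (P.av j u) (P.av j w)) := lt_of_lt_of_le one_pos (le_max_left _ _)
    have h5 : (0 : ℝ) < (m + 1) * c := by positivity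
    have h6 := Real.log_le_log (by positivity) h1
    rw [Real.log_mul h2.ne' (by positivity), Real.log_pow, Real.log_mul (by positivity) (by positivity),
      Real.log_mul (by positivity) h4.ne', Real.log_mul (by positivity) (by positivity), Real.log_pow,
      Real.log_pow, Real.log_pow] at h6
    rw [Real.posLog_eq_log_max_one (P.nonneg j x), Nat.cast_sub hmn, Real.log_mul two_ne_zero h5.ne']
    linarith
  have h7 := Finset.sum_le_sum fun j (_ : j ∈ Finset.univ) => key j
  rw [Finset.sum_add_distrib, Finset.sum_add_distrib, P.sum_log κ hκ, ← Finset.mul_sum,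
    ← Finset.mul_sum, ← P.height x hx, zero_add, ← Nat.cast_sum, P.sum_wt] at h7
  exact h7

end PF

/-- Let `u = z / x^n`, `w = (1-z) / (1-x)^n`. The vectors `E = (A(x), B(x), -D(x))` and
`F = (u, w, -1)` are orthogonal to `V = (x^n, (1-x)^n, 1)`, so `E × F = κ V` with `κ = A w - B u`;
one of the two triples has `κ ≠ 0` (if `n = 1` and `z ≠ x` use `E = (1, 1, -1)`). Take `P` with
`x, 1-x, z, 1-z, κ` good; at every place `|κ| max|V| ≤ 2^wt max|E| max|F|`, and the sum of
`log |κ|` is `0`. -/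
theorem pade_height : ∃ C : ℝ, 0 ≤ C ∧ ∀ (K : Type) [Field K] [NumberField K] (x z : K),
    x ≠ 0 → x ≠ 1 → z ≠ 0 → z ≠ 1 → ∀ n : ℕ, 1 ≤ n → (n = 1 → z ≠ x) →
    ∃ (ι : Type) (_ : Fintype ι) (P : PF K ι), x ∈ P.good ∧ 1 - x ∈ P.good ∧ z ∈ P.good ∧
      1 - z ∈ P.good ∧
      (max 1 (n / 2 : ℕ) : ℝ) * logHeight₁ x ≤
        C * n * finrank ℚ K + P.h2 (z / x ^ n) ((1 - z) / (1 - x) ^ n) := by
  classical
  obtain ⟨c, hc, hP⟩ := exists_pade
  have hc' : (1 : ℝ) ≤ (c : ℝ) := by exact_mod_cast hc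
  refine ⟨2 * log 2 + log c, by have := Real.log_nonneg hc'; positivity, ?_⟩
  intro K _ _ x z hx0 hx1 hz0 hz1 n hn hn1
  have hx1' : 1 - x ≠ 0 := sub_ne_zero.mpr (Ne.symm hx1)
  have hz1' : 1 - z ≠ 0 := sub_ne_zero.mpr (Ne.symm hz1)
  set u := z / x ^ n with hu
  set w := (1 - z) / (1 - x) ^ n with hw
  have hu0 : u ≠ 0 := div_ne_zero hz0 (pow_ne_zero _ hx0)
  have huw : u * x ^ n + w * (1 - x) ^ n = 1 := by
    rw [hu, hw, div_mul_cancel₀ _ (pow_ne_zero _ hx0), div_mul_cancel₀ _ (pow_ne_zero _ hx1')]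
    ring
  have hfin : (0 : ℝ) ≤ finrank ℚ K := Nat.cast_nonneg _
  have hlog2 : (0 : ℝ) ≤ log 2 := Real.log_nonneg (by norm_num)
  have hlogc : (0 : ℝ) ≤ log c := Real.log_nonneg hc'
  by_cases hn2 : n = 1
  · subst hn2
    have hκ : w - u ≠ 0 := by
      intro h
      have h1 : w = u := sub_eq_zero.mp h
      rw [h1, pow_one, pow_one] at huw
      have h2 : u = 1 := by linear_combination huw
      rw [h2, pow_one] at hu
      exact hn1 rfl ((div_eq_one_iff_eq hx0).mp hu.symm)
    obtain ⟨ι, hι, P, hg⟩ := exists_PF K {x, 1 - x, z, 1 - z, w - u} (by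
      intro y hy
      simp only [Finset.mem_insert, Finset.mem_singleton] at hy
      rcases hy with rfl | rfl | rfl | rfl | rfl <;> assumption)
    refine ⟨ι, hι, P, hg _ (by simp), hg _ (by simp), hg _ (by simp), hg _ (by simp), ?_⟩
    have h1 := P.global_le (n := 1) (m := 0) (A := 1) (B := 1) (D := 1) (x := x) (u := u) (w := w)
      (c := 1) (Nat.zero_le _) le_rfl (by ring) (by simp) (by simp) (by simp)
      (by intro i; rw [Polynomial.coeff_one]; split_ifs <;> simp)
      (by intro i; rw [Polynomial.coeff_one]; split_ifs <;> simp)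
      (by intro i; rw [Polynomial.coeff_one]; split_ifs <;> simp) huw (hg _ (by simp))
      (by simpa using hg (w - u) (by simp))
    have h2 : (max 1 ((1 / 2 : ℕ) : ℝ)) = 1 := by norm_num
    rw [h2]
    simp only [Nat.sub_zero, Nat.cast_one, one_mul, Nat.cast_zero, zero_add, mul_one] at h1 ⊢
    refine h1.trans ?_
    have h3 : log 2 * (finrank ℚ K : ℝ) ≤ (2 * log 2 + log c) * finrank ℚ K :=
      mul_le_mul_of_nonneg_right (by linarith) hfin
    linarith
  · obtain ⟨A, B, D, g, hg0, hABD, hdet, hb⟩ := hP n hn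
    obtain ⟨i, hi⟩ : ∃ i : Fin 2, Polynomial.aeval x (A i) * w - Polynomial.aeval x (B i) * u ≠ 0 := by
      by_contra hcon
      push Not at hcon
      have h0 := hcon 0
      have h1 := hcon 1
      have h2 := congrArg (Polynomial.aeval x) hdet
      simp only [map_sub, map_mul, Polynomial.aeval_C] at h2
      have h3 : (algebraMap ℤ K g) * u = 0 := by
        rw [← h2]
        linear_combination Polynomial.aeval x (A 1) * h0 - Polynomial.aeval x (A 0) * h1
      rcases mul_eq_zero.mp h3 with h4 | h4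
      · exact hg0 (by simpa using h4)
      · exact hu0 h4
    obtain ⟨ι, hι, P, hg⟩ := exists_PF K {x, 1 - x, z, 1 - z,
        Polynomial.aeval x (A i) * w - Polynomial.aeval x (B i) * u} (by
      intro y hy
      simp only [Finset.mem_insert, Finset.mem_singleton] at hy
      rcases hy with rfl | rfl | rfl | rfl | rfl <;> assumption)
    refine ⟨ι, hι, P, hg _ (by simp), hg _ (by simp), hg _ (by simp), hg _ (by simp), ?_⟩
    obtain ⟨⟨dA, dB, dD⟩, hcf⟩ := hb i
    have cast_le : ∀ {y : ℤ}, |y| ≤ (c : ℤ) ^ n → (|(y : ℝ)|) ≤ (c : ℝ) ^ n := by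
      intro y hy
      exact_mod_cast hy
    have h1 := P.global_le (n := n) (m := n - n / 2) (Nat.sub_le _ _) (c := (c : ℝ) ^ n)
      (one_le_pow₀ hc') (hABD i) dA dB dD (fun k => cast_le (hcf k).1)
      (fun k => cast_le (hcf k).2.1) (fun k => cast_le (hcf k).2.2) huw (hg _ (by simp))
      (hg _ (by simp))
    have h2 : n - (n - n / 2) = n / 2 := by omega
    rw [h2] at h1
    have h3 : (1 : ℝ) ≤ ((n / 2 : ℕ) : ℝ) := by
      have : 1 ≤ n / 2 := by omega
      exact_mod_cast this
    rw [max_eq_right h3]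
    refine h1.trans ?_
    have h4 : log (2 * ((((n - n / 2 : ℕ) : ℝ) + 1) * (c : ℝ) ^ n)) ≤ (2 * log 2 + log c) * n := by
      have h5 : (((n - n / 2 : ℕ) : ℝ) + 1) ≤ 2 ^ (n - n / 2) := by
        have : (n - n / 2) + 1 ≤ 2 ^ (n - n / 2) := Nat.lt_two_pow_self
        exact_mod_cast this
      have h6 : (2 : ℝ) ^ (n - n / 2) ≤ 2 ^ n := pow_le_pow_right₀ (by norm_num) (Nat.sub_le _ _)
      have hcn : (0 : ℝ) < (c : ℝ) ^ n := by positivity
      have h7 : 2 * ((((n - n / 2 : ℕ) : ℝ) + 1) * (c : ℝ) ^ n) ≤ 2 * (2 ^ n * (c : ℝ) ^ n) := by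
        have := mul_le_mul_of_nonneg_right (h5.trans h6) hcn.le
        linarith
      refine (Real.log_le_log (by positivity) h7).trans ?_
      rw [Real.log_mul two_ne_zero (by positivity), Real.log_mul (by positivity) hcn.ne',
        Real.log_pow, Real.log_pow]
      have h9 : (1 : ℝ) ≤ n := by exact_mod_cast hn
      nlinarith
    have h10 := mul_le_mul_of_nonneg_right h4 hfin
    linarith

end Pool.Agent.MinHt
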