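import Pool.Agent.CITNF.Basic

set_option autoImplicit false

/-! M6. Points of rank one have absolutely bounded height. -/

namespace Pool.Agent.MinHt

open NumberField Height Real Module Pool.Agent.CITNF

/-- `CITNF.rank_one` with its constant made explicit (use `cn6_case1`, `cn6_case2`, `cn6_case3`). -/
theorem rank_one_unif (K : Type) [Field K] [NumberField K] (x : K) (hx : x ≠ 0) (hx1 : x ≠ 1)
    (h : ¬ MI x) : logHeight₁ x ≤ 3 * (finrank ℚ K * log 2) := by
  have hc : 0 ≤ (finrank ℚ K : ℝ) * log 2 :=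
    mul_nonneg (Nat.cast_nonneg _) (Real.log_nonneg (by norm_num))
  have h1x : 1 - x ≠ 0 := sub_ne_zero.2 (Ne.symm hx1)
  unfold MI at h
  push Not at h
  obtain ⟨a, b, hab, hne⟩ := h
  -- we may assume `b ≥ 0`
  have key : ∀ a b : ℤ, x ^ a * (1 - x) ^ b = 1 → (a = 0 → b ≠ 0) → 0 ≤ b →
      logHeight₁ x ≤ 3 * (finrank ℚ K * log 2) := by
    intro a b hab hne hb
    obtain ⟨k, rfl⟩ := Int.eq_ofNat_of_zero_le hb
    rw [zpow_natCast] at hab
    rcases Nat.eq_zero_or_pos k with hk | hk
    · subst hk
      rw [pow_zero, mul_one] at hab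
      have ha : a ≠ 0 := fun h0 => hne h0 rfl
      have e := congrArg logHeight₁ hab
      rw [logHeight₁_zpow, logHeight₁_one] at e
      have h2 : (a.natAbs : ℝ) ≠ 0 := by
        exact_mod_cast Int.natAbs_ne_zero.2 ha
      rcases mul_eq_zero.1 e with h3 | h3
      · exact absurd h3 h2
      · rw [h3]
        linarith
    · rcases le_or_gt 0 a with ha | ha
      · obtain ⟨m, rfl⟩ := Int.eq_ofNat_of_zero_le ha
        rw [zpow_natCast] at hab
        exact cn6_case3 x hx hx1 m k hk hab
      · obtain ⟨m, hm⟩ : ∃ m : ℕ, a = -(m : ℤ) := ⟨a.natAbs, by omega⟩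
        subst hm
        rw [zpow_neg, zpow_natCast] at hab
        have hm : 0 < m := by omega
        refine cn6_case2 x hx hx1 m k hm hk ?_
        have h2 : x ^ m ≠ 0 := pow_ne_zero _ hx
        field_simp at hab
        exact hab.symm
  rcases le_or_gt 0 b with hb | hb
  · exact key a b hab hne hb
  · apply key (-a) (-b) _ _ (by omega)
    · rw [zpow_neg, zpow_neg, ← mul_inv, hab, inv_one]
    · intro h0
      have := hne (by omega)
      omega

end Pool.Agent.MinHt
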