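import Pool.Agent.MinHt.RigidA

set_option autoImplicit false

/-! M4. Rigidity of the tripod (real analysis only). -/

namespace Pool.Agent.MinHt

open Finset

/-! ### Auxiliary lemmas for `rigid` and `upper` -/

private lemma rg_gapF_nonneg (a b : ℝ) : 0 ≤ gapF a b := by
  unfold gapF
  have h1 : max (min a b) (min (max a b) 0) ≤ max 0 (max a b) := by
    refine max_le ?_ ?_
    · exact (min_le_left a b).trans ((le_max_left a b).trans (le_max_right _ _))
    · exact (min_le_right _ _).trans (le_max_left _ _)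
  linarith

private lemma rg_gapF_smul (t a b : ℝ) (ht : 0 ≤ t) : gapF (t * a) (t * b) = t * gapF a b := by
  unfold gapF
  rw [mul_sub, mul_max_of_nonneg _ _ ht, mul_max_of_nonneg _ _ ht, mul_max_of_nonneg _ _ ht,
    mul_min_of_nonneg _ _ ht, mul_min_of_nonneg _ _ ht, mul_max_of_nonneg _ _ ht, mul_zero]

private lemma rg_near_lip {e a b p q r : ℝ} (h : Near e (a + p) (b + q)) (hp : |p| ≤ r)
    (hq : |q| ≤ r) : Near (e + 2 * r) a b := by
  obtain ⟨h1, h2, h3⟩ := h
  obtain ⟨p1, p2⟩ := abs_le.1 hp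
  obtain ⟨q1, q2⟩ := abs_le.1 hq
  have hr : 0 ≤ r := (abs_nonneg p).trans hp
  have m1 : max 0 (b + q) ≤ max 0 b + r := max_le (by linarith [le_max_left 0 b])
    (by linarith [le_max_right 0 b])
  have m2 : max 0 (a + p) ≤ max 0 a + r := max_le (by linarith [le_max_left 0 a])
    (by linarith [le_max_right 0 a])
  have m3 : max (a + p) (b + q) ≤ max a b + r := max_le (by linarith [le_max_left a b])
    (by linarith [le_max_right a b])
  exact ⟨by linarith, by linarith, by linarith⟩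

/-- one vector `(a, b) = t ρ + (p, q)` -/
private lemma rg_one {e t x y p q r : ℝ} (he : 0 ≤ e) (ht : 0 ≤ t)
    (h : Near e (t * x + p) (t * y + q)) (hp : |p| ≤ r) (hq : |q| ≤ r) :
    t * gapF x y ≤ e + 2 * r := by
  have h1 := rg_near_lip h hp hq
  have hr : 0 ≤ r := (abs_nonneg p).trans hp
  rw [near_iff _ _ _ (by linarith), rg_gapF_smul _ _ _ ht] at h1
  exact h1

/-- sums of positive and negative parts -/
private lemma rg_sum_neg {ι : Type} [Fintype ι] {a : ι → ℝ} (h : ∑ j, a j = 0) :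
    ∑ j, max 0 (-a j) = ∑ j, max 0 (a j) := by
  have h1 : ∀ j, max 0 (-a j) = max 0 (a j) - a j := by
    intro j
    rcases le_total 0 (a j) with h0 | h0
    · rw [max_eq_left (by linarith), max_eq_right h0]
      ring
    · rw [max_eq_right (by linarith), max_eq_left h0]
      ring
  simp only [h1]
  rw [Finset.sum_sub_distrib, h, sub_zero]

private lemma rg_sum_abs {ι : Type} [Fintype ι] {a : ι → ℝ} (h : ∑ j, a j = 0) :
    ∑ j, |a j| = 2 * ∑ j, max 0 (a j) := by
  have h1 : ∀ j, |a j| = 2 * max 0 (a j) - a j := by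
    intro j
    rcases le_total 0 (a j) with h0 | h0
    · rw [abs_of_nonneg h0, max_eq_right h0]
      ring
    · rw [abs_of_nonpos h0, max_eq_left h0]
      ring
  simp only [h1]
  rw [Finset.sum_sub_distrib, h, sub_zero, Finset.mul_sum]

section Sums

variable {ι : Type} [Fintype ι] {e a b : ι → ℝ} {N : ℝ}

private lemma rg_sum_b (hN : ∑ j, e j ≤ N) (he : ∀ j, 0 ≤ e j)
    (h : ∀ j, Near (e j) (a j) (b j)) :
    ∑ j, max 0 (b j) ≤ ∑ j, max 0 (a j) + N := by
  have h1 : ∑ j, max 0 (b j) ≤ ∑ j, (max 0 (a j) + e j) := by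
    refine Finset.sum_le_sum fun j _ => max_le ?_ (h j).2.1
    linarith [le_max_left 0 (a j), he j]
  rw [Finset.sum_add_distrib] at h1
  linarith

private lemma rg_sum_ab (hN : ∑ j, e j ≤ N) (he : ∀ j, 0 ≤ e j)
    (h : ∀ j, Near (e j) (a j) (b j)) (hb : ∑ j, b j = 0) :
    ∑ j, max 0 (a j - b j) ≤ ∑ j, max 0 (a j) + 2 * N := by
  have h1 : ∑ j, max 0 (a j - b j) ≤ ∑ j, (max 0 (-b j) + e j) := by
    refine Finset.sum_le_sum fun j _ => max_le ?_ ?_
    · linarith [le_max_left 0 (-b j), he j]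
    · have h2 := (h j).1
      rcases le_total 0 (b j) with h0 | h0
      · rw [max_eq_right h0] at h2
        linarith [le_max_left 0 (-b j)]
      · rw [max_eq_left h0] at h2
        linarith [le_max_right 0 (-b j)]
  rw [Finset.sum_add_distrib, rg_sum_neg hb] at h1
  linarith [rg_sum_b hN he h]

private lemma rg_sum_norm (hN : ∑ j, e j ≤ N) (he : ∀ j, 0 ≤ e j)
    (h : ∀ j, Near (e j) (a j) (b j)) (ha : ∑ j, a j = 0) (hb : ∑ j, b j = 0) :
    ∑ j, (|a j| + |b j|) ≤ 4 * ∑ j, max 0 (a j) + 2 * N := by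
  rw [Finset.sum_add_distrib, rg_sum_abs ha, rg_sum_abs hb]
  linarith [rg_sum_b hN he h]

/-- the mass of the ray `(-1, 0)` -/
private lemma rg_mass1 (hN : ∑ j, e j ≤ N) (he : ∀ j, 0 ≤ e j)
    (h : ∀ j, Near (e j) (a j) (b j)) (ha : ∑ j, a j = 0) {g M : ℝ} (hg : 0 ≤ g) (hM : 0 ≤ M)
    (hm : ∀ j, a j ≤ 0 → a j ≤ b j → -a j * g ≤ e j + 2 * (e j * M)) :
    (∑ j, max 0 (a j) - N) * g ≤ N * (1 + 2 * M) := by
  have h1 : ∀ j, (max 0 (-a j) - e j) * g ≤ e j * (1 + 2 * M) := by
    intro j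
    by_cases hc : a j ≤ 0 ∧ a j ≤ b j
    · have h2 := hm j hc.1 hc.2
      rw [max_eq_right (by linarith [hc.1])]
      have h3 : 0 ≤ e j * g := mul_nonneg (he j) hg
      nlinarith
    · have h2 : max 0 (-a j) ≤ e j := by
        refine max_le (he j) ?_
        rcases le_or_gt (a j) 0 with h0 | h0
        · have h3 : b j < a j := by
            by_contra h4
            exact hc ⟨h0, not_lt.1 h4⟩
          have h4 := (h j).2.2
          rw [max_eq_left h3.le] at h4
          linarith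
        · linarith [he j]
      have h3 : (max 0 (-a j) - e j) * g ≤ 0 := mul_nonpos_of_nonpos_of_nonneg (by linarith) hg
      have h4 : 0 ≤ e j * (1 + 2 * M) := mul_nonneg (he j) (by linarith)
      linarith
  have h2 := Finset.sum_le_sum fun j (_ : j ∈ Finset.univ) => h1 j
  rw [← Finset.sum_mul, ← Finset.sum_mul, Finset.sum_sub_distrib, rg_sum_neg ha] at h2
  have h3 : (∑ j, max 0 (a j) - N) * g ≤ (∑ j, max 0 (a j) - ∑ j, e j) * g :=
    mul_le_mul_of_nonneg_right (by linarith) hg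
  have h4 : (∑ j, e j) * (1 + 2 * M) ≤ N * (1 + 2 * M) :=
    mul_le_mul_of_nonneg_right hN (by linarith)
  linarith

end Sums

/-- **Rigidity.** Types: `j` has type 1, 2, 0 if `a j`, `b j`, `0` is the smallest of
`0, a j, b j`; up to an error `e j` in one coordinate, `(a j, b j) = t ρ`, `ρ` the ray of the type,
`t ≥ 0`; the masses `T_i = ∑ t` are all `≥ H - 3N`, `H = ∑ max 0 (a j)`. For `j` of type `i`,
`t * gapF (A ρ_i) ≤ e j (1 + 4 ‖A‖)` (`gapF` is homogeneous and Lipschitz); sum over `j`, apply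
`three_rays`. Then `l ≥ 9/10` from `∑ max 0 (a j) ≤ ∑ max 0 (a' j)`, and `‖A‖ ≤ 2 l`. -/
theorem rigid : ∃ C : ℝ, 1 ≤ C ∧ ∀ (ι : Type) [Fintype ι] (e a b a' b' : ι → ℝ)
    (N α β γ δ : ℝ), 0 < N → (∀ j, 0 ≤ e j) → ∑ j, e j ≤ N → (∀ j, Near (e j) (a j) (b j)) →
    (∀ j, Near (e j) (a' j) (b' j)) → ∑ j, a j = 0 → ∑ j, b j = 0 →
    (∀ j, a' j = α * a j + β * b j) → (∀ j, b' j = γ * a j + δ * b j) →
    ∑ j, max 0 (a j) ≤ ∑ j, max 0 (a' j) → C * N ≤ ∑ j, max 0 (a j) →
    ∃ (l : ℝ) (k : Fin 6), 9 / 10 ≤ l ∧ ∀ s t : ℝ,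
      |orb1 k (α * s + β * t) (γ * s + δ * t) - l * s| ≤
        C * l * N / (∑ j, max 0 (a j)) * (|s| + |t|) ∧
      |orb2 k (α * s + β * t) (γ * s + δ * t) - l * t| ≤
        C * l * N / (∑ j, max 0 (a j)) * (|s| + |t|) := by
  refine ⟨5000, by norm_num, ?_⟩
  intro ι _ e a b a' b' N α β γ δ hN he hsum hn hn' ha hb ha' hb' hle hC
  set H : ℝ := ∑ j, max 0 (a j) with hH
  set M : ℝ := max (max |α| |β|) (max |γ| |δ|) with hM
  have hMα : |α| ≤ M := (le_max_left _ _).trans (le_max_left _ _)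
  have hMβ : |β| ≤ M := (le_max_right _ _).trans (le_max_left _ _)
  have hMγ : |γ| ≤ M := (le_max_left _ _).trans (le_max_right _ _)
  have hMδ : |δ| ≤ M := (le_max_right _ _).trans (le_max_right _ _)
  have hM0 : 0 ≤ M := (abs_nonneg α).trans hMα
  have hnb : ∀ j, Near (e j) (b j) (a j) := fun j =>
    ⟨(hn j).2.1, (hn j).1, by rw [max_comm]; exact (hn j).2.2⟩
  have hB : H ≤ ∑ j, max 0 (b j) + N := by
    rw [hH]
    exact rg_sum_b hsum he hnb
  -- the three rays
  have g1 : (H - N) * gapF (-α) (-γ) ≤ N * (1 + 2 * M) := by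
    refine rg_mass1 hsum he hn ha (rg_gapF_nonneg _ _) hM0 ?_
    intro j h1 h2
    have hb1 : |b j| ≤ e j := by
      have h3 := (hn j).2.1
      have h4 := (hn j).2.2
      rw [max_eq_left h1] at h3
      rw [max_eq_right h2] at h4
      exact abs_le.2 ⟨by linarith, by linarith⟩
    have h5 : Near (e j) (-a j * (-α) + b j * β) (-a j * (-γ) + b j * δ) := by
      have h6 := hn' j
      rw [ha' j, hb' j] at h6
      convert h6 using 1 <;> ring
    refine rg_one (he j) (by linarith) h5 ?_ ?_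
    · rw [abs_mul]
      exact mul_le_mul hb1 hMβ (abs_nonneg _) (he j)
    · rw [abs_mul]
      exact mul_le_mul hb1 hMδ (abs_nonneg _) (he j)
  have g2 : (H - 2 * N) * gapF (-β) (-δ) ≤ N * (1 + 2 * M) := by
    have h0 : (∑ j, max 0 (b j) - N) * gapF (-β) (-δ) ≤ N * (1 + 2 * M) := by
      refine rg_mass1 hsum he hnb hb (rg_gapF_nonneg _ _) hM0 ?_
      intro j h1 h2
      have hb1 : |a j| ≤ e j := by
        have h3 := (hnb j).2.1
        have h4 := (hnb j).2.2
        rw [max_eq_left h1] at h3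
        rw [max_eq_right h2] at h4
        exact abs_le.2 ⟨by linarith, by linarith⟩
      have h5 : Near (e j) (-b j * (-β) + a j * α) (-b j * (-δ) + a j * γ) := by
        have h6 := hn' j
        rw [ha' j, hb' j] at h6
        convert h6 using 1 <;> ring
      refine rg_one (he j) (by linarith) h5 ?_ ?_
      · rw [abs_mul]
        exact mul_le_mul hb1 hMα (abs_nonneg _) (he j)
      · rw [abs_mul]
        exact mul_le_mul hb1 hMγ (abs_nonneg _) (he j)
    have h1 : (H - 2 * N) * gapF (-β) (-δ) ≤ (∑ j, max 0 (b j) - N) * gapF (-β) (-δ) :=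
      mul_le_mul_of_nonneg_right (by linarith) (rg_gapF_nonneg _ _)
    linarith
  have g0 : (H - N) * gapF (α + β) (γ + δ) ≤ N * (1 + 2 * M) := by
    have hab : ∑ j, (-a j) = 0 := by rw [Finset.sum_neg_distrib, ha, neg_zero]
    -- the third ray is the first one for the coordinates `(-a, b - a)`
    have hn3 : ∀ j, Near (e j) (-a j) (b j - a j) := by
      intro j
      obtain ⟨h1, h2, h3⟩ := hn j
      refine ⟨?_, ?_, ?_⟩
      · rcases le_total (a j) (b j) with h | h
        · rw [max_eq_right h] at h3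
          linarith [le_max_right 0 (b j - a j)]
        · rw [max_eq_left h] at h3
          linarith [le_max_left 0 (b j - a j)]
      · rcases le_total 0 (a j) with h | h
        · rw [max_eq_right h] at h2
          linarith [le_max_left 0 (-a j)]
        · rw [max_eq_left h] at h2
          linarith [le_max_right 0 (-a j)]
      · rcases le_total 0 (b j) with h | h
        · rw [max_eq_right h] at h1
          linarith [le_max_right (-a j) (b j - a j)]
        · rw [max_eq_left h] at h1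
          linarith [le_max_left (-a j) (b j - a j)]
    have hH' : ∑ j, max 0 (-a j) = H := rg_sum_neg ha
    have h0 := rg_mass1 (g := gapF (α + β) (γ + δ)) hsum he hn3 hab (rg_gapF_nonneg _ _) hM0 (by
      intro j h1 h2
      have hb1 : |b j - a j| ≤ e j := by
        have h3 := (hn3 j).2.1
        have h4 := (hn3 j).2.2
        rw [max_eq_left h1] at h3
        rw [max_eq_right h2] at h4
        exact abs_le.2 ⟨by linarith, by linarith⟩
      have h5 : Near (e j) (-(-a j) * (α + β) + (b j - a j) * β)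
          (-(-a j) * (γ + δ) + (b j - a j) * δ) := by
        have h6 := hn' j
        rw [ha' j, hb' j] at h6
        convert h6 using 1 <;> ring
      refine rg_one (he j) (by linarith) h5 ?_ ?_
      · rw [abs_mul]
        exact mul_le_mul hb1 hMβ (abs_nonneg _) (he j)
      · rw [abs_mul]
        exact mul_le_mul hb1 hMδ (abs_nonneg _) (he j))
    rwa [hH'] at h0
  -- the error
  have hD : 0 < H - 2 * N := by linarith
  set ε : ℝ := N * (1 + 2 * M) / (H - 2 * N) with hε
  have hε0 : 0 ≤ ε := div_nonneg (mul_nonneg hN.le (by linarith)) hD.le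
  have hεD : ε * (H - 2 * N) = N * (1 + 2 * M) := div_mul_cancel₀ _ hD.ne'
  have e1 : gapF (-α) (-γ) ≤ ε := by
    rw [hε, le_div_iff₀ hD]
    have h1 := rg_gapF_nonneg (-α) (-γ)
    nlinarith
  have e2 : gapF (-β) (-δ) ≤ ε := by
    rw [hε, le_div_iff₀ hD]
    linarith
  have e0 : gapF (α + β) (γ + δ) ≤ ε := by
    rw [hε, le_div_iff₀ hD]
    have h1 := rg_gapF_nonneg (α + β) (γ + δ)
    nlinarith
  obtain ⟨l, k, hl0, hlk⟩ := three_rays α β γ δ ε hε0 e1 e2 e0
  -- the entries
  have hMl : M ≤ l + 40 * ε := by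
    have p1 := (hlk 1 0).1
    have p2 := (hlk 1 0).2
    have p3 := (hlk 0 1).1
    have p4 := (hlk 0 1).2
    simp only [mul_one, mul_zero, add_zero, zero_add, abs_one, abs_zero, sub_zero] at p1 p2 p3 p4
    rw [abs_le] at p1 p2 p3 p4
    obtain ⟨p1, q1⟩ := p1
    obtain ⟨p2, q2⟩ := p2
    obtain ⟨p3, q3⟩ := p3
    obtain ⟨p4, q4⟩ := p4
    rw [hM]
    fin_cases k <;> simp only [orb1, orb2] at p1 p2 p3 p4 q1 q2 q3 q4 <;>
      exact max_le (max_le (abs_le.2 ⟨by linarith, by linarith⟩)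
        (abs_le.2 ⟨by linarith, by linarith⟩))
        (max_le (abs_le.2 ⟨by linarith, by linarith⟩) (abs_le.2 ⟨by linarith, by linarith⟩))
  -- the lower bound for `l`
  have hX : ∃ X : ι → ℝ, (∀ j, a' j ≤ l * X j + 40 * ε * (|a j| + |b j|)) ∧
      ∑ j, max 0 (X j) ≤ H + 2 * N := by
    have hbs := rg_sum_b hsum he hn
    have habs := rg_sum_ab hsum he hn hb
    have hna := rg_sum_neg ha
    have hnb' := rg_sum_neg hb
    have hba : ∑ j, max 0 (b j - a j) = ∑ j, max 0 (a j - b j) := by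
      have h1 : ∑ j, (a j - b j) = 0 := by rw [Finset.sum_sub_distrib, ha, hb, sub_zero]
      rw [← rg_sum_neg h1]
      refine Finset.sum_congr rfl fun j _ => ?_
      rw [neg_sub]
    have hj : ∀ j, 0 ≤ 20 * ε * (|a j| + |b j|) := fun j => by positivity
    have hq : ∀ j, |orb1 k (a' j) (b' j) - l * a j| ≤ 20 * ε * (|a j| + |b j|) ∧
        |orb2 k (a' j) (b' j) - l * b j| ≤ 20 * ε * (|a j| + |b j|) := by
      intro j
      rw [ha' j, hb' j]
      exact hlk (a j) (b j)
    fin_cases k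
    · refine ⟨a, fun j => ?_, by linarith⟩
      obtain ⟨h1, h2⟩ := hq j
      simp only [orb1, orb2] at h1 h2
      rw [abs_le] at h1 h2
      linarith [hj j]
    · refine ⟨b, fun j => ?_, by linarith⟩
      obtain ⟨h1, h2⟩ := hq j
      simp only [orb1, orb2] at h1 h2
      rw [abs_le] at h1 h2
      linarith [hj j]
    · refine ⟨fun j => -a j, fun j => ?_, by linarith⟩
      obtain ⟨h1, h2⟩ := hq j
      simp only [orb1, orb2] at h1 h2
      rw [abs_le] at h1 h2
      linarith [hj j]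
    · refine ⟨fun j => b j - a j, fun j => ?_, by linarith⟩
      obtain ⟨h1, h2⟩ := hq j
      simp only [orb1, orb2] at h1 h2
      rw [abs_le] at h1 h2
      linarith [hj j]
    · refine ⟨fun j => a j - b j, fun j => ?_, by linarith⟩
      obtain ⟨h1, h2⟩ := hq j
      simp only [orb1, orb2] at h1 h2
      rw [abs_le] at h1 h2
      linarith [hj j]
    · refine ⟨fun j => -b j, fun j => ?_, by linarith⟩
      obtain ⟨h1, h2⟩ := hq j
      simp only [orb1, orb2] at h1 h2
      rw [abs_le] at h1 h2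
      linarith [hj j]
  obtain ⟨X, hX1, hX2⟩ := hX
  have hHl : H ≤ l * (H + 2 * N) + 40 * ε * (4 * H + 2 * N) := by
    have h1 : ∑ j, max 0 (a' j) ≤ ∑ j, (l * max 0 (X j) + 40 * ε * (|a j| + |b j|)) := by
      refine Finset.sum_le_sum fun j _ => max_le ?_ ?_
      · have h2 : 0 ≤ l * max 0 (X j) := mul_nonneg hl0 (le_max_left _ _)
        have h3 : 0 ≤ 40 * ε * (|a j| + |b j|) := by positivity
        linarith
      · have h2 : l * X j ≤ l * max 0 (X j) := mul_le_mul_of_nonneg_left (le_max_right _ _) hl0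
        linarith [hX1 j]
    rw [Finset.sum_add_distrib, ← Finset.mul_sum, ← Finset.mul_sum] at h1
    have h2 : l * ∑ j, max 0 (X j) ≤ l * (H + 2 * N) := mul_le_mul_of_nonneg_left hX2 hl0
    have h3 : 40 * ε * ∑ j, (|a j| + |b j|) ≤ 40 * ε * (4 * H + 2 * N) :=
      mul_le_mul_of_nonneg_left (rg_sum_norm hsum he hn ha hb) (by positivity)
    linarith
  have hεN : 0 ≤ ε * N := mul_nonneg hε0 hN.le
  have hlN : 0 ≤ l * N := mul_nonneg hl0 hN.le
  have hNM : N * M ≤ N * (l + 40 * ε) := mul_le_mul_of_nonneg_left hMl hN.le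
  have hεH : ε * H ≤ N * (1 + 2 * l) + 82 * (ε * N) := by nlinarith
  have hεH2 : ε * (5000 * N) ≤ ε * H := mul_le_mul_of_nonneg_left hC hε0
  have hl : 9 / 10 ≤ l := by
    by_contra hcon
    have hcon' : l < 9 / 10 := not_le.1 hcon
    have hHpos : 0 < H + 2 * N := by linarith
    have h1 : l * (H + 2 * N) ≤ 9 / 10 * (H + 2 * N) :=
      mul_le_mul_of_nonneg_right hcon'.le hHpos.le
    have h2 : N * l ≤ N * (9 / 10) := mul_le_mul_of_nonneg_left hcon'.le hN.le
    nlinarith
  refine ⟨l, k, hl, fun s t => ?_⟩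
  have hfin : 20 * ε ≤ 5000 * l * N / H := by
    have hHpos : 0 < H := by linarith
    rw [le_div_iff₀ hHpos]
    have h1 : N * 1 ≤ N * (10 / 9 * l) := mul_le_mul_of_nonneg_left (by linarith) hN.le
    nlinarith
  have hst : 0 ≤ |s| + |t| := by positivity
  have hmul := mul_le_mul_of_nonneg_right hfin hst
  exact ⟨(hlk s t).1.trans hmul, (hlk s t).2.trans hmul⟩

/-- The upper bound for the height of `(z/x^n : (1-z)/(1-x)^n : 1)`, `n` chosen near `l`:
`n - 2/5 ≤ l < n + 3/5`. -/
theorem upper : ∃ C : ℝ, 0 ≤ C ∧ ∀ (C1 : ℝ), 0 ≤ C1 → ∀ (ι : Type) [Fintype ι]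
    (e a b s t : ι → ℝ) (N l : ℝ) (n : ℕ), 0 < N → (∀ j, 0 ≤ e j) → ∑ j, e j ≤ N →
    (∀ j, Near (e j) (a j) (b j)) → ∑ j, a j = 0 → ∑ j, b j = 0 → N ≤ ∑ j, max 0 (a j) →
    1 ≤ n → (n : ℝ) - 2 / 5 ≤ l → l < n + 3 / 5 →
    (∀ j, |s j - l * a j| ≤ C1 * l * N / (∑ j, max 0 (a j)) * (|a j| + |b j|)) →
    (∀ j, |t j - l * b j| ≤ C1 * l * N / (∑ j, max 0 (a j)) * (|a j| + |b j|)) →
    ∑ j, max 0 (max (s j - n * a j) (t j - n * b j)) ≤
      4 / 5 * (∑ j, max 0 (a j)) + C * (C1 + 1) * n * N := by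
  refine ⟨12, by norm_num, ?_⟩
  intro C1 hC1 ι _ e a b s t N l n hN he hsum hn ha hb hNH hn1 hl1 hl2 hs ht
  set H : ℝ := ∑ j, max 0 (a j) with hH
  have hHpos : 0 < H := lt_of_lt_of_le hN hNH
  have hn1' : (1 : ℝ) ≤ n := by exact_mod_cast hn1
  have hl0 : 0 ≤ l := by linarith
  set c : ℝ := C1 * l * N / H with hc
  have hc0 : 0 ≤ c := div_nonneg (mul_nonneg (mul_nonneg hC1 hl0) hN.le) hHpos.le
  have hcH : c * H = C1 * l * N := div_mul_cancel₀ _ hHpos.ne'
  have hnorm := rg_sum_norm hsum he hn ha hb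
  have hbs := rg_sum_b hsum he hn
  have herr : c * ∑ j, (|a j| + |b j|) ≤ 10 * (C1 * n * N) := by
    have h1 : c * ∑ j, (|a j| + |b j|) ≤ c * (4 * H + 2 * N) :=
      mul_le_mul_of_nonneg_left hnorm hc0
    have h2 : c * N ≤ c * H := mul_le_mul_of_nonneg_left hNH hc0
    have h3 : l ≤ 8 / 5 * n := by linarith
    have h4 : C1 * l * N ≤ C1 * (8 / 5 * n) * N :=
      mul_le_mul_of_nonneg_right (mul_le_mul_of_nonneg_left h3 hC1) hN.le
    have h5 : 0 ≤ C1 * n * N := mul_nonneg (mul_nonneg hC1 (by linarith)) hN.le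
    nlinarith
  have hfin : 0 ≤ C1 * n * N := mul_nonneg (mul_nonneg hC1 (by linarith)) hN.le
  have hnN : N ≤ n * N := by nlinarith
  rcases le_total (n : ℝ) l with h | h
  · -- `l ≥ n`
    have h1 : ∑ j, max 0 (max (s j - n * a j) (t j - n * b j)) ≤
        ∑ j, ((l - n) * (max 0 (a j) + e j) + c * (|a j| + |b j|)) := by
      refine Finset.sum_le_sum fun j _ => ?_
      have h2 : 0 ≤ c * (|a j| + |b j|) := by positivity
      have h3 := (abs_le.1 (hs j)).2
      have h4 := (abs_le.1 (ht j)).2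
      have h5 : 0 ≤ max 0 (a j) + e j := add_nonneg (le_max_left _ _) (he j)
      have h6 : (l - n) * a j ≤ (l - n) * (max 0 (a j) + e j) :=
        mul_le_mul_of_nonneg_left (by linarith [le_max_right 0 (a j), he j]) (by linarith)
      have h7 : (l - n) * b j ≤ (l - n) * (max 0 (a j) + e j) :=
        mul_le_mul_of_nonneg_left (hn j).2.1 (by linarith)
      have h8 : 0 ≤ (l - n) * (max 0 (a j) + e j) := mul_nonneg (by linarith) h5
      refine max_le (by linarith) (max_le ?_ ?_)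
      · nlinarith
      · nlinarith
    rw [Finset.sum_add_distrib, ← Finset.mul_sum, ← Finset.mul_sum, Finset.sum_add_distrib] at h1
    have h2 : (l - n) * (H + ∑ j, e j) ≤ 3 / 5 * (H + N) := by
      have h3 : (l - n) * (H + ∑ j, e j) ≤ (l - n) * (H + N) :=
        mul_le_mul_of_nonneg_left (by linarith) (by linarith)
      have h4 : (l - n) * (H + N) ≤ 3 / 5 * (H + N) :=
        mul_le_mul_of_nonneg_right (by linarith) (by linarith)
      linarith
    nlinarith
  · -- `l ≤ n`
    have h1 : ∑ j, max 0 (max (s j - n * a j) (t j - n * b j)) ≤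
        ∑ j, ((n - l) * (max 0 (-a j) + max 0 (-b j)) + c * (|a j| + |b j|)) := by
      refine Finset.sum_le_sum fun j _ => ?_
      have h2 : 0 ≤ c * (|a j| + |b j|) := by positivity
      have h3 := (abs_le.1 (hs j)).2
      have h4 := (abs_le.1 (ht j)).2
      have h6 : (n - l) * (-a j) ≤ (n - l) * (max 0 (-a j) + max 0 (-b j)) :=
        mul_le_mul_of_nonneg_left (by linarith [le_max_right 0 (-a j), le_max_left 0 (-b j)])
          (by linarith)
      have h7 : (n - l) * (-b j) ≤ (n - l) * (max 0 (-a j) + max 0 (-b j)) :=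
        mul_le_mul_of_nonneg_left (by linarith [le_max_left 0 (-a j), le_max_right 0 (-b j)])
          (by linarith)
      have h8 : 0 ≤ (n - l) * (max 0 (-a j) + max 0 (-b j)) :=
        mul_nonneg (by linarith) (add_nonneg (le_max_left _ _) (le_max_left _ _))
      refine max_le (by linarith) (max_le ?_ ?_)
      · nlinarith
      · nlinarith
    rw [Finset.sum_add_distrib, ← Finset.mul_sum, ← Finset.mul_sum, Finset.sum_add_distrib,
      rg_sum_neg ha, rg_sum_neg hb] at h1
    have h2 : (n - l) * (H + ∑ j, max 0 (b j)) ≤ 2 / 5 * (2 * H + N) := by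
      have h3 : (n - l) * (H + ∑ j, max 0 (b j)) ≤ (n - l) * (2 * H + N) :=
        mul_le_mul_of_nonneg_left (by linarith) (by linarith)
      have h4 : (n - l) * (2 * H + N) ≤ 2 / 5 * (2 * H + N) :=
        mul_le_mul_of_nonneg_right (by linarith) (by linarith)
      linarith
    nlinarith

end Pool.Agent.MinHt
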