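import Pool.Agent.CITNF.Comm
import Pool.Agent.MinHt.PadeHt
import Pool.Agent.MinHt.Rigid
import Pool.Agent.MinHt.RankOne

set_option autoImplicit false

/-! M7. Two solutions of `x + y = 1` of total rank two: the smaller height is absolutely bounded. -/

namespace Pool.Agent.MinHt

open NumberField Height Real Module Pool.Agent.CITNF

/-- The six symmetries. -/
noncomputable def orbK {K : Type} [Field K] : Fin 6 → K → K
  | 0, y => y
  | 1, y => 1 - y
  | 2, y => y⁻¹
  | 3, y => (1 - y)⁻¹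
  | 4, y => y / (y - 1)
  | 5, y => (y - 1) / y

section

variable {K : Type} [Field K] [NumberField K] {ι : Type} [Fintype ι] (P : PF K ι)

private theorem thmA_neg (j : ι) (z : K) : P.av j (-z) = P.av j z := by
  have h1 : P.av j (-1) = 1 := by
    have h2 : P.av j (-1) * P.av j (-1) = 1 := by
      rw [← map_mul]
      simp
    have h3 := P.nonneg j (-1)
    nlinarith
  rw [← neg_one_mul, map_mul, h1, one_mul]

private theorem thmA_sub (j : ι) (z w : K) : P.av j (z - w) = P.av j (w - z) := by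
  rw [← thmA_neg P j (z - w), neg_sub]

private theorem thmA_log_div (j : ι) {z w : K} (hz : z ≠ 0) (hw : w ≠ 0) :
    log (P.av j (z / w)) = log (P.av j z) - log (P.av j w) := by
  rw [map_div₀, Real.log_div (P.av_pos j hz).ne' (P.av_pos j hw).ne']

end

theorem PF.orb {K : Type} [Field K] [NumberField K] {ι : Type} [Fintype ι] (P : PF K ι) (k : Fin 6)
    (y : K) (hy : y ≠ 0) (hy1 : y ≠ 1) (j : ι) :
    log (P.av j (orbK k y)) = orb1 k (log (P.av j y)) (log (P.av j (1 - y))) ∧
    log (P.av j (1 - orbK k y)) = orb2 k (log (P.av j y)) (log (P.av j (1 - y))) := by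
  have h1 : (1 - y) ≠ 0 := sub_ne_zero.2 (Ne.symm hy1)
  have h2 : (y - 1) ≠ 0 := sub_ne_zero.2 hy1
  have h3 : P.av j (y - 1) = P.av j (1 - y) := thmA_sub P j y 1
  fin_cases k
  · exact ⟨rfl, rfl⟩
  · refine ⟨rfl, ?_⟩
    change log (P.av j (1 - (1 - y))) = _
    rw [sub_sub_cancel]
    rfl
  · constructor
    · change log (P.av j y⁻¹) = -log (P.av j y)
      rw [map_inv₀, Real.log_inv]
    · change log (P.av j (1 - y⁻¹)) = log (P.av j (1 - y)) - log (P.av j y)
      have e : 1 - y⁻¹ = (y - 1) / y := by field_simp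
      rw [e, thmA_log_div P j h2 hy, h3]
  · constructor
    · change log (P.av j (1 - y)⁻¹) = -log (P.av j (1 - y))
      rw [map_inv₀, Real.log_inv]
    · change log (P.av j (1 - (1 - y)⁻¹)) = log (P.av j y) - log (P.av j (1 - y))
      have e : 1 - (1 - y)⁻¹ = (-y) / (1 - y) := by
        field_simp
        ring
      rw [e, thmA_log_div P j (neg_ne_zero.2 hy) h1, thmA_neg]
  · constructor
    · change log (P.av j (y / (y - 1))) = log (P.av j y) - log (P.av j (1 - y))
      rw [thmA_log_div P j hy h2, h3]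
    · change log (P.av j (1 - y / (y - 1))) = -log (P.av j (1 - y))
      have e : 1 - y / (y - 1) = (1 - y)⁻¹ := by
        have : y - 1 = -(1 - y) := by ring
        rw [this]
        field_simp
        ring
      rw [e, map_inv₀, Real.log_inv]
  · constructor
    · change log (P.av j ((y - 1) / y)) = log (P.av j (1 - y)) - log (P.av j y)
      rw [thmA_log_div P j h2 hy, h3]
    · change log (P.av j (1 - (y - 1) / y)) = -log (P.av j y)
      have e : 1 - (y - 1) / y = y⁻¹ := by
        field_simp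
        ring
      rw [e, map_inv₀, Real.log_inv]

private theorem thmA_log_max {s t : ℝ} (hs : 0 < s) (ht : 0 < t) :
    log (max s t) = max (log s) (log t) := by
  rcases le_total s t with h | h
  · rw [max_eq_right h, max_eq_right (Real.log_le_log hs h)]
  · rw [max_eq_left h, max_eq_left (Real.log_le_log ht h)]

private theorem thmA_add {K : Type} [Field K] [NumberField K] {ι : Type} [Fintype ι] (P : PF K ι)
    (j : ι) (u w : K) (hu : u ≠ 0) (hw : w ≠ 0) (huw : u + w ≠ 0) :
    log (P.av j (u + w)) ≤ max (log (P.av j u)) (log (P.av j w)) + P.wt j * log 2 := by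
  have h := P.add_le j u w
  have h2 := Real.log_le_log (P.av_pos j huw) h
  have h3 : 0 < max (P.av j u) (P.av j w) := lt_max_of_lt_left (P.av_pos j hu)
  rw [Real.log_mul (by positivity) h3.ne', Real.log_pow, thmA_log_max (P.av_pos j hu)
    (P.av_pos j hw)] at h2
  linarith

theorem PF.near {K : Type} [Field K] [NumberField K] {ι : Type} [Fintype ι] (P : PF K ι)
    (y : K) (hy : y ≠ 0) (hy1 : y ≠ 1) (j : ι) :
    Near (P.wt j * log 2) (log (P.av j y)) (log (P.av j (1 - y))) := by
  have h1 : (1 - y) ≠ 0 := sub_ne_zero.2 (Ne.symm hy1)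
  have h2 : (y - 1) ≠ 0 := sub_ne_zero.2 hy1
  have h3 : P.av j (y - 1) = P.av j (1 - y) := thmA_sub P j y 1
  have hone : log (P.av j 1) = 0 := by rw [map_one, Real.log_one]
  refine ⟨?_, ?_, ?_⟩
  · have e : (1 : K) + (y - 1) = y := by ring
    have h := thmA_add P j 1 (y - 1) one_ne_zero h2 (by rw [e]; exact hy)
    rw [e, hone, h3] at h
    exact h
  · have e : (1 : K) + (-y) = 1 - y := by ring
    have h := thmA_add P j 1 (-y) one_ne_zero (neg_ne_zero.2 hy) (by rw [e]; exact h1)
    rw [e, hone, thmA_neg] at h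
    exact h
  · have e : y + (1 - y) = (1 : K) := by ring
    have h := thmA_add P j y (1 - y) hy h1 (by rw [e]; exact one_ne_zero)
    rw [e, hone] at h
    exact h

private theorem thmA_mem {K : Type} [Field K] (k : Fin 6) (x y : K) (hy : y ≠ 0) (hy1 : y ≠ 1)
    (hx : x ≠ 0) (hx1 : x ≠ 1) (h : orbK k y = x) : Eqv x y := by
  have h1 : (1 - y) ≠ 0 := sub_ne_zero.2 (Ne.symm hy1)
  have h2 : (y - 1) ≠ 0 := sub_ne_zero.2 hy1
  have h3 : (x - 1) ≠ 0 := sub_ne_zero.2 hx1
  have h4 : (1 - x) ≠ 0 := sub_ne_zero.2 (Ne.symm hx1)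
  unfold Eqv
  fin_cases k
  · left
    exact h
  · right; left
    change 1 - y = x at h
    rw [← h]
    ring
  · right; right; left
    change y⁻¹ = x at h
    rw [← h, inv_inv]
  · right; right; right; right; right
    change (1 - y)⁻¹ = x at h
    have e : 1 - y = x⁻¹ := by rw [← h, inv_inv]
    have e2 : y = 1 - x⁻¹ := by rw [← e]; ring
    rw [e2]
    field_simp
  · right; right; right; right; left
    change y / (y - 1) = x at h
    rw [eq_div_iff h3]
    rw [div_eq_iff h2] at h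
    linear_combination -h
  · right; right; right; left
    change (y - 1) / y = x at h
    refine eq_inv_of_mul_eq_one_left ?_
    rw [div_eq_iff hy] at h
    linear_combination h

private theorem thmA_orb_ne {K : Type} [Field K] (k : Fin 6) (y : K) (hy : y ≠ 0) (hy1 : y ≠ 1) :
    orbK k y ≠ 0 ∧ orbK k y ≠ 1 := by
  have h1 : (1 - y) ≠ 0 := sub_ne_zero.2 (Ne.symm hy1)
  have h2 : (y - 1) ≠ 0 := sub_ne_zero.2 hy1
  fin_cases k
  · exact ⟨hy, hy1⟩
  · refine ⟨h1, fun h => hy ?_⟩
    change 1 - y = 1 at h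
    linear_combination -h
  · refine ⟨inv_ne_zero hy, fun h => hy1 ?_⟩
    change y⁻¹ = 1 at h
    exact inv_eq_one.1 h
  · refine ⟨inv_ne_zero h1, fun h => hy ?_⟩
    change (1 - y)⁻¹ = 1 at h
    have := inv_eq_one.1 h
    linear_combination -this
  · refine ⟨div_ne_zero hy h2, fun h => ?_⟩
    change y / (y - 1) = 1 at h
    rw [div_eq_iff h2] at h
    have h5 : (1 : K) = 0 := by linear_combination h
    exact one_ne_zero h5
  · refine ⟨div_ne_zero h2 hy, fun h => ?_⟩
    change (y - 1) / y = 1 at h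
    rw [div_eq_iff hy] at h
    have h5 : (1 : K) = 0 := by linear_combination -h
    exact one_ne_zero h5

private theorem thmA_height {K : Type} [Field K] [NumberField K] {ι : Type} [Fintype ι]
    (P : PF K ι) {z : K} (hz : z ∈ P.good) : logHeight₁ z = ∑ j, max 0 (log (P.av j z)) := by
  rw [P.height z hz]
  rfl

private theorem thmA_comm {K : Type} [Field K] [NumberField K] {ι : Type} [Fintype ι]
    (P : PF K ι) {x y : K} {N : ℕ} {A B C D : ℤ} (hx : x ≠ 0) (hx1 : x ≠ 1) (hy : y ≠ 0)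
    (hy1 : y ≠ 1) (h : Comm x y N A B C D) (j : ι) :
    log (P.av j y) = (A / N : ℝ) * log (P.av j x) + (B / N : ℝ) * log (P.av j (1 - x)) ∧
    log (P.av j (1 - y)) = (C / N : ℝ) * log (P.av j x) + (D / N : ℝ) * log (P.av j (1 - x)) := by
  have h1 : (1 - x) ≠ 0 := sub_ne_zero.2 (Ne.symm hx1)
  have h2 : (1 - y) ≠ 0 := sub_ne_zero.2 (Ne.symm hy1)
  have hN : (N : ℝ) ≠ 0 := by exact_mod_cast h.N0.ne'
  have key : ∀ (z : K) (a b : ℤ), z ≠ 0 → z ^ N = x ^ a * (1 - x) ^ b →
      log (P.av j z) = (a / N : ℝ) * log (P.av j x) + (b / N : ℝ) * log (P.av j (1 - x)) := by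
    intro z a b hz e
    have e1 : P.av j z ^ N = P.av j x ^ a * P.av j (1 - x) ^ b := by
      rw [← map_pow, e, map_mul, map_zpow₀, map_zpow₀]
    have e2 := congrArg Real.log e1
    rw [Real.log_pow, Real.log_mul (zpow_pos (P.av_pos j hx) _).ne'
      (zpow_pos (P.av_pos j h1) _).ne', Real.log_zpow, Real.log_zpow] at e2
    field_simp
    linarith
  exact ⟨key y A B hy h.hy, key (1 - y) C D h2 h.hy1⟩

/-- The main case. From `rigid` (with `N = [K:ℚ] log 2`), `pade_height` for `z = orbK k y` and the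
natural number `n` with `n - 2/5 ≤ l < n + 3/5`, and `upper`:
`(max 1 (n/2) - 4/5) h ≤ C n [K:ℚ]`, and `max 1 (n/2) - 4/5 ≥ n / 15`. Apply `rigid` with any `PF`
(its conclusion concerns the matrix only) and `upper` with the `PF` from `pade_height`. -/
theorem main_case : ∃ H : ℝ, ∀ (K : Type) [Field K] [NumberField K] (x y : K) (N : ℕ)
    (A B C D : ℤ), x ≠ 0 → x ≠ 1 → y ≠ 0 → y ≠ 1 → Comm x y N A B C D → ¬ Eqv x y →
    logHeight₁ x ≤ logHeight₁ y → logHeight₁ x ≤ H * finrank ℚ K := by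
  classical
  obtain ⟨C1, hC1, hpade⟩ := pade_height
  obtain ⟨C2, hC2, hrigid⟩ := rigid
  obtain ⟨C3, hC3, hupper⟩ := upper
  have hl2 : 0 < log 2 := Real.log_pos (by norm_num)
  refine ⟨max (C2 * log 2) (15 * (C1 + C3 * (C2 + 1) * log 2)), ?_⟩
  intro K _ _ x y N A B C D hx hx1 hy hy1 hcomm hne hle
  have hd : (0 : ℝ) < finrank ℚ K := by exact_mod_cast finrank_pos
  set d : ℝ := ((finrank ℚ K : ℕ) : ℝ) with hdd
  have h1x : (1 - x) ≠ 0 := sub_ne_zero.2 (Ne.symm hx1)
  have h1y : (1 - y) ≠ 0 := sub_ne_zero.2 (Ne.symm hy1)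
  set NN : ℝ := d * log 2 with hNN
  have hNNpos : 0 < NN := mul_pos hd hl2
  by_cases hbig : C2 * NN ≤ logHeight₁ x
  swap
  · push Not at hbig
    have h1 : C2 * NN = C2 * log 2 * d := by rw [hNN]; ring
    have h2 : C2 * log 2 * d ≤ max (C2 * log 2) (15 * (C1 + C3 * (C2 + 1) * log 2)) * d :=
      mul_le_mul_of_nonneg_right (le_max_left _ _) hd.le
    linarith
  -- the matrix
  obtain ⟨ι1, _, P1, hP1⟩ := exists_PF K {x, 1 - x, y, 1 - y} (by
    intro z hz
    simp only [Finset.mem_insert, Finset.mem_singleton] at hz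
    rcases hz with rfl | rfl | rfl | rfl
    · exact hx
    · exact h1x
    · exact hy
    · exact h1y)
  have gx : x ∈ P1.good := hP1 _ (by simp)
  have g1x : 1 - x ∈ P1.good := hP1 _ (by simp)
  have gy : y ∈ P1.good := hP1 _ (by simp)
  have g1y : 1 - y ∈ P1.good := hP1 _ (by simp)
  have hwt : ∀ {ι : Type} [Fintype ι] (P : PF K ι), ∑ j, (P.wt j : ℝ) * log 2 = NN := by
    intro ι _ P
    rw [← Finset.sum_mul, hNN, hdd, ← P.sum_wt]
    push_cast
    rfl
  obtain ⟨l, k, hl, hmat⟩ := hrigid ι1 (fun j => P1.wt j * log 2) (fun j => log (P1.av j x))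
    (fun j => log (P1.av j (1 - x))) (fun j => log (P1.av j y)) (fun j => log (P1.av j (1 - y)))
    NN (A / N) (B / N) (C / N) (D / N) hNNpos (fun j => by positivity) (hwt P1).le
    (fun j => P1.near x hx hx1 j) (fun j => P1.near y hy hy1 j) (P1.sum_log x gx)
    (P1.sum_log _ g1x) (fun j => (thmA_comm P1 hx hx1 hy hy1 hcomm j).1)
    (fun j => (thmA_comm P1 hx hx1 hy hy1 hcomm j).2)
    (by rw [← thmA_height P1 gx, ← thmA_height P1 gy]; exact hle)
    (by rw [← thmA_height P1 gx]; exact hbig)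
  rw [← thmA_height P1 gx] at hmat
  -- the exponent
  set n : ℕ := ⌊l + 2 / 5⌋₊ with hn
  have hln : 0 ≤ l + 2 / 5 := by linarith
  have hn1 : (n : ℝ) ≤ l + 2 / 5 := Nat.floor_le hln
  have hn2 : l + 2 / 5 < n + 1 := Nat.lt_floor_add_one _
  have hn3 : 1 ≤ n := by
    rw [hn, Nat.one_le_floor_iff]
    linarith
  obtain ⟨z0, z1⟩ := thmA_orb_ne k y hy hy1
  set z := orbK k y with hz
  have h1z : (1 - z) ≠ 0 := sub_ne_zero.2 (Ne.symm z1)
  obtain ⟨ι, _, P, px, p1x, pz, p1z, hP⟩ := hpade K x z hx hx1 z0 z1 n hn3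
    (fun _ hzx => hne (thmA_mem k x y hy hy1 hx hx1 hzx))
  have hHx := thmA_height P px
  have horb : ∀ j, log (P.av j z) = orb1 k (log (P.av j y)) (log (P.av j (1 - y))) ∧
      log (P.av j (1 - z)) = orb2 k (log (P.av j y)) (log (P.av j (1 - y))) :=
    fun j => P.orb k y hy hy1 j
  have hup := hupper C2 (by linarith) ι (fun j => P.wt j * log 2) (fun j => log (P.av j x))
    (fun j => log (P.av j (1 - x))) (fun j => log (P.av j z)) (fun j => log (P.av j (1 - z)))
    NN l n hNNpos (fun j => by positivity) (hwt P).le (fun j => P.near x hx hx1 j)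
    (P.sum_log x px) (P.sum_log _ p1x) (by
      rw [← hHx]
      nlinarith) hn3 (by linarith) (by linarith)
    (fun j => by
      rw [← hHx]
      obtain ⟨e1, e2⟩ := thmA_comm P hx hx1 hy hy1 hcomm j
      have := (hmat (log (P.av j x)) (log (P.av j (1 - x)))).1
      rw [← e1, ← e2, ← (horb j).1] at this
      exact this)
    (fun j => by
      rw [← hHx]
      obtain ⟨e1, e2⟩ := thmA_comm P hx hx1 hy hy1 hcomm j
      have := (hmat (log (P.av j x)) (log (P.av j (1 - x)))).2
      rw [← e1, ← e2, ← (horb j).2] at this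
      exact this)
  rw [← hHx] at hup
  have hh2 : P.h2 (z / x ^ n) ((1 - z) / (1 - x) ^ n) =
      ∑ j, max 0 (max (log (P.av j z) - n * log (P.av j x))
        (log (P.av j (1 - z)) - n * log (P.av j (1 - x)))) := by
    refine Finset.sum_congr rfl fun j _ => ?_
    have p1 := P.av_pos j (div_ne_zero z0 (pow_ne_zero n hx))
    have p2 := P.av_pos j (div_ne_zero h1z (pow_ne_zero n h1x))
    rw [thmA_log_max one_pos (lt_max_of_lt_left p1), thmA_log_max p1 p2, Real.log_one,
      thmA_log_div P j z0 (pow_ne_zero n hx), thmA_log_div P j h1z (pow_ne_zero n h1x),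
      map_pow, map_pow, Real.log_pow, Real.log_pow]
  rw [hh2] at hP
  set h := logHeight₁ x with hh
  have hh0 : 0 < h := by
    have : 0 < C2 * NN := by positivity
    linarith
  have hnR : (1 : ℝ) ≤ n := by exact_mod_cast hn3
  have hm : (n : ℝ) / 15 ≤ (max 1 (n / 2 : ℕ) : ℝ) - 4 / 5 := by
    rcases Nat.lt_or_ge n 4 with h4 | h4
    · have h5 : (1 : ℝ) ≤ (max 1 (n / 2 : ℕ) : ℝ) := le_max_left _ _
      have h6 : (n : ℝ) ≤ 3 := by exact_mod_cast Nat.lt_succ_iff.1 h4
      linarith
    · have h5 : ((n / 2 : ℕ) : ℝ) ≤ (max 1 (n / 2 : ℕ) : ℝ) := le_max_right _ _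
      have h6 : n ≤ 2 * (n / 2) + 1 := by omega
      have h7 : (n : ℝ) ≤ 2 * ((n / 2 : ℕ) : ℝ) + 1 := by exact_mod_cast h6
      have h8 : (4 : ℝ) ≤ n := by exact_mod_cast h4
      linarith
  have hfin : (n : ℝ) / 15 * h ≤ n * (C1 * d + C3 * (C2 + 1) * NN) := by
    have e1 : (n : ℝ) / 15 * h ≤ ((max 1 (n / 2 : ℕ) : ℝ) - 4 / 5) * h :=
      mul_le_mul_of_nonneg_right hm hh0.le
    nlinarith
  have hfin2 : h ≤ 15 * (C1 + C3 * (C2 + 1) * log 2) * d := by
    have e1 : (n : ℝ) * (h / 15) ≤ n * (C1 * d + C3 * (C2 + 1) * NN) := by linarith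
    have e2 := le_of_mul_le_mul_left e1 (by linarith)
    rw [hNN] at e2
    linarith
  exact hfin2.trans (mul_le_mul_of_nonneg_right (le_max_right _ _) hd.le)

private theorem thmA_rel_symm {K : Type} [Field K] {x y : K} (h : Rel2 x y) : Rel2 y x := by
  obtain ⟨a, b, hind, ha, hb⟩ := h
  refine ⟨![a 2, a 3, a 0, a 1], ![b 2, b 3, b 0, b 1], ?_, ?_, ?_⟩
  · intro s t hst
    refine hind s t ?_
    funext i
    have e0 := congrFun hst 0
    have e1 := congrFun hst 1
    have e2 := congrFun hst 2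
    have e3 := congrFun hst 3
    simp only [Pi.add_apply, Pi.smul_apply, smul_eq_mul, Matrix.cons_val_zero,
      Matrix.cons_val_one, Matrix.cons_val, Pi.zero_apply] at e0 e1 e2 e3
    fin_cases i
    · simpa using e2
    · simpa using e3
    · simpa using e0
    · simpa using e1
  · rw [R_symm]
    exact ha
  · rw [R_symm]
    exact hb

/-- **The absolute height bound.** -/
theorem min_height : ∃ H : ℝ, 0 < H ∧ ∀ (K : Type) [Field K] [NumberField K] (x y : K),
    x ≠ 0 → x ≠ 1 → y ≠ 0 → y ≠ 1 → Rel2 x y → ¬ Eqv x y →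
    min (logHeight₁ x) (logHeight₁ y) ≤ H * finrank ℚ K := by
  obtain ⟨H, hH⟩ := main_case
  have hl2 : 0 < log 2 := Real.log_pos (by norm_num)
  refine ⟨max H (3 * log 2), lt_max_of_lt_right (by positivity), ?_⟩
  intro K _ _ x y hx hx1 hy hy1 hrel hne
  have hd : (0 : ℝ) < finrank ℚ K := by exact_mod_cast finrank_pos
  have b1 : H * finrank ℚ K ≤ max H (3 * log 2) * finrank ℚ K :=
    mul_le_mul_of_nonneg_right (le_max_left _ _) hd.le
  have b2 : 3 * (finrank ℚ K * log 2) ≤ max H (3 * log 2) * finrank ℚ K := by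
    have := mul_le_mul_of_nonneg_right (le_max_right H (3 * log 2)) hd.le
    linarith
  by_cases hmx : MI x
  swap
  · exact (min_le_left _ _).trans ((rank_one_unif K x hx hx1 hmx).trans b2)
  by_cases hmy : MI y
  swap
  · exact (min_le_right _ _).trans ((rank_one_unif K y hy hy1 hmy).trans b2)
  rcases le_total (logHeight₁ x) (logHeight₁ y) with hle | hle
  · obtain ⟨N, A, B, C, D, hc⟩ := exists_comm hx hx1 hy hy1 hrel hmx
    exact (min_le_left _ _).trans ((hH K x y N A B C D hx hx1 hy hy1 hc hne hle).trans b1)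
  · obtain ⟨N, A, B, C, D, hc⟩ := exists_comm hy hy1 hx hx1 (thmA_rel_symm hrel) hmy
    exact (min_le_right _ _).trans ((hH K y x N A B C D hy hy1 hx hx1 hc
      (fun he => hne (Eqv.symm hy hy1 he)) hle).trans b1)

end Pool.Agent.MinHt
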