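import Pool.Agent.MinHt.Bog
import Pool.Agent.CITNF.Final

set_option autoImplicit false

/-! M10. The covering theorem for powers of the line. -/

namespace Pool.Agent.MinHt

open NumberField Height Real Module Pool.Agent.CITNF Pool.Agent.CITLines Pool.Agent.CITTrans

/-- The points of `L^r` with coordinates in `S` in torsion cosets of dimension at most two are
covered by finitely many proper special subvarieties. -/
def Covered (r : ℕ) (S : Set ℂ) : Prop :=
  ∃ (k : ℕ) (L : Fin k → Submodule ℤ (Fin (r + r) → ℤ)) (ζ : Fin k → Fin (r + r) → ℂ),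
    (∀ j, L j ≠ ⊥ ∧
      (∀ a : Fin (r + r) → ℤ, ∀ m : ℤ, m ≠ 0 → m • a ∈ L j → a ∈ L j) ∧
      ∃ m : ℕ, 0 < m ∧ ∀ i, ζ j i ^ m = 1) ∧
    ∀ T : Set (Fin (r + r) → ℂ), IsTorsionCoset T →
      ringKrullDim (MvPolynomial (Fin (r + r)) ℂ ⧸
        (⨅ x ∈ T, RingHom.ker
          (MvPolynomial.eval x : MvPolynomial (Fin (r + r)) ℂ →+* ℂ))) ≤ 2 →
      ∀ P ∈ linePower r ∩ T, (∀ i, P i ∈ S) →
        ∃ j, P ∈ {y : Fin (r + r) → ℂ | (∀ i, y i ≠ 0) ∧
          ∀ a ∈ L j, ∏ i, y i ^ a i = ∏ i, ζ j i ^ a i}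

/-- All atypical points of `L^3` with coordinates in `S` are covered by finitely many proper special
subvarieties. -/
def AtypicalCovered (S : Set ℂ) : Prop :=
  ∃ (k : ℕ) (L : Fin k → Submodule ℤ (Fin (3 + 3) → ℤ)) (ζ : Fin k → Fin (3 + 3) → ℂ),
    (∀ j, L j ≠ ⊥ ∧
      (∀ a : Fin (3 + 3) → ℤ, ∀ m : ℤ, m ≠ 0 → m • a ∈ L j → a ∈ L j) ∧
      ∃ m : ℕ, 0 < m ∧ ∀ i, ζ j i ^ m = 1) ∧
    ∀ P : Fin (3 + 3) → ℂ, IsAtypical (linePower 3) {P} → (∀ i, P i ∈ S) →
      ∃ j, P ∈ {y : Fin (3 + 3) → ℂ | (∀ i, y i ≠ 0) ∧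
        ∀ a ∈ L j, ∏ i, y i ^ a i = ∏ i, ζ j i ^ a i}

/-- The four coordinates belonging to the factors `i` and `j`. -/
private def covE {r : ℕ} (i j : Fin r) : Fin 4 → Fin (r + r) :=
  ![Fin.castAdd r i, Fin.natAdd r i, Fin.castAdd r j, Fin.natAdd r j]

private theorem covE_injective {r : ℕ} {i j : Fin r} (hij : i ≠ j) :
    Function.Injective (covE i j) := by
  have h : (i : ℕ) ≠ j := fun h => hij (Fin.ext h)
  intro a c hac
  fin_cases a <;> fin_cases c <;> simp [covE, Fin.ext_iff] at hac ⊢ <;> omega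

/-- As `CITNF.relations`, for the `i`-th and `j`-th factor. -/
theorem relations' {r : ℕ} (i j : Fin r) (hij : i ≠ j) (T : Set (Fin (r + r) → ℂ))
    (hT : IsTorsionCoset T)
    (hdim : ringKrullDim (MvPolynomial (Fin (r + r)) ℂ ⧸ vanI T) ≤ 2)
    (P : Fin (r + r) → ℂ) (hP : P ∈ linePower r ∩ T) :
    Rel2 (P (Fin.castAdd r i)) (P (Fin.castAdd r j)) := by
  change Rel2 (P (covE i j 0)) (P (covE i j 2))
  have he := covE_injective hij
  obtain ⟨M, η, hsat, hη, rfl⟩ := hT
  obtain ⟨k, hk, hkd⟩ := dim_cos M η hη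
  change ringKrullDim (MvPolynomial (Fin (r + r)) ℂ ⧸ vanI (cos M η)) ≤ 2 at hdim
  rw [hkd] at hdim
  have hk2 : k ≤ 2 := by exact_mod_cast hdim
  obtain ⟨u, w, huM, hwM, hu0, hw0, hind⟩ := exists_two (QS M) (by omega) (covE i j) he
  obtain ⟨k1, hk1, a, haM, ha⟩ := exists_mult_mem huM
  obtain ⟨k2, hk2', b, hbM, hb⟩ := exists_mult_mem hwM
  obtain ⟨m, hm, hηm⟩ := hη
  have ha0 : ∀ l, l ∉ Set.range (covE i j) → a l = 0 := by
    intro l hl
    have := ha l
    rw [hu0 l hl, mul_zero] at this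
    exact_mod_cast this
  have hb0 : ∀ l, l ∉ Set.range (covE i j) → b l = 0 := by
    intro l hl
    have := hb l
    rw [hw0 l hl, mul_zero] at this
    exact_mod_cast this
  have hL := hP.1
  have hL0 : P (covE i j 1) = 1 - P (covE i j 0) := by
    have := hL.2 i
    change P (Fin.natAdd r i) = 1 - P (Fin.castAdd r i)
    rw [← this]
    ring
  have hL1 : P (covE i j 3) = 1 - P (covE i j 2) := by
    have := hL.2 j
    change P (Fin.natAdd r j) = 1 - P (Fin.castAdd r j)
    rw [← this]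
    ring
  have key : ∀ c ∈ M, (∀ l, l ∉ Set.range (covE i j) → c l = 0) →
      R (P (covE i j 0)) (P (covE i j 2)) ((m : ℤ) • fun l => c (covE i j l)) = 1 := by
    intro c hcM hc0
    rw [R_smul]
    have h1 : R (P (covE i j 0)) (P (covE i j 2)) (fun l => c (covE i j l)) =
        ∏ l, P l ^ c l := by
      rw [prod_support P (covE i j) he c hc0, Fin.prod_univ_four, hL0, hL1]
      simp only [R]
      ring
    rw [h1, hP.2.2 c hcM, zpow_natCast, ← Finset.prod_pow]
    refine Finset.prod_eq_one fun l _ => ?_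
    rw [← zpow_natCast, ← zpow_mul, mul_comm, zpow_mul, zpow_natCast, hηm, one_zpow]
  refine ⟨(m : ℤ) • fun l => a (covE i j l), (m : ℤ) • fun l => b (covE i j l), ?_,
    key a haM ha0, key b hbM hb0⟩
  intro s t hst
  have h1 : ∀ l, (s : ℚ) * a l + t * b l = 0 := by
    intro l
    by_cases hl : l ∈ Set.range (covE i j)
    · obtain ⟨q, rfl⟩ := hl
      have h2 := congrFun hst q
      simp only [Pi.add_apply, Pi.smul_apply, smul_eq_mul, Pi.zero_apply] at h2
      have h3 : (m : ℤ) * (s * a (covE i j q) + t * b (covE i j q)) = 0 := by linarith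
      have h4 := (mul_eq_zero.mp h3).resolve_left (by exact_mod_cast hm.ne')
      exact_mod_cast h4
    · rw [ha0 l hl, hb0 l hl]
      simp
  have h2 := hind (s * k1) (t * k2) (by
    funext l
    have := h1 l
    rw [ha l, hb l] at this
    simp only [Pi.add_apply, Pi.smul_apply, smul_eq_mul, Pi.zero_apply]
    linarith)
  have hk1' : (k1 : ℚ) ≠ 0 := by exact_mod_cast hk1
  have hk2'' : (k2 : ℚ) ≠ 0 := by exact_mod_cast hk2'
  constructor
  · have := (mul_eq_zero.mp h2.1).resolve_right hk1'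
    exact_mod_cast this
  · have := (mul_eq_zero.mp h2.2).resolve_right hk2''
    exact_mod_cast this

/-- The number field generated by finitely many algebraic numbers. -/
private theorem cov_field (p : Fin 3 → ℂ) (hp : ∀ i, IsAlgebraic ℚ (p i)) :
    ∃ (K : Type) (_ : Field K) (_ : NumberField K) (φ : K →+* ℂ) (x : Fin 3 → K),
      (∀ i, φ (x i) = p i) ∧ IntermediateField.adjoin ℚ (Set.range x) = ⊤ := by
  have hfin : FiniteDimensional ℚ (IntermediateField.adjoin ℚ (Set.range p)) := by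
    apply IntermediateField.finiteDimensional_adjoin
    rintro z ⟨i, rfl⟩
    exact (hp i).isIntegral
  have hmem : ∀ i, p i ∈ IntermediateField.adjoin ℚ (Set.range p) := fun i =>
    IntermediateField.subset_adjoin ℚ _ ⟨i, rfl⟩
  have key : ∀ inst : Algebra ℚ (IntermediateField.adjoin ℚ (Set.range p)),
      @IntermediateField.adjoin ℚ _ (IntermediateField.adjoin ℚ (Set.range p)) _ inst
        (Set.range fun i => ⟨p i, hmem i⟩) = ⊤ := by
    intro inst
    obtain rfl : inst = (IntermediateField.adjoin ℚ (Set.range p)).algebra' :=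
      Subsingleton.elim _ _
    apply IntermediateField.map_injective (IntermediateField.adjoin ℚ (Set.range p)).val
    rw [IntermediateField.adjoin_map, ← AlgHom.fieldRange_eq_map,
      IntermediateField.fieldRange_val, ← Set.range_comp]
    rfl
  exact ⟨IntermediateField.adjoin ℚ (Set.range p), inferInstance,
    { to_charZero := inferInstance, to_finiteDimensional := by convert hfin },
    algebraMap (IntermediateField.adjoin ℚ (Set.range p)) ℂ, fun i => ⟨p i, hmem i⟩,
    fun i => rfl, key _⟩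

/-- Number field generated by three coordinates; `bog_relation`; `cover_finset`. -/
theorem covered_of_bog (S : Set ℂ) (hS : BogSet S) (r : ℕ) (hr : 3 ≤ r) : Covered r S := by
  classical
  obtain ⟨E, hE0, hE⟩ := bog_relation S hS
  set F : Fin 3 → Fin r := Fin.castLE hr with hF
  have hFinj : Function.Injective F := Fin.castLE_injective hr
  set G : (Fin 3 × Fin 3) × (Fin 4 → ℤ) → (Fin (r + r) → ℤ) :=
    fun q => Function.extend (covE (F q.1.1) (F q.1.2)) q.2 0 with hG
  have hGe : ∀ i j, i ≠ j → ∀ a l, G ((i, j), a) (covE (F i) (F j) l) = a l := by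
    intro i j hij a l
    exact (covE_injective (fun h => hij (hFinj h))).extend_apply _ _ _
  have hG0 : ∀ i j a l, l ∉ Set.range (covE (F i) (F j)) → G ((i, j), a) l = 0 := by
    intro i j a l hl
    rw [hG]
    simp only
    rw [Function.extend_apply' _ _ _ (by simpa using hl)]
    rfl
  set U : Finset ((Fin 3 × Fin 3) × (Fin 4 → ℤ)) :=
    ((Finset.univ : Finset (Fin 3 × Fin 3)).filter fun q => q.1 ≠ q.2) ×ˢ E with hU
  obtain ⟨k, L, ζ, hfam, hcov⟩ := cover_finset (U.image G) (by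
    intro h0
    obtain ⟨⟨⟨i, j⟩, a⟩, haS, ha⟩ := Finset.mem_image.mp h0
    rw [hU, Finset.mem_product, Finset.mem_filter] at haS
    apply hE0
    have : a = 0 := by
      funext l
      rw [← hGe i j haS.1.2 a l, ha]
      rfl
    rw [← this]
    exact haS.2)
  refine ⟨k, L, ζ, hfam, ?_⟩
  intro T hT hdim P hP hPS
  obtain ⟨K, _, _, φ, x, hx, hgen⟩ := cov_field (fun l => P (Fin.castAdd r (F l)))
    (fun l => hS.1 _ (hPS _))
  have hL : ∀ l, P (Fin.natAdd r (F l)) = 1 - P (Fin.castAdd r (F l)) := by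
    intro l
    rw [← hP.1.2 (F l)]
    ring
  have hx0 : ∀ l, x l ≠ 0 := by
    intro l h0
    have := hx l
    rw [h0, map_zero] at this
    exact hP.1.1 _ this.symm
  have hx1 : ∀ l, x l ≠ 1 := by
    intro l h0
    have h1 := hx l
    rw [h0, map_one] at h1
    have h2 := hL l
    rw [← h1, sub_self] at h2
    exact hP.1.1 _ h2
  obtain ⟨i, j, hij, a, haE, ha⟩ := hE K φ x (fun l => ⟨hx0 l, hx1 l, by
      rw [hx l]
      exact hPS _, by
      rw [map_sub, map_one, hx l]
      change 1 - P (Fin.castAdd r (F l)) ∈ S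
      rw [← hL l]
      exact hPS _⟩) hgen (fun i j hij => by
      have hrel := relations' (F i) (F j) (fun h => hij (hFinj h)) T hT hdim P hP
      obtain ⟨a, b, hind, ha, hb⟩ := hrel
      have e1 : φ (x i) = P (Fin.castAdd r (F i)) := hx i
      have e2 : φ (x j) = P (Fin.castAdd r (F j)) := hx j
      rw [← e1, ← e2, R_map] at ha hb
      exact ⟨a, b, hind, φ.injective (by rw [ha, map_one]), φ.injective (by rw [hb, map_one])⟩)
  obtain ⟨q, hq⟩ := hcov P hP.1.1 ⟨G ((i, j), a), Finset.mem_image_of_mem _ (by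
    rw [hU, Finset.mem_product, Finset.mem_filter]
    exact ⟨⟨Finset.mem_univ _, hij⟩, haE⟩), by
    rw [prod_support P (covE (F i) (F j)) (covE_injective fun h => hij (hFinj h))
      (G ((i, j), a)) (hG0 i j a), Fin.prod_univ_four]
    simp only [hGe i j hij]
    have e1 : φ (x i) = P (covE (F i) (F j) 0) := hx i
    have e2 : φ (x j) = P (covE (F i) (F j) 2) := hx j
    have e3 : P (covE (F i) (F j) 1) = 1 - P (covE (F i) (F j) 0) := hL i
    have e4 : P (covE (F i) (F j) 3) = 1 - P (covE (F i) (F j) 2) := hL j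
    rw [e3, e4, ← e1, ← e2]
    have h1 := R_map φ (x i) (x j) a
    rw [ha, map_one] at h1
    refine Eq.trans ?_ h1
    simp only [R]
    ring⟩
  exact ⟨q, hP.1.1, hq⟩

/-- As `CITNF.main3`. -/
theorem atypical_of_covered (S : Set ℂ) (h : Covered 3 S) : AtypicalCovered S := by
  obtain ⟨k, L, ζ, hfam, h⟩ := h
  refine ⟨k, L, ζ, hfam, ?_⟩
  rintro P ⟨T, hT, hcomp, hdim⟩ hK
  have hP : P ∈ linePower 3 ∩ T := hcomp.1 rfl
  refine h T hT ?_ P hP hK
  have hV : ringKrullDim (MvPolynomial (Fin (3 + 3)) ℂ ⧸ vanI (linePower 3)) = (3 : ℕ) := by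
    have hprime : (vanI (linePower 3)).IsPrime := (isVariety_linePower 3).2
    rw [ringKrullDim_eq_dm, vanI_linePower, dm_linePower]
  have hX : ringKrullDim (MvPolynomial (Fin (3 + 3)) ℂ ⧸ vanI {P}) = 0 := by
    have h1 : vanI ({P} : Set (Fin (3 + 3) → ℂ)) =
        RingHom.ker (MvPolynomial.eval P : MvPolynomial (Fin (3 + 3)) ℂ →+* ℂ) := by
      simp [vanI]
    rw [h1]
    have hs : Function.Surjective (MvPolynomial.eval P : MvPolynomial (Fin (3 + 3)) ℂ →+* ℂ) :=
      fun c => ⟨MvPolynomial.C c, MvPolynomial.eval_C c⟩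
    rw [ringKrullDim_eq_of_ringEquiv (RingHom.quotientKerEquivOfSurjective hs)]
    exact ringKrullDim_eq_zero_of_field ℂ
  obtain ⟨M, η, hsat, hη, rfl⟩ := hT
  obtain ⟨d, hd, hdd⟩ := dim_cos M η hη
  change ringKrullDim (MvPolynomial (Fin (3 + 3)) ℂ ⧸ vanI (cos M η)) ≤ 2
  change ringKrullDim (MvPolynomial (Fin (3 + 3)) ℂ ⧸ vanI (linePower 3)) +
    ringKrullDim (MvPolynomial (Fin (3 + 3)) ℂ ⧸ vanI (cos M η)) <
    ringKrullDim (MvPolynomial (Fin (3 + 3)) ℂ ⧸ vanI {P}) + _ at hdim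
  rw [hV, hX, hdd] at hdim
  rw [hdd]
  have h2 : ((3 + d : ℕ) : WithBot ℕ∞) < ((3 + 3 : ℕ) : WithBot ℕ∞) := by
    have := hdim
    rw [zero_add] at this
    exact_mod_cast this
  have h3 : 3 + d < 3 + 3 := by exact_mod_cast h2
  have h4 : d ≤ 2 := by omega
  exact_mod_cast h4

end Pool.Agent.MinHt
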