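import Pool.Agent.MinHt.Bog

set_option autoImplicit false

/-! M11. Algebraic numbers of bounded degree. -/

namespace Pool.Agent.MinHt

open NumberField Height Real Module Pool.Agent.CITNF

/-- the finite set of all conjugates of algebraic integers of house at most two -/
private theorem deg_finite (D : ℕ) : ∃ Z : Set ℂ, Z.Finite ∧
    ∀ (K : Type) [Field K] [NumberField K], finrank ℚ K ≤ D → ∀ x : K, IsIntegral ℤ x →
      (∀ φ : K →+* ℂ, ‖φ x‖ ≤ 2) → ∀ φ : K →+* ℂ, φ x ∈ Z := by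
  classical
  refine ⟨⋃ (f : Polynomial ℤ) (_ : f.natDegree ≤ D ∧ ∀ i, f.coeff i ∈
      Set.Icc (-(4 ^ D : ℤ)) (4 ^ D)), ((f.map (algebraMap ℤ ℂ)).roots.toFinset : Set ℂ),
    Polynomial.bUnion_roots_finite (algebraMap ℤ ℂ) D (Set.finite_Icc _ _), ?_⟩
  intro K _ _ hD x hx hx2 φ
  simp_rw [Set.mem_iUnion]
  have hm := minpoly.isIntegrallyClosed_eq_field_fractions' ℚ hx
  refine ⟨minpoly ℤ x, ⟨?_, fun i => ?_⟩, ?_⟩
  · rw [← (minpoly.monic hx).natDegree_map (algebraMap ℤ ℚ), ← hm]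
    exact (minpoly.natDegree_le x).trans hD
  · rw [Set.mem_Icc, ← abs_le, ← @Int.cast_le ℝ]
    refine (Eq.trans_le ?_ <| Embeddings.coeff_bdd_of_norm_le hx2 i).trans ?_
    · rw [hm, Polynomial.coeff_map, eq_intCast, Int.norm_cast_rat, Int.norm_eq_abs, Int.cast_abs]
    · have h1 : ((finrank ℚ K).choose (finrank ℚ K / 2) : ℝ) ≤ 2 ^ finrank ℚ K := by
        have := Nat.choose_le_two_pow (finrank ℚ K) (finrank ℚ K / 2)
        exact_mod_cast this
      rw [max_eq_left (by norm_num : (1 : ℝ) ≤ 2)]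
      calc (2 : ℝ) ^ finrank ℚ K * (finrank ℚ K).choose (finrank ℚ K / 2)
          ≤ 2 ^ finrank ℚ K * 2 ^ finrank ℚ K := by gcongr
        _ = 4 ^ finrank ℚ K := by rw [← mul_pow]; norm_num
        _ ≤ 4 ^ D := pow_le_pow_right₀ (by norm_num) hD
        _ = ((4 ^ D : ℤ) : ℝ) := by push_cast; rfl
  · rw [Finset.mem_coe, Multiset.mem_toFinset, Polynomial.mem_roots']
    refine ⟨?_, ?_⟩
    · rw [Polynomial.map_ne_zero_iff]
      · exact minpoly.ne_zero hx
      · exact (algebraMap ℤ ℂ).injective_int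
    · rw [Polynomial.IsRoot.def, Polynomial.eval_map, Subsingleton.elim (algebraMap ℤ ℂ)
        (φ.comp (algebraMap ℤ K)), ← Polynomial.hom_eval₂]
      have h2 : Polynomial.eval₂ (algebraMap ℤ K) x (minpoly ℤ x) = 0 := minpoly.aeval ℤ x
      rw [h2, map_zero]

private theorem deg_fin_le {K : Type} [Field K] [NumberField K] (γ : K) (hγ : γ ≠ 0)
    (h : logHeight₁ γ < log 2) (v : FinitePlace K) : v γ ≤ 1 := by
  by_contra hcon
  push Not at hcon
  obtain ⟨k, hk⟩ := exists_ord v γ hγ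
  have hpos : 0 < log (v γ) := Real.log_pos hcon
  have hl : 0 < lN v := lt_of_lt_of_le (Real.log_pos (by norm_num)) (log_two_le_lN v)
  have hk1 : (1 : ℝ) ≤ k := by
    have h1 : (0 : ℝ) < k := by
      by_contra h2
      push Not at h2
      have := mul_nonpos_of_nonpos_of_nonneg h2 hl.le
      rw [← hk] at this
      linarith
    have h2 : (0 : ℤ) < k := by exact_mod_cast h1
    exact_mod_cast (by omega : (1 : ℤ) ≤ k)
  have h2 : log 2 ≤ log (v γ) := by
    rw [hk]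
    calc log 2 ≤ lN v := log_two_le_lN v
      _ = 1 * lN v := (one_mul _).symm
      _ ≤ k * lN v := mul_le_mul_of_nonneg_right hk1 hl.le
  have h3 : log⁺ (v γ) ≤ hf γ := single_le_finsum v (hf_support γ) fun _ => posLog_nonneg
  have h4 : log (v γ) ≤ log⁺ (v γ) := le_max_right _ _
  have h5 := hi_nonneg γ
  have h6 := lh_eq γ
  linarith

private theorem deg_inf_le {K : Type} [Field K] [NumberField K] (γ : K)
    (v : InfinitePlace K) : log (v γ) ≤ logHeight₁ γ := by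
  have h1 : (v.mult : ℝ) * log⁺ (v γ) ≤ hi γ :=
    Finset.single_le_sum (f := fun v : InfinitePlace K => (v.mult : ℝ) * log⁺ (v γ))
      (fun w _ => mul_nonneg (Nat.cast_nonneg _) posLog_nonneg) (Finset.mem_univ v)
  have h2 : (1 : ℝ) ≤ v.mult := by exact_mod_cast InfinitePlace.one_le_mult
  have h3 : log⁺ (v γ) ≤ (v.mult : ℝ) * log⁺ (v γ) := by
    calc log⁺ (v γ) = 1 * log⁺ (v γ) := (one_mul _).symm
      _ ≤ _ := mul_le_mul_of_nonneg_right h2 posLog_nonneg
  have h4 : log (v γ) ≤ log⁺ (v γ) := le_max_right _ _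
  have h5 := hf_nonneg γ
  have h6 := lh_eq γ
  linarith

/-- Uniform lower bound in all number fields of degree at most `D`. If `h(γ) < log 2` then `γ` is a
unit of `𝓞 K` with all `|σ γ| ≤ 2`, so its characteristic polynomial over `ℤ` lies in a finite set
which depends on `D` only, and `h(γ) = ∑ log⁺ |σ γ|` is the logarithm of its Mahler measure; Kronecker's
theorem if it is `1`. -/
theorem height_lower_degree (D : ℕ) : ∃ c : ℝ, 0 < c ∧ ∃ w : ℕ, 0 < w ∧
    ∀ (K : Type) [Field K] [NumberField K], finrank ℚ K ≤ D → ∀ γ : K, γ ≠ 0 →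
      γ ^ w = 1 ∨ c * finrank ℚ K ≤ logHeight₁ γ := by
  classical
  obtain ⟨Z, hZ, hZK⟩ := deg_finite D
  -- a common exponent
  obtain ⟨w, hw0, hw⟩ : ∃ w : ℕ, 0 < w ∧ ∀ z ∈ Z, ∀ m : ℕ, 0 < m → z ^ m = 1 → z ^ w = 1 := by
    have hT : {z ∈ Z | ∃ m : ℕ, 0 < m ∧ z ^ m = 1}.Finite := hZ.subset fun z hz => hz.1
    choose! m hm using (fun z (hz : z ∈ {z ∈ Z | ∃ m : ℕ, 0 < m ∧ z ^ m = 1}) => hz.2)
    refine ⟨∏ z ∈ hT.toFinset, m z, Finset.prod_pos fun z hz => (hm z (hT.mem_toFinset.1 hz)).1, ?_⟩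
    intro z hz n hn hzn
    have hzT : z ∈ {z ∈ Z | ∃ m : ℕ, 0 < m ∧ z ^ m = 1} := ⟨hz, n, hn, hzn⟩
    obtain ⟨k, hk⟩ : m z ∣ ∏ z ∈ hT.toFinset, m z :=
      Finset.dvd_prod_of_mem m (hT.mem_toFinset.2 hzT)
    rw [hk, pow_mul, (hm z hzT).2, one_pow]
  -- a gap
  obtain ⟨c₀, hc₀, hc₁⟩ : ∃ c₀ : ℝ, 0 < c₀ ∧ ∀ z ∈ Z, 1 < ‖z‖ → c₀ ≤ log ‖z‖ := by
    have hT : {z ∈ Z | 1 < ‖z‖}.Finite := hZ.subset fun z hz => hz.1
    rcases {z ∈ Z | 1 < ‖z‖}.eq_empty_or_nonempty with he | hne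
    · refine ⟨1, one_pos, fun z hz h1 => ?_⟩
      have : z ∈ {z ∈ Z | 1 < ‖z‖} := ⟨hz, h1⟩
      rw [he] at this
      exact this.elim
    · obtain ⟨z₀, hz₀, hmin⟩ := hT.exists_minimalFor (fun z => log ‖z‖) _ hne
      refine ⟨log ‖z₀‖, Real.log_pos hz₀.2, fun z hz h1 => ?_⟩
      by_contra hcon
      push Not at hcon
      have h2 := hmin (show z ∈ {z ∈ Z | 1 < ‖z‖} from ⟨hz, h1⟩) hcon.le
      simp only at h2
      linarith
  have hlog2 : 0 < log 2 := Real.log_pos (by norm_num)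
  have hmin : 0 < min (log 2) c₀ := lt_min hlog2 hc₀
  refine ⟨min (log 2) c₀ / (D + 1), by positivity, w, hw0, ?_⟩
  intro K _ _ hD γ hγ
  have hcn : min (log 2) c₀ / (D + 1) * finrank ℚ K ≤ min (log 2) c₀ := by
    have h1 : (finrank ℚ K : ℝ) ≤ D + 1 := by
      have : (finrank ℚ K : ℝ) ≤ D := by exact_mod_cast hD
      linarith
    have h2 : (0 : ℝ) < D + 1 := by positivity
    rw [div_mul_eq_mul_div, div_le_iff₀ h2]
    exact mul_le_mul_of_nonneg_left h1 hmin.le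
  by_cases hlt : logHeight₁ γ < log 2
  · have hfin : ∀ v : FinitePlace K, v γ = 1 := by
      intro v
      refine le_antisymm (deg_fin_le γ hγ hlt v) ?_
      have h1 := deg_fin_le γ⁻¹ (inv_ne_zero hγ) (by rwa [logHeight₁_inv]) v
      rw [map_inv₀] at h1
      exact (inv_le_one₀ (FinitePlace.pos_iff.2 hγ)).1 h1
    obtain ⟨η, hη⟩ := exists_unit γ hfin
    have hint : IsIntegral ℤ γ := by
      rw [← hη]
      exact RingOfIntegers.isIntegral_coe _
    have hnorm : ∀ φ : K →+* ℂ, log ‖φ γ‖ ≤ logHeight₁ γ := by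
      intro φ
      have h1 := deg_inf_le γ (InfinitePlace.mk φ)
      rwa [InfinitePlace.apply] at h1
    have hpos : ∀ φ : K →+* ℂ, 0 < ‖φ γ‖ := fun φ => by
      rw [norm_pos_iff]
      exact (map_ne_zero φ).2 hγ
    have h2 : ∀ φ : K →+* ℂ, ‖φ γ‖ ≤ 2 := by
      intro φ
      exact ((Real.log_lt_log_iff (hpos φ) (by norm_num)).1 ((hnorm φ).trans_lt hlt)).le
    have hmem := hZK K hD γ hint h2
    by_cases hall : ∀ φ : K →+* ℂ, ‖φ γ‖ ≤ 1
    · left
      obtain ⟨n, hn, hγn⟩ := Embeddings.pow_eq_one_of_norm_le_one K ℂ hγ hint hall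
      obtain ⟨φ⟩ : Nonempty (K →+* ℂ) := inferInstance
      apply φ.injective
      rw [map_pow, map_one]
      exact hw _ (hmem φ) n hn (by rw [← map_pow, hγn, map_one])
    · right
      push Not at hall
      obtain ⟨φ, hφ⟩ := hall
      exact hcn.trans ((min_le_right _ _).trans ((hc₁ _ (hmem φ) hφ).trans (hnorm φ)))
  · right
    push Not at hlt
    exact hcn.trans ((min_le_left _ _).trans hlt)

theorem bogSet_degree (d : ℕ) : BogSet {z : ℂ | IsAlgebraic ℚ z ∧ (minpoly ℚ z).natDegree ≤ d} := by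
  refine ⟨fun s hs => hs.1, ?_⟩
  obtain ⟨c, hc, w, hw, h⟩ := height_lower_degree (d * d * d)
  refine ⟨c, hc, w, hw, ?_⟩
  intro K _ _ φ x hx htop i j a b e
  have hdeg : ∀ i, finrank ℚ (IntermediateField.adjoin ℚ {x i}) ≤ d := by
    intro i
    have hint : IsIntegral ℚ (x i) := Algebra.IsIntegral.isIntegral _
    rw [IntermediateField.adjoin.finrank hint]
    have h1 : minpoly ℚ (φ (x i)) = minpoly ℚ (x i) :=
      minpoly.algHom_eq φ.toRatAlgHom φ.injective (x i)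
    rw [← h1]
    exact (hx i).2.2.1.2
  have hK : finrank ℚ K ≤ d * d * d := by
    have e1 : Set.range x = {x 0} ∪ {x 1} ∪ {x 2} := by
      ext y
      constructor
      · rintro ⟨i, rfl⟩
        fin_cases i <;> simp
      · rintro ((h | h) | h)
        · exact ⟨0, h.symm⟩
        · exact ⟨1, h.symm⟩
        · exact ⟨2, h.symm⟩
    rw [e1, IntermediateField.adjoin_union, IntermediateField.adjoin_union] at htop
    rw [← IntermediateField.finrank_top' (F := ℚ) (E := K), ← htop]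
    calc _ ≤ _ := IntermediateField.finrank_sup_le _ _
      _ ≤ (finrank ℚ (IntermediateField.adjoin ℚ {x 0}) *
          finrank ℚ (IntermediateField.adjoin ℚ {x 1})) *
          finrank ℚ (IntermediateField.adjoin ℚ {x 2}) :=
        Nat.mul_le_mul_right _ (IntermediateField.finrank_sup_le _ _)
      _ ≤ d * d * d := Nat.mul_le_mul (Nat.mul_le_mul (hdeg 0) (hdeg 1)) (hdeg 2)
  refine h K hK _ ?_
  have h0 := (hx i).1
  have h1 : 1 - x i ≠ 0 := sub_ne_zero.2 (Ne.symm (hx i).2.1)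
  have h2 := (hx j).1
  exact mul_ne_zero (mul_ne_zero (zpow_ne_zero _ h0) (zpow_ne_zero _ h1)) (zpow_ne_zero _ h2)

end Pool.Agent.MinHt
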