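import Pool.Agent.CITNF.Rel

set_option autoImplicit false

/-! M8. A relation of bounded size between three numbers of bounded height and rank at most two. -/

namespace Pool.Agent.MinHt

open NumberField Height Real Module Pool.Agent.CITNF

/-- Simultaneous Dirichlet approximation in dimension three (one of the numbers may be `± 1`):
`1 ≤ q ≤ Q ^ 3`, all `q ρ_i` within `1 / Q` of integers (pigeonhole). -/
theorem dirichlet3 (ρ : Fin 3 → ℝ) (Q : ℕ) (hQ : 1 ≤ Q) :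
    ∃ (q : ℕ) (a : Fin 3 → ℤ), 1 ≤ q ∧ q ≤ Q ^ 3 ∧ ∀ i, |q * ρ i - a i| ≤ 1 / Q := by
  classical
  have hQR : (0 : ℝ) < Q := by exact_mod_cast hQ
  set S : Finset ℕ := Finset.range (Q ^ 3 + 1) with hS
  set T : Finset (Fin 3 → ℤ) := Fintype.piFinset fun _ => Finset.Ico (0 : ℤ) Q with hT
  let f : ℕ → Fin 3 → ℤ := fun q i => ⌊(Q : ℝ) * Int.fract ((q : ℝ) * ρ i)⌋
  have hmaps : ∀ q ∈ S, f q ∈ T := by
    intro q _
    rw [hT, Fintype.mem_piFinset]
    intro i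
    rw [Finset.mem_Ico]
    constructor
    · exact Int.floor_nonneg.2 (mul_nonneg hQR.le (Int.fract_nonneg _))
    · rw [Int.floor_lt]
      have h1 := Int.fract_lt_one ((q : ℝ) * ρ i)
      have h2 : (Q : ℝ) * Int.fract ((q : ℝ) * ρ i) < Q * 1 := mul_lt_mul_of_pos_left h1 hQR
      simpa using h2
  have hcard : T.card < S.card := by
    rw [hT, Fintype.card_piFinset, hS, Finset.card_range]
    simp
  obtain ⟨q1, h1, q2, h2, hne, heq⟩ := Finset.exists_ne_map_eq_of_card_lt_of_maps_to hcard hmaps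
  -- order them
  have key : ∀ q1 q2 : ℕ, q1 < q2 → q2 ≤ Q ^ 3 → f q1 = f q2 →
      ∃ (q : ℕ) (a : Fin 3 → ℤ), 1 ≤ q ∧ q ≤ Q ^ 3 ∧ ∀ i, |q * ρ i - a i| ≤ 1 / Q := by
    intro q1 q2 hlt hle he
    refine ⟨q2 - q1, fun i => ⌊(q2 : ℝ) * ρ i⌋ - ⌊(q1 : ℝ) * ρ i⌋, by omega, by omega, ?_⟩
    intro i
    have e1 : ((q2 - q1 : ℕ) : ℝ) * ρ i - ((⌊(q2 : ℝ) * ρ i⌋ - ⌊(q1 : ℝ) * ρ i⌋ : ℤ) : ℝ) =
        Int.fract ((q2 : ℝ) * ρ i) - Int.fract ((q1 : ℝ) * ρ i) := by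
      rw [Nat.cast_sub hlt.le, Int.cast_sub]
      simp only [Int.fract]
      ring
    rw [e1]
    have h3 : ⌊(Q : ℝ) * Int.fract ((q1 : ℝ) * ρ i)⌋ = ⌊(Q : ℝ) * Int.fract ((q2 : ℝ) * ρ i)⌋ :=
      congrFun he i
    have h4 := Int.abs_sub_lt_one_of_floor_eq_floor h3
    rw [← mul_sub, abs_mul, abs_of_pos hQR] at h4
    rw [abs_sub_comm, le_div_iff₀ hQR]
    linarith
  rw [hS, Finset.mem_range] at h1 h2
  rcases lt_or_gt_of_ne hne with h | h
  · exact key q1 q2 h (by omega) heq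
  · exact key q2 q1 h (by omega) heq.symm

/-- If `z0^m0 z1^m1 z2^m2 = 1`, `m ≠ 0`, then there is an exponent vector `a ≠ 0` of size at most
`Q^3 + 1` with `h(z^a) ≤ (1/Q) ∑ h(z_i)`. Proof: `ρ = m / M`, `M = max |m_i|`; `dirichlet3`;
`(z^a)^M = z^(M a - q m)` and `|M a_i - q m_i| ≤ M / Q`; `a ≠ 0` as `ρ_i = ± 1` for some `i`
(`Q ≥ 2`). -/
theorem small_relation {K : Type} [Field K] [NumberField K] (z : Fin 3 → K) (hz : ∀ i, z i ≠ 0)
    (m : Fin 3 → ℤ) (hm : m ≠ 0) (h : ∏ i, z i ^ m i = 1) (Q : ℕ) (hQ : 2 ≤ Q) :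
    ∃ a : Fin 3 → ℤ, a ≠ 0 ∧ (∀ i, |a i| ≤ Q ^ 3 + 1) ∧
      logHeight₁ (∏ i, z i ^ a i) ≤ 1 / Q * ∑ i, logHeight₁ (z i) := by
  classical
  have hQR : (2 : ℝ) ≤ Q := by exact_mod_cast hQ
  obtain ⟨i0, -, hmax⟩ := Finset.exists_max_image (Finset.univ : Finset (Fin 3)) (fun i => |m i|)
    ⟨0, Finset.mem_univ _⟩
  set M : ℤ := |m i0| with hM
  have hMpos : 0 < M := by
    rw [hM, abs_pos]
    intro h0
    apply hm
    funext i
    have := hmax i (Finset.mem_univ _)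
    rw [hM, h0, abs_zero] at this
    exact abs_nonpos_iff.1 this
  have hMR : (0 : ℝ) < M := by exact_mod_cast hMpos
  obtain ⟨q, a, hq1, hqQ, ha⟩ := dirichlet3 (fun i => (m i : ℝ) / M) Q (by omega)
  have hqR : (1 : ℝ) ≤ q := by exact_mod_cast hq1
  have hqQR : (q : ℝ) ≤ Q ^ 3 := by exact_mod_cast hqQ
  have hinv : 1 / (Q : ℝ) ≤ 1 / 2 := one_div_le_one_div_of_le (by norm_num) hQR
  refine ⟨a, ?_, ?_, ?_⟩
  · intro h0
    have h1 := ha i0
    have h2 : (a i0 : ℝ) = 0 := by rw [h0]; simp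
    rw [h2, sub_zero, abs_mul, abs_div, abs_of_pos hMR] at h1
    have h3 : |(m i0 : ℝ)| = M := by rw [hM]; push_cast; rfl
    rw [h3, div_self hMR.ne', mul_one, abs_of_nonneg (by positivity)] at h1
    linarith
  · intro i
    have h1 := ha i
    have h2 : |(m i : ℝ) / M| ≤ 1 := by
      rw [abs_div, abs_of_pos hMR, div_le_one hMR]
      have := hmax i (Finset.mem_univ _)
      exact_mod_cast this
    have h3 : |(a i : ℝ)| ≤ |(q : ℝ) * ((m i : ℝ) / M)| + 1 / Q := by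
      have h4 := abs_sub_abs_le_abs_sub (a i : ℝ) (q * ((m i : ℝ) / M))
      rw [abs_sub_comm] at h4
      linarith
    have h5 : |(q : ℝ) * ((m i : ℝ) / M)| ≤ Q ^ 3 := by
      rw [abs_mul, abs_of_nonneg (by positivity)]
      calc (q : ℝ) * |(m i : ℝ) / M| ≤ q * 1 := mul_le_mul_of_nonneg_left h2 (by positivity)
        _ = q := mul_one _
        _ ≤ Q ^ 3 := hqQR
    have h6 : |(a i : ℝ)| ≤ (Q : ℝ) ^ 3 + 1 := by linarith
    exact_mod_cast h6
  · have hpow : (∏ i, z i ^ a i) ^ M = ∏ i, z i ^ (M * a i - q * m i) := by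
      have e1 : (∏ i, z i ^ a i) ^ M = (∏ i, z i ^ a i) ^ M * ((∏ i, z i ^ m i) ^ (q : ℤ))⁻¹ := by
        rw [h, one_zpow, inv_one, mul_one]
      rw [e1, ← Finset.prod_zpow, ← Finset.prod_zpow, ← Finset.prod_inv_distrib,
        ← Finset.prod_mul_distrib]
      refine Finset.prod_congr rfl fun i _ => ?_
      rw [← zpow_mul, ← zpow_mul, ← zpow_neg, ← zpow_add₀ (hz i)]
      congr 1
      ring
    have e2 := congrArg logHeight₁ hpow
    rw [logHeight₁_zpow] at e2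
    have e3 : ((M.natAbs : ℕ) : ℝ) = M := by
      rw [Nat.cast_natAbs, abs_of_pos hMpos]
    rw [e3] at e2
    have h7 : logHeight₁ (∏ i, z i ^ (M * a i - q * m i)) ≤
        ∑ i, logHeight₁ (z i ^ (M * a i - q * m i)) := by
      rw [Fin.prod_univ_three, Fin.sum_univ_three]
      have g1 := logHeight₁_mul_le (z 0 ^ (M * a 0 - q * m 0) * z 1 ^ (M * a 1 - q * m 1))
        (z 2 ^ (M * a 2 - q * m 2))
      have g2 := logHeight₁_mul_le (z 0 ^ (M * a 0 - q * m 0)) (z 1 ^ (M * a 1 - q * m 1))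
      linarith
    have h8 : ∀ i, logHeight₁ (z i ^ (M * a i - q * m i)) ≤ M * (1 / Q) * logHeight₁ (z i) := by
      intro i
      rw [logHeight₁_zpow]
      refine mul_le_mul_of_nonneg_right ?_ (zero_le_logHeight₁ _)
      have h1 := ha i
      have h9 : (((M * a i - q * m i).natAbs : ℕ) : ℝ) = |(M : ℝ) * a i - q * m i| := by
        rw [Nat.cast_natAbs]
        push_cast
        rfl
      rw [h9]
      have h10 : (M : ℝ) * a i - q * m i = -(M * (q * ((m i : ℝ) / M) - a i)) := by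
        field_simp
        ring
      rw [h10, abs_neg, abs_mul, abs_of_pos hMR]
      exact mul_le_mul_of_nonneg_left h1 hMR.le
    have h11 : (M : ℝ) * logHeight₁ (∏ i, z i ^ a i) ≤ M * (1 / Q * ∑ i, logHeight₁ (z i)) := by
      rw [e2]
      refine h7.trans ((Finset.sum_le_sum fun i _ => h8 i).trans (le_of_eq ?_))
      rw [← Finset.mul_sum]
      ring
    exact le_of_mul_le_mul_left h11 hMR

end Pool.Agent.MinHt
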