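import Pool.Agent.MinHt.ThmA
import Pool.Agent.MinHt.Dir
import Pool.Agent.CITLines.Final
import Pool.Agent.CITNF.Cover

set_option autoImplicit false

/-! M9. Sets of algebraic numbers without small heights; the finite set of relations. -/

namespace Pool.Agent.MinHt

open NumberField Height Real Module Pool.Agent.CITNF Pool.Agent.CITLines Pool.Agent.CITTrans

/-- Technical form of the Bogomolov property of a set `S` of algebraic numbers: the heights of the
monomials in `x_i, 1-x_i, x_j` are bounded below unless they are roots of unity of bounded order. -/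
def BogSet (S : Set ℂ) : Prop :=
  (∀ s ∈ S, IsAlgebraic ℚ s) ∧ ∃ c : ℝ, 0 < c ∧ ∃ w : ℕ, 0 < w ∧
    ∀ (K : Type) [Field K] [NumberField K] (φ : K →+* ℂ) (x : Fin 3 → K),
      (∀ i, x i ≠ 0 ∧ x i ≠ 1 ∧ φ (x i) ∈ S ∧ φ (1 - x i) ∈ S) →
      IntermediateField.adjoin ℚ (Set.range x) = ⊤ →
      ∀ (i j : Fin 3) (a b e : ℤ), (x i ^ a * (1 - x i) ^ b * x j ^ e) ^ w = 1 ∨
        c * finrank ℚ K ≤ logHeight₁ (x i ^ a * (1 - x i) ^ b * x j ^ e)

/-- Equivalent elements satisfy one of six relations. -/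
private theorem bog_eqv {K : Type} [Field K] {x y : K} (hx : x ≠ 0) (hx1 : x ≠ 1) (h : Eqv x y) :
    ∃ a ∈ ({![1, 0, -1, 0], ![0, 1, -1, 0], ![1, 0, 1, 0], ![0, 1, 1, 0], ![2, -2, -2, 0],
      ![-2, 2, -2, 0]} : Finset (Fin 4 → ℤ)), R x y a = 1 := by
  have h1 : (1 - x) ≠ 0 := sub_ne_zero.mpr hx1.symm
  have h2 : (x - 1) ≠ 0 := sub_ne_zero.mpr hx1
  have h3 : (x - 1) ^ 2 = (1 - x) ^ 2 := by ring
  rcases h with h | h | h | h | h | h
  · refine ⟨![1, 0, -1, 0], by simp, ?_⟩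
    simp [R, h, hx]
  · refine ⟨![0, 1, -1, 0], by simp, ?_⟩
    simp [R, h, h1]
  · refine ⟨![1, 0, 1, 0], by simp, ?_⟩
    simp [R, h, hx]
  · refine ⟨![0, 1, 1, 0], by simp, ?_⟩
    simp [R, h, h1]
  · refine ⟨![2, -2, -2, 0], by simp, ?_⟩
    have e : x ^ (2 : ℤ) * (1 - x) ^ (-2 : ℤ) * (y ^ (-2 : ℤ) * (1 - y) ^ (0 : ℤ)) = 1 := by
      rw [h, zpow_zero, mul_one, zpow_neg, zpow_neg, zpow_ofNat, zpow_ofNat, zpow_ofNat, div_pow, h3]
      field_simp
    exact e
  · refine ⟨![-2, 2, -2, 0], by simp, ?_⟩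
    have e : x ^ (-2 : ℤ) * (1 - x) ^ (2 : ℤ) * (y ^ (-2 : ℤ) * (1 - y) ^ (0 : ℤ)) = 1 := by
      rw [h, zpow_zero, mul_one, zpow_neg, zpow_neg, zpow_ofNat, zpow_ofNat, zpow_ofNat, div_pow, h3]
      field_simp
    exact e

/-- Elimination of `1 - y`. -/
private theorem bog_elim {K : Type} [Field K] {x y : K} (hx : x ≠ 0) (hx1 : x ≠ 1) (hy : y ≠ 0)
    (hy1 : y ≠ 1) (h : Rel2 x y) : ∃ m : Fin 3 → ℤ, m ≠ 0 ∧
      x ^ m 0 * (1 - x) ^ m 1 * y ^ m 2 = 1 := by
  have key : ∀ u : Fin 4 → ℤ, u ≠ 0 → u 3 = 0 → R x y u = 1 → ∃ m : Fin 3 → ℤ, m ≠ 0 ∧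
      x ^ m 0 * (1 - x) ^ m 1 * y ^ m 2 = 1 := by
    intro u hu hu3 hR
    refine ⟨![u 0, u 1, u 2], ?_, ?_⟩
    · intro h0
      apply hu
      have e0 := congrFun h0 0
      have e1 := congrFun h0 1
      have e2 := congrFun h0 2
      simp only [Matrix.cons_val_zero, Matrix.cons_val_one, Matrix.cons_val, Pi.zero_apply]
        at e0 e1 e2
      funext i
      fin_cases i
      · exact e0
      · exact e1
      · exact e2
      · exact hu3
    · unfold R at hR
      rw [hu3, zpow_zero, mul_one] at hR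
      exact hR
  obtain ⟨a, b, hind, ha, hb⟩ := h
  by_cases h3 : a 3 = 0 ∧ b 3 = 0
  · refine key a ?_ h3.1 ha
    rintro rfl
    have := (hind 1 0 (by simp)).1
    exact one_ne_zero this
  · refine key (b 3 • a + (-a 3) • b) ?_ ?_ ?_
    · intro h0
      have := hind _ _ h0
      exact h3 ⟨neg_eq_zero.1 this.2, this.1⟩
    · simp only [Pi.add_apply, Pi.smul_apply, smul_eq_mul]
      ring
    · rw [R_comb hx hx1 hy hy1, ha, hb, one_zpow, one_zpow, one_mul]

/-- The finite set of relations. -/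
private noncomputable def bogE (w Q : ℕ) : Finset (Fin 4 → ℤ) :=
  {![1, 0, -1, 0], ![0, 1, -1, 0], ![1, 0, 1, 0], ![0, 1, 1, 0], ![2, -2, -2, 0],
      ![-2, 2, -2, 0]} ∪
    ((Fintype.piFinset fun _ : Fin 3 => Finset.Icc (-((Q : ℤ) ^ 3 + 1)) ((Q : ℤ) ^ 3 + 1)).filter
      (fun a => a ≠ 0)).image (fun a => ![a 0 * w, a 1 * w, a 2 * w, 0])

private theorem bogE_zero {w Q : ℕ} (hw : 0 < w) : (0 : Fin 4 → ℤ) ∉ bogE w Q := by
  intro h
  unfold bogE at h
  rw [Finset.mem_union] at h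
  rcases h with h | h
  · simp only [Finset.mem_insert, Finset.mem_singleton] at h
    rcases h with h | h | h | h | h | h
    · exact absurd (congrFun h 0) (by simp)
    · exact absurd (congrFun h 1) (by simp)
    · exact absurd (congrFun h 0) (by simp)
    · exact absurd (congrFun h 1) (by simp)
    · exact absurd (congrFun h 0) (by simp)
    · exact absurd (congrFun h 1) (by simp)
  · rw [Finset.mem_image] at h
    obtain ⟨a, ha, h0⟩ := h
    rw [Finset.mem_filter] at ha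
    apply ha.2
    have hw' : (w : ℤ) ≠ 0 := by exact_mod_cast hw.ne'
    have e0 := congrFun h0 0
    have e1 := congrFun h0 1
    have e2 := congrFun h0 2
    simp only [Matrix.cons_val_zero, Matrix.cons_val_one, Matrix.cons_val, Pi.zero_apply]
      at e0 e1 e2
    funext i
    fin_cases i
    · exact (mul_eq_zero.1 e0).resolve_right hw'
    · exact (mul_eq_zero.1 e1).resolve_right hw'
    · exact (mul_eq_zero.1 e2).resolve_right hw'

/-- In a number field: three elements, pairwise of total rank at most two, no two equivalent. Two of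
them, `x i` and `x j`, have height at most `H [K:ℚ]` (`min_height`), eliminate `1 - x j` from the two
relations, and use `small_relation` with `Q` so large that `(1/Q)(3H + log 2) < c`. -/
theorem bog_relation (S : Set ℂ) (hS : BogSet S) : ∃ E : Finset (Fin 4 → ℤ), 0 ∉ E ∧
    ∀ (K : Type) [Field K] [NumberField K] (φ : K →+* ℂ) (x : Fin 3 → K),
      (∀ i, x i ≠ 0 ∧ x i ≠ 1 ∧ φ (x i) ∈ S ∧ φ (1 - x i) ∈ S) →
      IntermediateField.adjoin ℚ (Set.range x) = ⊤ →
      (∀ i j, i ≠ j → Rel2 (x i) (x j)) →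
      ∃ i j : Fin 3, i ≠ j ∧ ∃ a ∈ E, R (x i) (x j) a = 1 := by
  obtain ⟨-, c, hc, w, hw, hS⟩ := hS
  obtain ⟨H, hH, hmin⟩ := min_height
  have hl2 : 0 < log 2 := Real.log_pos (by norm_num)
  obtain ⟨Q, hQ⟩ := exists_nat_gt (max 2 ((3 * H + log 2) / c))
  have hQ2' : (2 : ℝ) < Q := (le_max_left _ _).trans_lt hQ
  have hQ2 : 2 ≤ Q := by
    have : (2 : ℝ) ≤ Q := hQ2'.le
    exact_mod_cast this
  have hQc : (3 * H + log 2) / c < Q := (le_max_right _ _).trans_lt hQ
  refine ⟨bogE w Q, bogE_zero hw, ?_⟩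
  intro K _ _ φ x hx hgen hrel
  have hd : (0 : ℝ) < finrank ℚ K := by exact_mod_cast finrank_pos
  by_cases he : ∃ i j, i ≠ j ∧ Eqv (x i) (x j)
  · obtain ⟨i, j, hij, he⟩ := he
    obtain ⟨a, ha, hR⟩ := bog_eqv (hx i).1 (hx i).2.1 he
    exact ⟨i, j, hij, a, Finset.mem_union_left _ ha, hR⟩
  · push Not at he
    have hpair : ∀ i j, i ≠ j → logHeight₁ (x i) ≤ H * finrank ℚ K ∨
        logHeight₁ (x j) ≤ H * finrank ℚ K := by
      intro i j hij
      have := hmin K (x i) (x j) (hx i).1 (hx i).2.1 (hx j).1 (hx j).2.1 (hrel i j hij)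
        (he i j hij)
      rcases min_le_iff.1 this with h | h
      · exact Or.inl h
      · exact Or.inr h
    obtain ⟨i, j, hij, hi, hj⟩ : ∃ i j, i ≠ j ∧ logHeight₁ (x i) ≤ H * finrank ℚ K ∧
        logHeight₁ (x j) ≤ H * finrank ℚ K := by
      by_cases h0 : logHeight₁ (x 0) ≤ H * finrank ℚ K
      · rcases hpair 1 2 (by decide) with h | h
        · exact ⟨0, 1, by decide, h0, h⟩
        · exact ⟨0, 2, by decide, h0, h⟩
      · exact ⟨1, 2, by decide, (hpair 0 1 (by decide)).resolve_left h0,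
          (hpair 0 2 (by decide)).resolve_left h0⟩
    obtain ⟨m, hm, hm1⟩ := bog_elim (hx i).1 (hx i).2.1 (hx j).1 (hx j).2.1 (hrel i j hij)
    have h1x : (1 - x i) ≠ 0 := sub_ne_zero.2 (Ne.symm (hx i).2.1)
    obtain ⟨a, ha0, haQ, hah⟩ := small_relation ![x i, 1 - x i, x j] (by
      intro l
      fin_cases l
      · exact (hx i).1
      · exact h1x
      · exact (hx j).1) m hm (by
      rw [Fin.prod_univ_three]
      exact hm1) Q hQ2
    rw [Fin.prod_univ_three, Fin.sum_univ_three] at hah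
    simp only [Matrix.cons_val_zero, Matrix.cons_val_one, Matrix.cons_val] at hah
    have hone := height_one_sub_le (x i)
    have hlt : logHeight₁ (x i ^ a 0 * (1 - x i) ^ a 1 * x j ^ a 2) < c * finrank ℚ K := by
      have hQ0 : (0 : ℝ) < Q := by linarith
      have e1 : logHeight₁ (x i) + logHeight₁ (1 - x i) + logHeight₁ (x j) ≤
          (3 * H + log 2) * finrank ℚ K := by nlinarith
      have e2 : 1 / (Q : ℝ) * (logHeight₁ (x i) + logHeight₁ (1 - x i) + logHeight₁ (x j)) ≤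
          1 / (Q : ℝ) * ((3 * H + log 2) * finrank ℚ K) :=
        mul_le_mul_of_nonneg_left e1 (by positivity)
      have e3 : 1 / (Q : ℝ) * (3 * H + log 2) < c := by
        rw [div_lt_iff₀ hc] at hQc
        rw [one_div, inv_mul_lt_iff₀ hQ0]
        exact hQc
      have e4 : 1 / (Q : ℝ) * ((3 * H + log 2) * finrank ℚ K) < c * finrank ℚ K := by
        rw [← mul_assoc]
        exact mul_lt_mul_of_pos_right e3 hd
      linarith
    rcases hS K φ x hx hgen i j (a 0) (a 1) (a 2) with h | h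
    · refine ⟨i, j, hij, ![a 0 * w, a 1 * w, a 2 * w, 0], ?_, ?_⟩
      · refine Finset.mem_union_right _ (Finset.mem_image.2 ⟨a, ?_, rfl⟩)
        rw [Finset.mem_filter, Fintype.mem_piFinset]
        refine ⟨fun l => ?_, ha0⟩
        rw [Finset.mem_Icc]
        exact abs_le.1 (haQ l)
      · have e : x i ^ (a 0 * w) * (1 - x i) ^ (a 1 * w) * (x j ^ (a 2 * w) *
            (1 - x j) ^ (0 : ℤ)) = 1 := by
          rw [zpow_zero, mul_one, zpow_mul, zpow_mul, zpow_mul, zpow_natCast, zpow_natCast,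
            zpow_natCast, ← mul_pow, ← mul_pow]
          exact h
        exact e
    · exact absurd h (not_le.2 hlt)

end Pool.Agent.MinHt
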