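import Pool.Agent.MinHt.North
import Pool.Agent.MinHt.Deg

set_option autoImplicit false

/-! M14. Assembly. -/

namespace Pool.Agent.MinHt

open NumberField Height Real Module Pool.Agent.CITNF Pool.Agent.CITLines Pool.Agent.CITTrans

theorem main :
    (∃ H : ℝ, ∀ (K : Type) [Field K] [NumberField K] (x y : K),
      x ≠ 0 → x ≠ 1 → y ≠ 0 → y ≠ 1 → Rel2 x y → ¬ Eqv x y →
      min (logHeight₁ x) (logHeight₁ y) ≤ H * finrank ℚ K) ∧
    (∀ G : Subgroup ℂˣ, BogomolovGroup G →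
      (∀ r : ℕ, 3 ≤ r → Covered r {z | ∃ g ∈ G, (g : ℂ) = z}) ∧
      AtypicalCovered {z | ∃ g ∈ G, (g : ℂ) = z}) ∧
    ((∀ r : ℕ, 3 ≤ r → Covered r TotallyRealNumbers) ∧ AtypicalCovered TotallyRealNumbers) ∧
    (∀ d : ℕ,
      (∀ r : ℕ, 3 ≤ r → Covered r {z : ℂ | IsAlgebraic ℚ z ∧ (minpoly ℚ z).natDegree ≤ d}) ∧
      AtypicalCovered {z : ℂ | IsAlgebraic ℚ z ∧ (minpoly ℚ z).natDegree ≤ d}) ∧
    (∀ G : Subgroup ℂˣ, NorthcottGroup G →
      ∀ r : ℕ, 2 ≤ r → Covered r {z | ∃ g ∈ G, (g : ℂ) = z}) ∧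
    (∀ (K : Type) [Field K] [NumberField K] (φ : K →+* ℂ),
      ∀ r : ℕ, 2 ≤ r → Covered r (Set.range φ)) := by
  have key : ∀ S : Set ℂ, BogSet S → (∀ r : ℕ, 3 ≤ r → Covered r S) ∧ AtypicalCovered S :=
    fun S hS => ⟨fun r hr => covered_of_bog S hS r hr,
      atypical_of_covered S (covered_of_bog S hS 3 le_rfl)⟩
  refine ⟨?_, fun G hG => key _ (bogSet_group G hG), key _ bogSet_totallyReal,
    fun d => key _ (bogSet_degree d), fun G hG r hr => covered_of_northcott G hG r hr,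
    fun K _ _ φ r hr => Pool.Agent.CITNF.main K φ r hr⟩
  obtain ⟨H, -, h⟩ := min_height
  exact ⟨H, h⟩

end Pool.Agent.MinHt
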