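import Pool.Agent.MinHt.ThmA
import Pool.Agent.CITLines.Final
import Pool.Agent.CITNF.Cover

set_option autoImplicit false

/-! The points of rank at most two of the moduli space of five points on a line
`{(x, 1 - x, y, 1 - y, x - y)}`: their heights are absolutely bounded. -/

namespace Pool.Agent.MinHt

open NumberField Height Real Module Pool.Agent.CITNF Pool.Agent.CITLines Pool.Agent.CITTrans

section RankTwo

variable {K : Type} [Field K]

/-- The numbers `z i` generate a group of rank at most two. -/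
def RankTwo {n : ℕ} (z : Fin n → K) : Prop :=
  ∃ U : Submodule ℚ (Fin n → ℚ), n ≤ finrank ℚ U + 2 ∧
    ∀ a : Fin n → ℤ, (fun i => (a i : ℚ)) ∈ U → ∃ m : ℕ, 0 < m ∧ (∏ i, z i ^ a i) ^ m = 1

private theorem m05_comap {m n : ℕ} (f : (Fin m → ℚ) →ₗ[ℚ] (Fin n → ℚ))
    (U : Submodule ℚ (Fin n → ℚ)) (hU : n ≤ finrank ℚ U + 2) :
    m ≤ finrank ℚ (U.comap f) + 2 := by
  have h1 : U.comap f = LinearMap.ker (U.mkQ ∘ₗ f) := by
    ext v
    simp
  have h2 := LinearMap.finrank_range_add_finrank_ker (U.mkQ ∘ₗ f)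
  have h3 : finrank ℚ (LinearMap.range (U.mkQ ∘ₗ f)) ≤ finrank ℚ ((Fin n → ℚ) ⧸ U) :=
    Submodule.finrank_le _
  have h4 := Submodule.finrank_quotient_add_finrank U
  rw [Module.finrank_fin_fun] at h2 h4
  rw [h1]
  omega

theorem RankTwo.trans {n m : ℕ} {z : Fin n → K} {z' : Fin m → K} (h : RankTwo z)
    (hz : ∀ i, z i ≠ 0) (M : Fin m → Fin n → ℤ)
    (hM : ∀ j, z' j ^ 2 = (∏ i, z i ^ M j i) ^ 2) : RankTwo z' := by
  classical
  obtain ⟨U, hU, hU2⟩ := h
  set f : (Fin m → ℚ) →ₗ[ℚ] (Fin n → ℚ) :=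
    Fintype.linearCombination ℚ (fun j => (fun i => (M j i : ℚ))) with hf
  refine ⟨U.comap f, m05_comap f U hU, ?_⟩
  intro a ha
  rw [Submodule.mem_comap] at ha
  have h1 : f (fun j => (a j : ℚ)) = fun i => ((∑ j, a j * M j i : ℤ) : ℚ) := by
    funext i
    rw [hf, Fintype.linearCombination_apply]
    simp [Finset.sum_apply]
  rw [h1] at ha
  obtain ⟨k, hk, hk2⟩ := hU2 _ ha
  refine ⟨2 * k, by omega, ?_⟩
  have h2 : ∏ i, z i ^ (∑ j, a j * M j i) = ∏ j, (∏ i, z i ^ M j i) ^ a j := by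
    have e1 : ∀ i, z i ^ (∑ j, a j * M j i) = ∏ j, z i ^ (a j * M j i) := fun i =>
      (prod_zpow_sum (z i) (hz i) Finset.univ fun j => a j * M j i).symm
    simp only [e1]
    rw [Finset.prod_comm]
    refine Finset.prod_congr rfl fun j _ => ?_
    rw [← Finset.prod_zpow]
    refine Finset.prod_congr rfl fun i _ => ?_
    rw [mul_comm, zpow_mul]
  rw [h2] at hk2
  have h3 : (∏ j, z' j ^ a j) ^ 2 = (∏ j, (∏ i, z i ^ M j i) ^ a j) ^ 2 := by
    rw [← Finset.prod_pow, ← Finset.prod_pow]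
    refine Finset.prod_congr rfl fun j _ => ?_
    rw [← zpow_natCast, ← zpow_mul, mul_comm, zpow_mul, zpow_natCast, hM j, ← zpow_natCast,
      ← zpow_mul, mul_comm, zpow_mul, zpow_natCast]
  rw [pow_mul, h3, ← pow_mul, mul_comm, pow_mul, hk2, one_pow]

private theorem m05_clear {n : ℕ} (v : Fin n → ℚ) :
    ∃ k : ℤ, k ≠ 0 ∧ ∃ a : Fin n → ℤ, ∀ i, (a i : ℚ) = k * v i := by
  refine ⟨∏ i, ((v i).den : ℤ), Finset.prod_ne_zero_iff.2 fun i _ => by
    exact_mod_cast (v i).den_nz, fun i => (∏ j ∈ Finset.univ.erase i, ((v j).den : ℤ)) * (v i).num,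
    fun i => ?_⟩
  rw [← Finset.mul_prod_erase Finset.univ (fun j => ((v j).den : ℤ)) (Finset.mem_univ i)]
  push_cast
  have h := Rat.mul_den_eq_num (v i)
  rw [← h]
  ring

theorem RankTwo.rel {x y : K} (h : RankTwo ![x, 1 - x, y, 1 - y]) : Rel2 x y := by
  obtain ⟨U, hU, hU2⟩ := h
  have h2 : 2 ≤ finrank ℚ U := by omega
  let b := Module.finBasis ℚ U
  let i0 : Fin (finrank ℚ U) := ⟨0, by omega⟩
  let i1 : Fin (finrank ℚ U) := ⟨1, by omega⟩
  have h01 : i0 ≠ i1 := by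
    intro h
    have := congrArg Fin.val h
    simp [i0, i1] at this
  obtain ⟨k, hk, a, ha⟩ := m05_clear (b i0).1
  obtain ⟨l, hl, c, hc⟩ := m05_clear (b i1).1
  have haU : (fun i => (a i : ℚ)) ∈ U := by
    have : (fun i => (a i : ℚ)) = (k : ℚ) • (b i0).1 := by
      funext i
      rw [ha i]
      rfl
    rw [this]
    exact U.smul_mem _ (b i0).2
  have hcU : (fun i => (c i : ℚ)) ∈ U := by
    have : (fun i => (c i : ℚ)) = (l : ℚ) • (b i1).1 := by
      funext i
      rw [hc i]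
      rfl
    rw [this]
    exact U.smul_mem _ (b i1).2
  obtain ⟨m1, hm1, h3⟩ := hU2 a haU
  obtain ⟨m2, hm2, h4⟩ := hU2 c hcU
  have hR : ∀ (e : Fin 4 → ℤ) (m : ℕ), (∏ i, (![x, 1 - x, y, 1 - y] : Fin 4 → K) i ^ e i) ^ m = 1 →
      R x y ((m : ℤ) • e) = 1 := by
    intro e m hm
    rw [R_smul, zpow_natCast, ← hm, Fin.prod_univ_four]
    simp only [R, Matrix.cons_val_zero, Matrix.cons_val_one, Matrix.cons_val]
    ring
  refine ⟨(m1 : ℤ) • a, (m2 : ℤ) • c, ?_, hR a m1 h3, hR c m2 h4⟩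
  intro s t hst
  have hli := b.linearIndependent
  have h5 : ((s * m1 * k : ℤ) : ℚ) • b i0 + ((t * m2 * l : ℤ) : ℚ) • b i1 = 0 := by
    apply Subtype.ext
    funext i
    have h6 := congrFun hst i
    simp only [Pi.add_apply, Pi.smul_apply, smul_eq_mul, Pi.zero_apply] at h6
    have h7 : ((s * (m1 * a i) + t * (m2 * c i) : ℤ) : ℚ) = 0 := by
      rw [h6]
      rfl
    push_cast at h7
    rw [ha i, hc i] at h7
    change ((s * m1 * k : ℤ) : ℚ) * (b i0).1 i + ((t * m2 * l : ℤ) : ℚ) * (b i1).1 i = 0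
    push_cast
    linarith
  have hinj : Function.Injective ![i0, i1] := by
    intro p q hpq
    fin_cases p <;> fin_cases q
    · rfl
    · exact absurd hpq h01
    · exact absurd hpq.symm h01
    · rfl
  have h6 := hli.comp ![i0, i1] hinj
  have h7 : (b ∘ ![i0, i1]) = ![b i0, b i1] := by
    funext q
    fin_cases q <;> rfl
  rw [h7] at h6
  obtain ⟨h8, h9⟩ := LinearIndependent.pair_iff.mp h6 _ _ h5
  constructor
  · have h10 : s * m1 * k = 0 := by exact_mod_cast h8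
    rcases mul_eq_zero.1 h10 with h11 | h11
    · rcases mul_eq_zero.1 h11 with h12 | h12
      · exact h12
      · exact absurd h12 (by exact_mod_cast hm1.ne')
    · exact absurd h11 hk
  · have h10 : t * m2 * l = 0 := by exact_mod_cast h9
    rcases mul_eq_zero.1 h10 with h11 | h11
    · rcases mul_eq_zero.1 h11 with h12 | h12
      · exact h12
      · exact absurd h12 (by exact_mod_cast hm2.ne')
    · exact absurd h11 hl

theorem RankTwo.of_map {F : Type} [Field F] {n : ℕ} (φ : K →+* F) {z : Fin n → K}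
    (h : RankTwo fun i => φ (z i)) : RankTwo z := by
  obtain ⟨U, hU, hU2⟩ := h
  refine ⟨U, hU, fun a ha => ?_⟩
  obtain ⟨m, hm, h1⟩ := hU2 a ha
  refine ⟨m, hm, φ.injective ?_⟩
  rw [map_pow, map_prod, map_one, ← h1]
  simp only [map_zpow₀]

/-- Points of torsion cosets of dimension at most two. -/
theorem RankTwo.of_coset {n : ℕ} {T : Set (Fin n → ℂ)} (hT : IsTorsionCoset T)
    (hdim : ringKrullDim (MvPolynomial (Fin n) ℂ ⧸ vanI T) ≤ 2) {P : Fin n → ℂ} (hP : P ∈ T) :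
    RankTwo P := by
  obtain ⟨M, η, hsat, hη, rfl⟩ := hT
  obtain ⟨k, hk, hkd⟩ := dim_cos M η hη
  change ringKrullDim (MvPolynomial (Fin n) ℂ ⧸ vanI (cos M η)) ≤ 2 at hdim
  rw [hkd] at hdim
  have hk2 : k ≤ 2 := by exact_mod_cast hdim
  refine ⟨QS M, by omega, fun a ha => ?_⟩
  obtain ⟨l, hl, c, hcM, hc⟩ := exists_mult_mem ha
  obtain ⟨m, hm, hηm⟩ := hη
  have h1 : (∏ i, P i ^ c i) ^ m = 1 := by
    rw [hP.2 c hcM, ← Finset.prod_pow]
    refine Finset.prod_eq_one fun i _ => ?_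
    rw [← zpow_natCast, ← zpow_mul, mul_comm, zpow_mul, zpow_natCast, hηm, one_zpow]
  have h2 : ∏ i, P i ^ c i = (∏ i, P i ^ a i) ^ l := by
    rw [← Finset.prod_zpow]
    refine Finset.prod_congr rfl fun i _ => ?_
    have : c i = a i * l := by
      have := hc i
      have h3 : (c i : ℚ) = ((a i * l : ℤ) : ℚ) := by rw [this]; push_cast; ring
      exact_mod_cast h3
    rw [this, zpow_mul]
  rw [h2] at h1
  refine ⟨l.natAbs * m, Nat.mul_pos (Int.natAbs_pos.2 hl) hm, ?_⟩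
  rcases Int.natAbs_eq l with h | h
  · rw [h, zpow_natCast] at h1
    rw [pow_mul]
    simpa using h1
  · rw [h, zpow_neg, zpow_natCast, inv_pow, inv_eq_one] at h1
    rw [pow_mul]
    simpa using h1

end RankTwo

section Heights

variable {K : Type} [Field K] [NumberField K]

private theorem m05_two : logHeight₁ (2 : K) ≤ finrank ℚ K * log 2 := by
  have h := cn6_one_add_le (1 : K)
  rw [logHeight₁_one, add_zero] at h
  have e : (1 : K) + 1 = 2 := by norm_num
  rwa [e] at h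

/-- the degree of `x (1 - x)` is two -/
private theorem m05_quad (x : K) :
    2 * logHeight₁ x ≤ logHeight₁ (x * (1 - x)) + 7 * (finrank ℚ K * log 2) := by
  have h2 := m05_two (K := K)
  have h1 : logHeight₁ ((1 - 2 * x) ^ 2) ≤
      logHeight₁ (x * (1 - x)) + 3 * (finrank ℚ K * log 2) := by
    have e : (1 - 2 * x) ^ 2 = 1 - 2 ^ 2 * (x * (1 - x)) := by ring
    rw [e]
    have h3 := height_one_sub_le (2 ^ 2 * (x * (1 - x)))
    have h4 := logHeight₁_mul_le ((2 : K) ^ 2) (x * (1 - x))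
    rw [logHeight₁_pow] at h4
    push_cast at h4
    linarith
  rw [logHeight₁_pow] at h1
  push_cast at h1
  have h5 : logHeight₁ x ≤ logHeight₁ (1 - 2 * x) + 2 * (finrank ℚ K * log 2) := by
    have e : x = 2⁻¹ * (2 * x) := by field_simp
    have h6 := logHeight₁_mul_le (2 : K)⁻¹ (2 * x)
    rw [← e, logHeight₁_inv] at h6
    have h7 := height_le_one_sub (2 * x)
    linarith
  linarith

private theorem m05_eqv {x z : K} (h : Eqv x z) :
    logHeight₁ z ≤ logHeight₁ x + finrank ℚ K * log 2 := by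
  have h0 : 0 ≤ finrank ℚ K * log 2 := mul_nonneg (Nat.cast_nonneg _) (log_nonneg (by norm_num))
  have h1 := height_one_sub_le x
  have h2 := height_one_sub_le x⁻¹
  rw [logHeight₁_inv] at h2
  rcases h with h | h | h | h | h | h
  · rw [h]; linarith
  · rw [h]; exact h1
  · rw [h, logHeight₁_inv]; linarith
  · rw [h, logHeight₁_inv]; exact h1
  · rcases eq_or_ne x 0 with hx | hx
    · rw [h, hx, zero_div]; linarith [zero_le_logHeight₁ (0 : K)]
    rcases eq_or_ne x 1 with hx1 | hx1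
    · rw [h, hx1, sub_self, div_zero, logHeight₁_zero]
      linarith [zero_le_logHeight₁ (1 : K)]
    have e : x / (x - 1) = (1 - x⁻¹)⁻¹ := by
      have : x - 1 ≠ 0 := sub_ne_zero.2 hx1
      have h3 : 1 - x⁻¹ = (x - 1) / x := by field_simp
      rw [h3, inv_div]
    rw [h, e, logHeight₁_inv]
    exact h2
  · rcases eq_or_ne x 0 with hx | hx
    · rw [h, hx, div_zero]; linarith [zero_le_logHeight₁ (0 : K)]
    have e : (x - 1) / x = 1 - x⁻¹ := by field_simp
    rw [h, e]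
    exact h2

end Heights

/-- The points `(x, y)` of rank at most two. -/
structure GP {K : Type} [Field K] (x y : K) : Prop where
  x0 : x ≠ 0
  x1 : x ≠ 1
  y0 : y ≠ 0
  y1 : y ≠ 1
  ne : x ≠ y
  rk : RankTwo ![x, 1 - x, y, 1 - y, x - y]

namespace GP

variable {K : Type} [Field K] {x y : K}

theorem hz (h : GP x y) : ∀ i, (![x, 1 - x, y, 1 - y, x - y] : Fin 5 → K) i ≠ 0 := by
  intro i
  have h1 : (1 - x) ≠ 0 := sub_ne_zero.mpr h.x1.symm
  have h2 : (1 - y) ≠ 0 := sub_ne_zero.mpr h.y1.symm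
  have h3 : (x - y) ≠ 0 := sub_ne_zero.mpr h.ne
  fin_cases i
  · exact h.x0
  · exact h1
  · exact h.y0
  · exact h2
  · exact h3

/-- the group of `(x, y)` contains `z` and `1 - z` -/
theorem rel_of (h : GP x y) {u w u' w' : K} (M : Fin 4 → Fin 5 → ℤ)
    (h0 : u ^ 2 = (∏ i, (![x, 1 - x, y, 1 - y, x - y] : Fin 5 → K) i ^ M 0 i) ^ 2)
    (h1 : u' ^ 2 = (∏ i, (![x, 1 - x, y, 1 - y, x - y] : Fin 5 → K) i ^ M 1 i) ^ 2)
    (h2 : w ^ 2 = (∏ i, (![x, 1 - x, y, 1 - y, x - y] : Fin 5 → K) i ^ M 2 i) ^ 2)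
    (h3 : w' ^ 2 = (∏ i, (![x, 1 - x, y, 1 - y, x - y] : Fin 5 → K) i ^ M 3 i) ^ 2)
    (hu : u' = 1 - u) (hw : w' = 1 - w) : Rel2 u w := by
  subst hu hw
  apply RankTwo.rel
  refine h.rk.trans h.hz M fun j => ?_
  fin_cases j
  · exact h0
  · exact h1
  · exact h2
  · exact h3

theorem rel (h : GP x y) : Rel2 x y := by
  refine h.rel_of (u' := 1 - x) (w' := 1 - y)
    ![![1, 0, 0, 0, 0], ![0, 1, 0, 0, 0], ![0, 0, 1, 0, 0], ![0, 0, 0, 1, 0]] ?_ ?_ ?_ ?_ rfl rfl <;>
  simp [Fin.prod_univ_five]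

theorem swap (h : GP x y) : GP y x := by
  refine ⟨h.y0, h.y1, h.x0, h.x1, h.ne.symm, ?_⟩
  refine h.rk.trans h.hz ![![0, 0, 1, 0, 0], ![0, 0, 0, 1, 0], ![1, 0, 0, 0, 0], ![0, 1, 0, 0, 0],
    ![0, 0, 0, 0, 1]] fun j => ?_
  fin_cases j
  all_goals simp [Fin.prod_univ_five]
  ring

theorem quot (h : GP x y) : GP x (x / y) := by
  have h1 : (1 - x) ≠ 0 := sub_ne_zero.mpr h.x1.symm
  have h2 : (1 - y) ≠ 0 := sub_ne_zero.mpr h.y1.symm
  have h3 : (x - y) ≠ 0 := sub_ne_zero.mpr h.ne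
  have hx := h.x0
  have hy := h.y0
  refine ⟨h.x0, h.x1, div_ne_zero h.x0 h.y0, ?_, ?_, ?_⟩
  · intro h4
    rw [div_eq_one_iff_eq h.y0] at h4
    exact h.ne h4
  · intro h4
    have h5 : x * y = x := by
      rw [eq_div_iff h.y0] at h4
      exact h4
    exact h.y1 (mul_left_cancel₀ h.x0 (by rw [h5, mul_one]))
  · refine h.rk.trans h.hz ![![1, 0, 0, 0, 0], ![0, 1, 0, 0, 0], ![1, 0, -1, 0, 0],
      ![0, 0, -1, 0, 1], ![1, 0, -1, 1, 0]] fun j => ?_
    fin_cases j
    · simp [Fin.prod_univ_five]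
    · simp [Fin.prod_univ_five]
    · simp [Fin.prod_univ_five]
      field_simp
    · simp [Fin.prod_univ_five]
      field_simp
      ring
    · simp [Fin.prod_univ_five]
      field_simp
      ring

/-- the cross-ratio `(1 - x) / (1 - y)` -/
theorem rel4 (h : GP x y) : Rel2 x ((1 - x) / (1 - y)) := by
  have h1 : (1 - x) ≠ 0 := sub_ne_zero.mpr h.x1.symm
  have h2 : (1 - y) ≠ 0 := sub_ne_zero.mpr h.y1.symm
  have h3 : (x - y) ≠ 0 := sub_ne_zero.mpr h.ne
  refine h.rel_of (u' := 1 - x) (w' := (x - y) / (1 - y))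
    ![![1, 0, 0, 0, 0], ![0, 1, 0, 0, 0], ![0, 1, 0, -1, 0], ![0, 0, 0, -1, 1]] ?_ ?_ ?_ ?_ rfl ?_
  · simp [Fin.prod_univ_five]
  · simp [Fin.prod_univ_five]
  · simp [Fin.prod_univ_five]
    field_simp
  · simp [Fin.prod_univ_five]
    field_simp
  · field_simp
    ring

/-- the cross-ratio `x (1 - y) / (y (1 - x))` -/
theorem rel5 (h : GP x y) : Rel2 x (x * (1 - y) / (y * (1 - x))) := by
  have h1 : (1 - x) ≠ 0 := sub_ne_zero.mpr h.x1.symm
  have h2 : (1 - y) ≠ 0 := sub_ne_zero.mpr h.y1.symm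
  have h3 : (x - y) ≠ 0 := sub_ne_zero.mpr h.ne
  have hx := h.x0
  have hy := h.y0
  refine h.rel_of (u' := 1 - x) (w' := (y - x) / (y * (1 - x)))
    ![![1, 0, 0, 0, 0], ![0, 1, 0, 0, 0], ![1, -1, -1, 1, 0], ![0, -1, -1, 0, 1]] ?_ ?_ ?_ ?_ rfl ?_
  · simp [Fin.prod_univ_five]
  · simp [Fin.prod_univ_five]
  · simp [Fin.prod_univ_five]
    field_simp
  · simp [Fin.prod_univ_five]
    field_simp
    ring
  · field_simp
    ring

end GP

section Main

private theorem m05_pair : ∃ H : ℝ, 0 < H ∧ ∀ (K : Type) [Field K] [NumberField K] (x z : K),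
    x ≠ 0 → x ≠ 1 → z ≠ 0 → z ≠ 1 → Rel2 x z →
    2 * logHeight₁ x ≤ logHeight₁ z + 7 * (finrank ℚ K * log 2) →
    logHeight₁ x ≤ H * finrank ℚ K := by
  obtain ⟨H, hH, h⟩ := min_height
  refine ⟨H + 8, by linarith, ?_⟩
  intro K _ _ x z hx hx1 hz hz1 hrel hdeg
  have hN : (0 : ℝ) ≤ finrank ℚ K := Nat.cast_nonneg _
  have hl : log 2 ≤ 1 := by linarith [Real.log_two_lt_d9]
  have hl0 : 0 ≤ log 2 := log_nonneg (by norm_num)
  have hNl : finrank ℚ K * log 2 ≤ finrank ℚ K := by nlinarith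
  have hHN : 0 ≤ H * (finrank ℚ K : ℝ) := mul_nonneg hH.le hN
  by_cases he : Eqv x z
  · have h1 := m05_eqv he
    nlinarith
  · have h1 := h K x z hx hx1 hz hz1 hrel he
    rcases min_le_iff.1 h1 with h2 | h2
    · nlinarith
    · nlinarith [zero_le_logHeight₁ x]

/-- If `y` is in the orbit of `x`. -/
private theorem m05_orbit : ∃ H : ℝ, 0 < H ∧ ∀ (K : Type) [Field K] [NumberField K] (x y : K),
    GP x y → Eqv x y → logHeight₁ x ≤ H * finrank ℚ K := by
  obtain ⟨H, hH, hp⟩ := m05_pair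
  refine ⟨H, hH, ?_⟩
  intro K _ _ x y h he
  have h1 : (1 - x) ≠ 0 := sub_ne_zero.mpr h.x1.symm
  have h1' : (x - 1) ≠ 0 := sub_ne_zero.mpr h.x1
  have h2 : (1 - y) ≠ 0 := sub_ne_zero.mpr h.y1.symm
  have h3 : (x - y) ≠ 0 := sub_ne_zero.mpr h.ne
  have hx := h.x0
  have hy := h.y0
  have hl0 : 0 ≤ finrank ℚ K * log 2 := mul_nonneg (Nat.cast_nonneg _) (log_nonneg (by norm_num))
  have hq := h.quot
  rcases he with he | he | he | he | he | he
  · exact absurd he.symm h.ne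
  · -- `y = 1 - x`
    have hz : x * (1 - y) / (y * (1 - x)) = (x / (1 - x)) ^ 2 := by
      rw [he]
      field_simp
      ring
    have hz1 : x * (1 - y) / (y * (1 - x)) ≠ 1 := by
      intro h4
      rw [div_eq_one_iff_eq (mul_ne_zero hy h1)] at h4
      apply h3
      linear_combination h4
    refine hp K x _ hx h.x1 (div_ne_zero (mul_ne_zero hx h2) (mul_ne_zero hy h1)) hz1 h.rel5 ?_
    rw [hz, logHeight₁_pow]
    push_cast
    have h5 := height_le_one_sub x⁻¹
    rw [logHeight₁_inv] at h5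
    have h6 : logHeight₁ (1 - x⁻¹) = logHeight₁ (x / (1 - x)) := by
      have e : x / (1 - x) = -(1 - x⁻¹)⁻¹ := by
        have e1 : 1 - x⁻¹ = (x - 1) / x := by field_simp
        rw [e1, inv_div, ← neg_sub 1 x, div_neg, neg_neg]
      rw [e, logHeight₁_neg, logHeight₁_inv]
    rw [h6] at h5
    linarith
  · -- `y = x⁻¹`
    have hz : x / y = x ^ 2 := by
      rw [he]
      field_simp
    refine hp K x _ hx h.x1 hq.y0 hq.y1 hq.rel ?_
    rw [hz, logHeight₁_pow]
    push_cast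
    linarith
  · -- `y = (1 - x)⁻¹`
    have hz : x / y = x * (1 - x) := by
      rw [he]
      field_simp
    refine hp K x _ hx h.x1 hq.y0 hq.y1 hq.rel ?_
    rw [hz]
    exact m05_quad x
  · -- `y = x / (x - 1)`
    have hz : (1 - x) / (1 - y) = (1 - x) ^ 2 := by
      have e : 1 - y = (1 - x)⁻¹ := by
        rw [he]
        field_simp
        ring
      rw [e]
      field_simp
    have hz1 : (1 - x) / (1 - y) ≠ 1 := by
      intro h4
      rw [div_eq_one_iff_eq h2] at h4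
      apply h3
      linear_combination -h4
    refine hp K x _ hx h.x1 (div_ne_zero h1 h2) hz1 h.rel4 ?_
    rw [hz, logHeight₁_pow]
    push_cast
    have h5 := height_le_one_sub x
    linarith
  · -- `y = (x - 1) / x`
    have hz : x / y = (x⁻¹ * (1 - x⁻¹))⁻¹ := by
      rw [he]
      field_simp
    refine hp K x _ hx h.x1 hq.y0 hq.y1 hq.rel ?_
    rw [hz, logHeight₁_inv]
    have h5 := m05_quad x⁻¹
    rw [logHeight₁_inv] at h5
    exact h5

/-- **Absolute height bound for the points of rank at most two of the moduli space.** -/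
theorem m05_main : ∃ H : ℝ, 0 < H ∧ ∀ (K : Type) [Field K] [NumberField K] (x y : K),
    GP x y → logHeight₁ x ≤ H * finrank ℚ K ∧ logHeight₁ y ≤ H * finrank ℚ K := by
  obtain ⟨H, hH, hm⟩ := min_height
  obtain ⟨H', hH', ho⟩ := m05_orbit
  refine ⟨2 * H + 2 * H' + 1, by linarith, ?_⟩
  intro K _ _ x y h
  have hN : (0 : ℝ) ≤ finrank ℚ K := Nat.cast_nonneg _
  have hl : log 2 ≤ 1 := by linarith [Real.log_two_lt_d9]
  have hl0 : 0 ≤ log 2 := log_nonneg (by norm_num)
  have hNl : finrank ℚ K * log 2 ≤ finrank ℚ K := by nlinarith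
  have hHN : 0 ≤ H * (finrank ℚ K : ℝ) := mul_nonneg hH.le hN
  have hHN' : 0 ≤ H' * (finrank ℚ K : ℝ) := mul_nonneg hH'.le hN
  have hx := h.x0
  have hy := h.y0
  have e1 : logHeight₁ (y / x) = logHeight₁ (x / y) := by
    rw [← logHeight₁_inv (x / y), inv_div]
  have hxy : logHeight₁ x ≤ logHeight₁ y + logHeight₁ (x / y) := by
    have := logHeight₁_mul_le y (x / y)
    rwa [mul_div_cancel₀ _ hy] at this
  have hyx : logHeight₁ y ≤ logHeight₁ x + logHeight₁ (x / y) := by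
    have := logHeight₁_mul_le x (y / x)
    rwa [mul_div_cancel₀ _ hx, e1] at this
  have hqq : logHeight₁ (x / y) ≤ logHeight₁ x + logHeight₁ y := by
    have := logHeight₁_mul_le x y⁻¹
    rwa [logHeight₁_inv, ← div_eq_mul_inv] at this
  by_cases he1 : Eqv x y
  · have h1 := ho K x y h he1
    have h2 := m05_eqv he1
    constructor <;> nlinarith
  by_cases he2 : Eqv x (x / y)
  · have h1 := ho K x (x / y) h.quot he2
    have h2 := m05_eqv he2
    constructor <;> nlinarith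
  by_cases he3 : Eqv y (y / x)
  · have h1 := ho K y (y / x) h.swap.quot he3
    have h2 := m05_eqv he3
    constructor <;> nlinarith
  have h1 := hm K x y hx h.x1 hy h.y1 h.rel he1
  have h2 := hm K x (x / y) hx h.x1 h.quot.y0 h.quot.y1 h.quot.rel he2
  have h3 := hm K y (y / x) hy h.y1 h.swap.quot.y0 h.swap.quot.y1 h.swap.quot.rel he3
  rw [e1] at h3
  have hgoal : logHeight₁ x ≤ 2 * H * finrank ℚ K ∧ logHeight₁ y ≤ 2 * H * finrank ℚ K := by
    rcases min_le_iff.1 h1 with h4 | h4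
    · rcases min_le_iff.1 h3 with h5 | h5
      · constructor <;> nlinarith
      · constructor <;> nlinarith
    · rcases min_le_iff.1 h2 with h5 | h5
      · constructor <;> nlinarith
      · constructor <;> nlinarith
  constructor <;> nlinarith [hgoal.1, hgoal.2]

end Main

end Pool.Agent.MinHt
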