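import Pool.Agent.MinHt.M05
import Pool.Agent.MinHt.Bog

set_option autoImplicit false

/-! The surface `{(x, 1 - x, y, 1 - y, x - y)}` in the torus of dimension five (the moduli space of
five points on a line): points in torsion cosets of dimension at most two. -/

namespace Pool.Agent.MinHt

open NumberField Height Real Module Pool.Agent.CITNF Pool.Agent.CITLines Pool.Agent.CITTrans

/-- The surface `{(x, 1 - x, y, 1 - y, x - y)}` in the torus. -/
def m05 : Set (Fin 5 → ℂ) :=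
  {P | (∀ i, P i ≠ 0) ∧ P 1 = 1 - P 0 ∧ P 3 = 1 - P 2 ∧ P 4 = P 0 - P 2}

theorem m05_gp {K : Type} [Field K] (φ : K →+* ℂ) (x y : K) (P : Fin 5 → ℂ) (hx : φ x = P 0)
    (hy : φ y = P 2) {T : Set (Fin 5 → ℂ)} (hT : IsTorsionCoset T)
    (hdim : ringKrullDim (MvPolynomial (Fin 5) ℂ ⧸ vanI T) ≤ 2) (hP : P ∈ m05 ∩ T) : GP x y := by
  obtain ⟨⟨h0, h1, h3, h4⟩, hPT⟩ := hP
  have hmap : (fun i => φ ((![x, 1 - x, y, 1 - y, x - y] : Fin 5 → K) i)) = P := by
    funext i
    fin_cases i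
    · exact hx
    · change φ (1 - x) = P 1
      rw [map_sub, map_one, hx, h1]
    · exact hy
    · change φ (1 - y) = P 3
      rw [map_sub, map_one, hy, h3]
    · change φ (x - y) = P 4
      rw [map_sub, hx, hy, h4]
  refine ⟨?_, ?_, ?_, ?_, ?_, ?_⟩
  · rintro rfl
    exact h0 0 (by rw [← hx, map_zero])
  · rintro rfl
    exact h0 1 (by rw [h1, ← hx, map_one, sub_self])
  · rintro rfl
    exact h0 2 (by rw [← hy, map_zero])
  · rintro rfl
    exact h0 3 (by rw [h3, ← hy, map_one, sub_self])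
  · rintro rfl
    exact h0 4 (by rw [h4, ← hx, ← hy, sub_self])
  · apply RankTwo.of_map φ
    rw [hmap]
    exact RankTwo.of_coset hT hdim hPT

/-- **Bounded height.** All algebraic points of the surface in torsion cosets of dimension at most
two have absolutely bounded height. -/
theorem m05_height : ∃ H : ℝ, ∀ (K : Type) [Field K] [NumberField K] (φ : K →+* ℂ)
    (p : Fin 5 → K) (T : Set (Fin 5 → ℂ)), IsTorsionCoset T →
    ringKrullDim (MvPolynomial (Fin 5) ℂ ⧸ vanI T) ≤ 2 → (fun i => φ (p i)) ∈ m05 ∩ T →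
    ∀ i, logHeight₁ (p i) ≤ H * finrank ℚ K := by
  obtain ⟨H, hH, h⟩ := m05_main
  refine ⟨2 * H + 1, ?_⟩
  intro K _ _ φ p T hT hdim hp i
  have hgp : GP (p 0) (p 2) := m05_gp φ _ _ _ rfl rfl hT hdim hp
  obtain ⟨h1, h2⟩ := h K _ _ hgp
  have hN : (0 : ℝ) ≤ finrank ℚ K := Nat.cast_nonneg _
  have hl : log 2 ≤ 1 := by linarith [Real.log_two_lt_d9]
  have hl0 : 0 ≤ log 2 := log_nonneg (by norm_num)
  have hNl : finrank ℚ K * log 2 ≤ finrank ℚ K := by nlinarith
  have hHN : 0 ≤ H * (finrank ℚ K : ℝ) := mul_nonneg hH.le hN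
  obtain ⟨⟨_, e1, e3, e4⟩, _⟩ := hp
  have e1' : p 1 = 1 - p 0 := φ.injective (by rw [map_sub, map_one]; exact e1)
  have e3' : p 3 = 1 - p 2 := φ.injective (by rw [map_sub, map_one]; exact e3)
  have e4' : p 4 = p 0 - p 2 := φ.injective (by rw [map_sub]; exact e4)
  have h3 := height_one_sub_le (p 0)
  have h4 := height_one_sub_le (p 2)
  have h5 := cn6_sub_le (p 0) (p 2)
  fin_cases i
  · change logHeight₁ (p 0) ≤ _
    nlinarith
  · change logHeight₁ (p 1) ≤ _
    rw [e1']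
    nlinarith
  · change logHeight₁ (p 2) ≤ _
    nlinarith
  · change logHeight₁ (p 3) ≤ _
    rw [e3']
    nlinarith
  · change logHeight₁ (p 4) ≤ _
    rw [e4']
    nlinarith

private theorem m05_elim {K : Type} [Field K] {x y : K} (hx : x ≠ 0) (hx1 : x ≠ 1)
    (hy : y ≠ 0) (hy1 : y ≠ 1) (h : Rel2 x y) :
    ∃ m : Fin 3 → ℤ, m ≠ 0 ∧ ∏ i, (![x, 1 - x, y] : Fin 3 → K) i ^ m i = 1 := by
  obtain ⟨a, b, hind, ha, hb⟩ := h
  have key : ∀ c : Fin 4 → ℤ, c ≠ 0 → c 3 = 0 → R x y c = 1 →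
      ∃ m : Fin 3 → ℤ, m ≠ 0 ∧ ∏ i, (![x, 1 - x, y] : Fin 3 → K) i ^ m i = 1 := by
    intro c hc hc3 hR
    refine ⟨![c 0, c 1, c 2], ?_, ?_⟩
    · intro h0
      apply hc
      funext i
      fin_cases i
      · exact congrFun h0 0
      · exact congrFun h0 1
      · exact congrFun h0 2
      · exact hc3
    · refine Eq.trans ?_ hR
      rw [Fin.prod_univ_three]
      simp only [R, hc3, zpow_zero, mul_one, Matrix.cons_val_zero, Matrix.cons_val_one,
        Matrix.cons_val]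
  by_cases h3 : a 3 = 0 ∧ b 3 = 0
  · refine key a ?_ h3.1 ha
    intro h0
    have := hind 1 0 (by rw [h0]; simp)
    exact one_ne_zero this.1
  · refine key (b 3 • a + (-a 3) • b) ?_ ?_ ?_
    · intro h0
      have := hind _ _ h0
      exact h3 ⟨by simpa using this.2, this.1⟩
    · simp only [Pi.add_apply, Pi.smul_apply, smul_eq_mul]
      ring
    · rw [R_comb hx hx1 hy hy1, ha, hb, one_zpow, one_zpow, one_mul]

private theorem m05_adjoin (S : Set ℂ) (x : Fin 3 → IntermediateField.adjoin ℚ S)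
    (h : Set.range (fun i => (x i : ℂ)) = S) :
    IntermediateField.adjoin ℚ (Set.range x) = ⊤ := by
  rw [eq_top_iff]
  rintro ⟨z, hz⟩ _
  refine IntermediateField.adjoin_induction (F := ℚ) (s := S)
    (p := fun z hz => (⟨z, hz⟩ : IntermediateField.adjoin ℚ S) ∈
      IntermediateField.adjoin ℚ (Set.range x)) ?_ ?_ ?_ ?_ ?_ hz
  · intro w hw
    rw [← h] at hw
    obtain ⟨i, hi⟩ := hw
    apply IntermediateField.subset_adjoin
    exact ⟨i, Subtype.ext hi⟩
  · intro q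
    have h1 : (⟨algebraMap ℚ ℂ q, IntermediateField.algebraMap_mem _ q⟩ :
        IntermediateField.adjoin ℚ S) = (q : IntermediateField.adjoin ℚ S) := by
      apply Subtype.ext
      simp
    rw [h1]
    exact SubfieldClass.ratCast_mem _ q
  · intro u w hu hw h1 h2
    exact add_mem h1 h2
  · intro u hu h1
    exact inv_mem h1
  · intro u w hu hw h1 h2
    exact mul_mem h1 h2

/-- The points of the surface with coordinates in `S` in torsion cosets of dimension at most two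
satisfy one of finitely many relations. -/
theorem m05_relation (S : Set ℂ) (hS : BogSet S) : ∃ E : Finset (Fin 5 → ℤ), 0 ∉ E ∧
    ∀ T : Set (Fin 5 → ℂ), IsTorsionCoset T →
      ringKrullDim (MvPolynomial (Fin 5) ℂ ⧸ vanI T) ≤ 2 →
      ∀ P ∈ m05 ∩ T, (∀ i, P i ∈ S) → ∃ a ∈ E, ∏ i, P i ^ a i = 1 := by
  classical
  obtain ⟨halg, c, hc, w, hw, hbog⟩ := hS
  obtain ⟨H, hH, hmain⟩ := m05_main
  obtain ⟨Q, hQ⟩ := exists_nat_gt ((3 * H + 1) / c + 2)
  have hQ2 : 2 ≤ Q := by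
    have h1 : (0 : ℝ) ≤ (3 * H + 1) / c := by positivity
    have h2 : (2 : ℝ) ≤ Q := by linarith
    exact_mod_cast h2
  have hQc : (3 * H + 1) / Q < c := by
    have hQ0 : (0 : ℝ) < Q := by positivity
    rw [div_lt_iff₀ hQ0]
    have h1 : (3 * H + 1) / c < Q := by linarith
    rw [div_lt_iff₀ hc] at h1
    linarith
  let B : Finset (Fin 3 → ℤ) := Fintype.piFinset fun _ => Finset.Icc (-((Q : ℤ) ^ 3 + 1))
    ((Q : ℤ) ^ 3 + 1)
  let f : (Fin 3 → ℤ) → (Fin 5 → ℤ) := fun a => ![w * a 0, w * a 1, w * a 2, 0, 0]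
  refine ⟨(B.erase 0).image f, ?_, ?_⟩
  · intro h0
    obtain ⟨a, ha, ha2⟩ := Finset.mem_image.1 h0
    rw [Finset.mem_erase] at ha
    apply ha.1
    have hw' : (w : ℤ) ≠ 0 := by exact_mod_cast hw.ne'
    funext i
    fin_cases i
    · have := congrFun ha2 0
      exact (mul_eq_zero.1 this).resolve_left hw'
    · have := congrFun ha2 1
      exact (mul_eq_zero.1 this).resolve_left hw'
    · have := congrFun ha2 2
      exact (mul_eq_zero.1 this).resolve_left hw'
  intro T hT hdim P hP hPS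
  -- the number field
  set S0 : Set ℂ := {P 0, P 2} with hS0
  have hfin : FiniteDimensional ℚ (IntermediateField.adjoin ℚ S0) := by
    apply IntermediateField.finiteDimensional_adjoin
    intro z hz
    rcases hz with rfl | hz
    · exact (halg _ (hPS 0)).isIntegral
    · rw [Set.mem_singleton_iff.1 hz]
      exact (halg _ (hPS 2)).isIntegral
  have : NumberField (IntermediateField.adjoin ℚ S0) := ⟨⟩
  set K := IntermediateField.adjoin ℚ S0 with hK
  let x : K := ⟨P 0, IntermediateField.subset_adjoin ℚ S0 (by simp [hS0])⟩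
  let y : K := ⟨P 2, IntermediateField.subset_adjoin ℚ S0 (by simp [hS0])⟩
  let φ : K →+* ℂ := (K.val : K →+* ℂ)
  have hgp : GP x y := m05_gp φ x y P rfl rfl hT hdim hP
  obtain ⟨hhx, hhy⟩ := hmain K x y hgp
  obtain ⟨⟨h0, e1, e3, e4⟩, hPT⟩ := hP
  obtain ⟨m, hm0, hm⟩ := m05_elim hgp.x0 hgp.x1 hgp.y0 hgp.y1 hgp.rel
  have hz : ∀ i, (![x, 1 - x, y] : Fin 3 → K) i ≠ 0 := by
    intro i
    fin_cases i
    · exact hgp.x0
    · exact sub_ne_zero.2 hgp.x1.symm
    · exact hgp.y0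
  obtain ⟨a, ha0, haQ, hah⟩ := small_relation (![x, 1 - x, y] : Fin 3 → K) hz m hm0 hm Q hQ2
  have hN : (0 : ℝ) < finrank ℚ K := by exact_mod_cast finrank_pos
  have hl : log 2 ≤ 1 := by linarith [Real.log_two_lt_d9]
  have hl0 : 0 ≤ log 2 := log_nonneg (by norm_num)
  have hNl : finrank ℚ K * log 2 ≤ finrank ℚ K := by nlinarith
  have h1x := height_one_sub_le x
  have hsum : logHeight₁ (∏ i, (![x, 1 - x, y] : Fin 3 → K) i ^ a i) < c * finrank ℚ K := by
    refine lt_of_le_of_lt hah ?_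
    rw [Fin.sum_univ_three]
    simp only [Matrix.cons_val_zero, Matrix.cons_val_one, Matrix.cons_val]
    have h2 : logHeight₁ x + logHeight₁ (1 - x) + logHeight₁ y ≤ (3 * H + 1) * finrank ℚ K := by
      nlinarith
    calc 1 / (Q : ℝ) * (logHeight₁ x + logHeight₁ (1 - x) + logHeight₁ y)
        ≤ 1 / (Q : ℝ) * ((3 * H + 1) * finrank ℚ K) :=
          mul_le_mul_of_nonneg_left h2 (by positivity)
      _ = (3 * H + 1) / Q * finrank ℚ K := by ring
      _ < c * finrank ℚ K := mul_lt_mul_of_pos_right hQc hN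
  -- the Bogomolov property
  have hx3 : ∀ i, (![x, y, y] : Fin 3 → K) i ≠ 0 ∧ (![x, y, y] : Fin 3 → K) i ≠ 1 ∧
      φ ((![x, y, y] : Fin 3 → K) i) ∈ S ∧ φ (1 - (![x, y, y] : Fin 3 → K) i) ∈ S := by
    have hxS : x ≠ 0 ∧ x ≠ 1 ∧ φ x ∈ S ∧ φ (1 - x) ∈ S := by
      refine ⟨hgp.x0, hgp.x1, hPS 0, ?_⟩
      have : φ (1 - x) = P 1 := by rw [map_sub, map_one, e1]; rfl
      rw [this]
      exact hPS 1
    have hyS : y ≠ 0 ∧ y ≠ 1 ∧ φ y ∈ S ∧ φ (1 - y) ∈ S := by
      refine ⟨hgp.y0, hgp.y1, hPS 2, ?_⟩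
      have : φ (1 - y) = P 3 := by rw [map_sub, map_one, e3]; rfl
      rw [this]
      exact hPS 3
    intro i
    fin_cases i
    · exact hxS
    · exact hyS
    · exact hyS
  have hadj : IntermediateField.adjoin ℚ (Set.range (![x, y, y] : Fin 3 → K)) = ⊤ := by
    apply m05_adjoin
    ext z
    simp only [Set.mem_range, hS0, Set.mem_insert_iff, Set.mem_singleton_iff]
    constructor
    · rintro ⟨i, rfl⟩
      fin_cases i
      · left; rfl
      · right; rfl
      · right; rfl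
    · rintro (rfl | rfl)
      · exact ⟨0, rfl⟩
      · exact ⟨1, rfl⟩
  have hB := hbog K φ (![x, y, y] : Fin 3 → K) hx3 hadj 0 1 (a 0) (a 1) (a 2)
  have hprod : ∏ i, (![x, 1 - x, y] : Fin 3 → K) i ^ a i = x ^ a 0 * (1 - x) ^ a 1 * y ^ a 2 := by
    rw [Fin.prod_univ_three]
    simp only [Matrix.cons_val_zero, Matrix.cons_val_one, Matrix.cons_val]
  rw [hprod] at hsum
  have hone : (x ^ a 0 * (1 - x) ^ a 1 * y ^ a 2) ^ w = 1 := by
    rcases hB with hB | hB
    · exact hB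
    · exact absurd hB (not_le.2 hsum)
  refine ⟨f a, Finset.mem_image_of_mem f ?_, ?_⟩
  · rw [Finset.mem_erase]
    refine ⟨ha0, Fintype.mem_piFinset.2 fun i => ?_⟩
    rw [Finset.mem_Icc]
    exact abs_le.1 (haQ i)
  · rw [Fin.prod_univ_five]
    have h2 := congrArg φ hone
    rw [map_pow, map_mul, map_mul, map_zpow₀, map_zpow₀, map_zpow₀, map_sub, map_one] at h2
    have ex : φ x = P 0 := rfl
    have ey : φ y = P 2 := rfl
    rw [ex, ey, ← e1] at h2
    change P 0 ^ (w * a 0) * P 1 ^ (w * a 1) * P 2 ^ (w * a 2) * P 3 ^ (0 : ℤ) * P 4 ^ (0 : ℤ) = 1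
    rw [zpow_zero, zpow_zero, mul_one, mul_one, mul_comm (w : ℤ), mul_comm (w : ℤ),
      mul_comm (w : ℤ), zpow_mul, zpow_mul, zpow_mul, zpow_natCast, zpow_natCast, zpow_natCast,
      ← mul_pow, ← mul_pow]
    exact h2

/-- The dimension of the surface is at least two. -/
theorem m05_dim : (2 : WithBot ℕ∞) ≤ ringKrullDim (MvPolynomial (Fin 5) ℂ ⧸ vanI m05) := by
  classical
  let g : Fin 5 → MvPolynomial (Fin 2) ℂ := ![MvPolynomial.X 0, 1 - MvPolynomial.X 0,
    MvPolynomial.X 1, 1 - MvPolynomial.X 1, MvPolynomial.X 0 - MvPolynomial.X 1]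
  let F : MvPolynomial (Fin 5) ℂ →ₐ[ℂ] MvPolynomial (Fin 2) ℂ := MvPolynomial.aeval g
  have hsurj : Function.Surjective F := by
    intro p
    refine ⟨MvPolynomial.aeval ![MvPolynomial.X 0, MvPolynomial.X 2] p, ?_⟩
    have h : F.comp (MvPolynomial.aeval ![MvPolynomial.X 0, MvPolynomial.X 2] :
        MvPolynomial (Fin 2) ℂ →ₐ[ℂ] MvPolynomial (Fin 5) ℂ) = AlgHom.id ℂ _ := by
      ext i
      fin_cases i <;> simp [F, g]
    exact DFunLike.congr_fun h p
  have hker : ∀ f ∈ vanI m05, F f = 0 := by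
    intro f hf
    rw [mem_vanI] at hf
    have h2 : ∀ u : Fin 2 → ℂ, MvPolynomial.eval u (F f) =
        MvPolynomial.eval ![u 0, 1 - u 0, u 1, 1 - u 1, u 0 - u 1] f := by
      intro u
      have h : ((MvPolynomial.aeval u : MvPolynomial (Fin 2) ℂ →ₐ[ℂ] ℂ).comp F) =
          (MvPolynomial.aeval ![u 0, 1 - u 0, u 1, 1 - u 1, u 0 - u 1] :
            MvPolynomial (Fin 5) ℂ →ₐ[ℂ] ℂ) := by
        ext i
        fin_cases i <;> simp [F, g]
      exact DFunLike.congr_fun h f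
    have h3 : F f * (MvPolynomial.X 0 * (1 - MvPolynomial.X 0) * (MvPolynomial.X 1 *
        (1 - MvPolynomial.X 1)) * (MvPolynomial.X 0 - MvPolynomial.X 1)) = 0 := by
      refine MvPolynomial.funext fun u => ?_
      rw [map_mul, map_zero]
      by_cases hu : u 0 ≠ 0 ∧ 1 - u 0 ≠ 0 ∧ u 1 ≠ 0 ∧ 1 - u 1 ≠ 0 ∧ u 0 - u 1 ≠ 0
      · rw [h2, hf, zero_mul]
        refine ⟨fun i => ?_, rfl, rfl, rfl⟩
        fin_cases i
        · exact hu.1
        · exact hu.2.1
        · exact hu.2.2.1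
        · exact hu.2.2.2.1
        · exact hu.2.2.2.2
      · simp only [map_mul, map_sub, map_one, MvPolynomial.eval_X]
        have : u 0 * (1 - u 0) * (u 1 * (1 - u 1)) * (u 0 - u 1) = 0 := by
          by_contra hcon
          simp only [mul_eq_zero, not_or] at hcon
          exact hu ⟨hcon.1.1.1, hcon.1.1.2, hcon.1.2.1, hcon.1.2.2, hcon.2⟩
        rw [this, mul_zero]
    refine (mul_eq_zero.mp h3).resolve_right ?_
    intro h4
    have h5 := congrArg (MvPolynomial.eval (![2, 3] : Fin 2 → ℂ)) h4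
    simp at h5
    norm_num at h5
  let G : (MvPolynomial (Fin 5) ℂ ⧸ vanI m05) →+* MvPolynomial (Fin 2) ℂ :=
    Ideal.Quotient.lift (vanI m05) (F : MvPolynomial (Fin 5) ℂ →+* MvPolynomial (Fin 2) ℂ) hker
  have hG : Function.Surjective G := by
    intro p
    obtain ⟨f, hf⟩ := hsurj p
    exact ⟨Ideal.Quotient.mk _ f, hf⟩
  have h1 := ringKrullDim_le_of_surjective G hG
  rw [ringKrullDim_mvPoly] at h1
  simpa using h1

/-- Atypical points of the surface lie in torsion cosets of dimension at most two. -/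
theorem m05_atypical {P : Fin 5 → ℂ} (h : IsAtypical m05 {P}) :
    ∃ T : Set (Fin 5 → ℂ), IsTorsionCoset T ∧
      ringKrullDim (MvPolynomial (Fin 5) ℂ ⧸ vanI T) ≤ 2 ∧ P ∈ m05 ∩ T := by
  obtain ⟨T, hT, hcomp, hdim⟩ := h
  refine ⟨T, hT, ?_, hcomp.1 rfl⟩
  have hX : ringKrullDim (MvPolynomial (Fin 5) ℂ ⧸ vanI {P}) = 0 := by
    have h1 : vanI ({P} : Set (Fin 5 → ℂ)) =
        RingHom.ker (MvPolynomial.eval P : MvPolynomial (Fin 5) ℂ →+* ℂ) := by
      simp [vanI]
    rw [h1]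
    have hs : Function.Surjective (MvPolynomial.eval P : MvPolynomial (Fin 5) ℂ →+* ℂ) :=
      fun c => ⟨MvPolynomial.C c, MvPolynomial.eval_C c⟩
    rw [ringKrullDim_eq_of_ringEquiv (RingHom.quotientKerEquivOfSurjective hs)]
    exact ringKrullDim_eq_zero_of_field ℂ
  obtain ⟨M, η, hsat, hη, rfl⟩ := hT
  obtain ⟨d, hd, hdd⟩ := dim_cos M η hη
  change ringKrullDim (MvPolynomial (Fin 5) ℂ ⧸ vanI (cos M η)) ≤ 2
  change ringKrullDim (MvPolynomial (Fin 5) ℂ ⧸ vanI m05) +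
    ringKrullDim (MvPolynomial (Fin 5) ℂ ⧸ vanI (cos M η)) <
    ringKrullDim (MvPolynomial (Fin 5) ℂ ⧸ vanI {P}) + _ at hdim
  rw [hX, hdd, zero_add] at hdim
  rw [hdd]
  have h1 := lt_of_le_of_lt (add_le_add_left m05_dim (d : WithBot ℕ∞)) hdim
  have h2 : ((2 + d : ℕ) : WithBot ℕ∞) < ((5 : ℕ) : WithBot ℕ∞) := by
    push_cast
    exact h1
  have h3 : 2 + d < 5 := by exact_mod_cast h2
  have h4 : d ≤ 2 := by omega
  exact_mod_cast h4

end Pool.Agent.MinHt
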