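import Pool.Agent.MinHt.TotReal
import Pool.Agent.MinHt.Cov

set_option autoImplicit false

/-! M13. Groups of algebraic numbers with the Northcott property. -/

namespace Pool.Agent.MinHt

open NumberField Height Real Module Pool.Agent.CITNF Pool.Agent.CITLines Pool.Agent.CITTrans

/-- A group of algebraic numbers with the Northcott property: for every `B` it has only finitely
many elements of absolute height at most `B`. -/
def NorthcottGroup (G : Subgroup ℂˣ) : Prop :=
  (∀ g ∈ G, IsAlgebraic ℚ (g : ℂ)) ∧ ∀ B : ℝ,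
    {g : ℂˣ | g ∈ G ∧ ∃ (K : Type) (_ : Field K) (_ : NumberField K) (φ : K →+* ℂ) (γ : K),
      φ γ = g ∧ logHeight₁ γ ≤ B * finrank ℚ K}.Finite

/-- The Northcott property implies the Bogomolov property. -/
theorem NorthcottGroup.bogomolov {G : Subgroup ℂˣ} (hG : NorthcottGroup G) : BogomolovGroup G := by
  classical
  obtain ⟨halg, hfin⟩ := hG
  set F : Finset ℂˣ := (hfin 1).toFinset with hF
  refine ⟨halg, 1 / (F.card + 1), by positivity, (F.card + 1).factorial,
    Nat.factorial_pos _, ?_⟩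
  intro K _ _ φ γ ⟨g, hg, hgγ⟩
  have hd : (0 : ℝ) < finrank ℚ K := by exact_mod_cast finrank_pos
  by_contra hcon
  push Not at hcon
  obtain ⟨htors, hsmall⟩ := hcon
  -- all small powers are in `F`
  have hmem : ∀ k ∈ Finset.range (F.card + 1), g ^ (k + 1) ∈ F := by
    intro k hk
    rw [Finset.mem_range] at hk
    rw [hF, Set.Finite.mem_toFinset]
    refine ⟨G.pow_mem hg _, K, inferInstance, inferInstance, φ, γ ^ (k + 1), ?_, ?_⟩
    · rw [map_pow, ← hgγ]
      push_cast
      rfl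
    · rw [logHeight₁_pow]
      have h1 : ((k + 1 : ℕ) : ℝ) ≤ F.card + 1 := by exact_mod_cast Nat.succ_le_of_lt hk
      have h2 : ((k + 1 : ℕ) : ℝ) * logHeight₁ γ ≤ (F.card + 1) * logHeight₁ γ :=
        mul_le_mul_of_nonneg_right h1 (zero_le_logHeight₁ _)
      have h3 : ((F.card : ℝ) + 1) * logHeight₁ γ ≤
          (F.card + 1) * (1 / (F.card + 1) * finrank ℚ K) :=
        mul_le_mul_of_nonneg_left hsmall.le (by positivity)
      have h4 : ((F.card : ℝ) + 1) * (1 / (F.card + 1) * finrank ℚ K) = 1 * finrank ℚ K := by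
        field_simp
      linarith
  have hcard : F.card < (Finset.range (F.card + 1)).card := by
    rw [Finset.card_range]
    omega
  obtain ⟨k1, hk1, k2, hk2, hne, heq⟩ := Finset.exists_ne_map_eq_of_card_lt_of_maps_to hcard hmem
  have key : ∀ k1 k2 : ℕ, k1 < k2 → k2 < F.card + 1 → g ^ (k1 + 1) = g ^ (k2 + 1) → False := by
    intro k1 k2 hlt hk he
    have h1 : g ^ (k2 - k1) = 1 := by
      have h2 : g ^ (k2 + 1) = g ^ (k1 + 1) * g ^ (k2 - k1) := by
        rw [← pow_add]
        congr 1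
        omega
      rw [h2] at he
      exact (mul_eq_left.1 he.symm)
    have h3 : γ ^ (k2 - k1) = 1 := by
      apply φ.injective
      rw [map_pow, map_one, ← hgγ]
      have := congrArg (fun u : ℂˣ => (u : ℂ)) h1
      simpa using this
    apply htors
    have h4 : (k2 - k1) ∣ (F.card + 1).factorial :=
      Nat.dvd_factorial (by omega) (by omega)
    obtain ⟨m, hm⟩ := h4
    rw [hm, pow_mul, h3, one_pow]
  rw [Finset.mem_range] at hk1 hk2
  rcases lt_or_gt_of_ne hne with h | h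
  · exact key k1 k2 h hk2 heq
  · exact key k2 k1 h hk1 heq.symm

/-- The elements of a Northcott group which are in the division hull of `x, 1 - x`, where `x` has
height at most `H`, lie in one number field. -/
private theorem north_hull {G : Subgroup ℂˣ} (F : Set ℂˣ) (B : ℝ)
    (hF : F = {g : ℂˣ | g ∈ G ∧ ∃ (K : Type) (_ : Field K) (_ : NumberField K) (φ : K →+* ℂ) (γ : K),
      φ γ = g ∧ logHeight₁ γ ≤ B * finrank ℚ K})
    (K : Type) [Field K] [NumberField K] (φ : K →+* ℂ) (x w γ : K) (hx : x ≠ 0) (hw : w ≠ 0)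
    (gx gw gγ : ℂˣ) (hgx : gx ∈ G) (hgw : gw ∈ G) (hgγ : gγ ∈ G)
    (ex : (gx : ℂ) = φ x) (ew : (gw : ℂ) = φ w) (eγ : (gγ : ℂ) = φ γ)
    (hB : logHeight₁ x + logHeight₁ w ≤ B * finrank ℚ K)
    (N : ℕ) (hN : 0 < N) (a b : ℤ) (h : γ ^ N = x ^ a * w ^ b) :
    φ γ ∈ IntermediateField.adjoin ℚ ((fun g : ℂˣ => (g : ℂ)) '' F) := by
  set K0 := IntermediateField.adjoin ℚ ((fun g : ℂˣ => (g : ℂ)) '' F) with hK0
  have memK0 : ∀ g ∈ F, (g : ℂ) ∈ K0 := fun g hg =>
    IntermediateField.subset_adjoin _ _ ⟨g, hg, rfl⟩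
  have hNZ : (0 : ℤ) < N := by exact_mod_cast hN
  have hNR : (0 : ℝ) < N := by exact_mod_cast hN
  have hx0 := zero_le_logHeight₁ x
  have hw0 := zero_le_logHeight₁ w
  -- `x` and `w` are in `K0`
  have mx : φ x ∈ K0 := by
    rw [← ex]
    apply memK0
    rw [hF]
    exact ⟨hgx, K, inferInstance, inferInstance, φ, x, ex.symm, by linarith⟩
  have mw : φ w ∈ K0 := by
    rw [← ew]
    apply memK0
    rw [hF]
    exact ⟨hgw, K, inferInstance, inferInstance, φ, w, ew.symm, by linarith⟩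
  -- the reduced element
  set a' := a / N with ha'
  set b' := b / N with hb'
  set γ' := γ * (x ^ a' * w ^ b')⁻¹ with hγ'
  have hγN : γ' ^ N = x ^ (a % N) * w ^ (b % N) := by
    rw [hγ', mul_pow, h, inv_pow, mul_pow, ← zpow_natCast (x ^ a'), ← zpow_natCast (w ^ b'),
      ← zpow_mul, ← zpow_mul, Int.emod_def, Int.emod_def, zpow_sub₀ hx, zpow_sub₀ hw,
      mul_comm (N : ℤ) (a / N), mul_comm (N : ℤ) (b / N)]
    have h1 : x ^ (a' * N) ≠ 0 := zpow_ne_zero _ hx
    have h2 : w ^ (b' * N) ≠ 0 := zpow_ne_zero _ hw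
    rw [← ha', ← hb']
    field_simp
  have hht : logHeight₁ γ' ≤ B * finrank ℚ K := by
    have e := congrArg logHeight₁ hγN
    rw [logHeight₁_pow] at e
    have h1 := logHeight₁_mul_le (x ^ (a % N)) (w ^ (b % N))
    rw [logHeight₁_zpow, logHeight₁_zpow, ← e] at h1
    have h2 : ∀ c : ℤ, (((c % N).natAbs : ℕ) : ℝ) ≤ N := by
      intro c
      have h3 := Int.emod_nonneg c hNZ.ne'
      have h4 := Int.emod_lt_of_pos c hNZ
      have h5 : (c % N).natAbs ≤ N := by omega
      exact_mod_cast h5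
    have h3 : (N : ℝ) * logHeight₁ γ' ≤ N * (logHeight₁ x + logHeight₁ w) := by
      have h4 := mul_le_mul_of_nonneg_right (h2 a) hx0
      have h5 := mul_le_mul_of_nonneg_right (h2 b) hw0
      linarith
    have h6 := le_of_mul_le_mul_left h3 hNR
    linarith
  have mγ' : φ γ' ∈ K0 := by
    set g' : ℂˣ := gγ * (gx ^ a' * gw ^ b')⁻¹ with hg'
    have e : (g' : ℂ) = φ γ' := by
      rw [hg', hγ', map_mul, map_inv₀, map_mul, map_zpow₀, map_zpow₀, ← ex, ← ew, ← eγ]
      push_cast
      rfl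
    rw [← e]
    apply memK0
    rw [hF]
    refine ⟨G.mul_mem hgγ (G.inv_mem (G.mul_mem (G.zpow_mem hgx _) (G.zpow_mem hgw _))), K,
      inferInstance, inferInstance, φ, γ', e.symm, hht⟩
  have e2 : φ γ = φ γ' * (φ x ^ a' * φ w ^ b') := by
    rw [hγ', map_mul, map_inv₀, map_mul, map_zpow₀, map_zpow₀]
    have h1 : φ x ^ a' ≠ 0 := zpow_ne_zero _ ((map_ne_zero φ).2 hx)
    have h2 : φ w ^ b' ≠ 0 := zpow_ne_zero _ ((map_ne_zero φ).2 hw)
    field_simp
  rw [e2]
  exact K0.mul_mem mγ' (K0.mul_mem (zpow_mem mx _) (zpow_mem mw _))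

private theorem north_rel_symm {K : Type} [Field K] {x y : K} (h : Rel2 x y) : Rel2 y x := by
  obtain ⟨a, b, hind, ha, hb⟩ := h
  refine ⟨![a 2, a 3, a 0, a 1], ![b 2, b 3, b 0, b 1], ?_, ?_, ?_⟩
  · intro s t hst
    refine hind s t ?_
    funext i
    have e0 := congrFun hst 0
    have e1 := congrFun hst 1
    have e2 := congrFun hst 2
    have e3 := congrFun hst 3
    simp only [Pi.add_apply, Pi.smul_apply, smul_eq_mul, Matrix.cons_val_zero,
      Matrix.cons_val_one, Matrix.cons_val, Pi.zero_apply] at e0 e1 e2 e3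
    fin_cases i
    · simpa using e2
    · simpa using e3
    · simpa using e0
    · simpa using e1
  · rw [R_symm]
    exact ha
  · rw [R_symm]
    exact hb

/-- The six relations between equivalent points. -/
private def northSix : Finset (Fin 4 → ℤ) := {![1, 0, -1, 0], ![1, 0, 0, -1], ![1, 0, 1, 0],
  ![0, 1, 1, 0], ![2, -2, -2, 0], ![2, -2, 2, 0]}

private theorem north_six_ne : ∀ a ∈ northSix, a ≠ 0 := by
  intro a ha h0
  rw [northSix] at ha
  simp only [Finset.mem_insert, Finset.mem_singleton] at ha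
  rcases ha with h | h | h | h | h | h <;> rw [h0] at h
  · exact absurd (congrFun h 0) (by simp)
  · exact absurd (congrFun h 0) (by simp)
  · exact absurd (congrFun h 0) (by simp)
  · exact absurd (congrFun h 1) (by simp)
  · exact absurd (congrFun h 0) (by simp)
  · exact absurd (congrFun h 0) (by simp)

private theorem north_six {K : Type} [Field K] {x y : K} (hx : x ≠ 0) (hx1 : x ≠ 1)
    (he : Eqv x y) : ∃ a ∈ northSix, R x y a = 1 := by
  have h1x : (1 - x) ≠ 0 := sub_ne_zero.mpr hx1.symm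
  have hx1' : (x - 1) ≠ 0 := sub_ne_zero.mpr hx1
  rw [northSix]
  rcases he with h | h | h | h | h | h
  · refine ⟨![1, 0, -1, 0], by simp, ?_⟩
    subst h
    simp [R, hx]
  · refine ⟨![1, 0, 0, -1], by simp, ?_⟩
    subst h
    simp [R, hx]
  · refine ⟨![1, 0, 1, 0], by simp, ?_⟩
    subst h
    simp [R, hx]
  · refine ⟨![0, 1, 1, 0], by simp, ?_⟩
    subst h
    simp [R, h1x]
  · refine ⟨![2, -2, -2, 0], by simp, ?_⟩
    subst h
    simp only [R, Matrix.cons_val_zero, Matrix.cons_val_one, Matrix.cons_val, zpow_zero,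
      mul_one, zpow_neg]
    have e2 : ∀ z : K, z ^ (2 : ℤ) = z ^ 2 := fun z => by norm_cast
    rw [e2, e2, e2]
    have : (1 - x) ^ 2 = (x - 1) ^ 2 := by ring
    rw [this, div_pow]
    field_simp
  · refine ⟨![2, -2, 2, 0], by simp, ?_⟩
    subst h
    simp only [R, Matrix.cons_val_zero, Matrix.cons_val_one, Matrix.cons_val, zpow_zero,
      mul_one, zpow_neg]
    have e2 : ∀ z : K, z ^ (2 : ℤ) = z ^ 2 := fun z => by norm_cast
    rw [e2, e2, e2]
    have : (1 - x) ^ 2 = (x - 1) ^ 2 := by ring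
    rw [this, div_pow]
    field_simp

/-- Pairs of points of the line with coordinates in a Northcott group and of total rank at most
two satisfy one of finitely many relations. -/
theorem north_relations (G : Subgroup ℂˣ) (hG : NorthcottGroup G) :
    ∃ E : Finset (Fin 4 → ℤ), 0 ∉ E ∧ ∀ x y : ℂ, (∃ g ∈ G, (g : ℂ) = x) →
      (∃ g ∈ G, (g : ℂ) = 1 - x) → (∃ g ∈ G, (g : ℂ) = y) → (∃ g ∈ G, (g : ℂ) = 1 - y) →
      Rel2 x y → ∃ a ∈ E, R x y a = 1 := by
  classical
  obtain ⟨H, hH, hmin⟩ := min_height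
  have hl2 : 0 < log 2 := Real.log_pos (by norm_num)
  set B : ℝ := 2 * H + log 2 with hB
  have hfin := hG.2 B
  set F : Set ℂˣ := {g : ℂˣ | g ∈ G ∧ ∃ (K : Type) (_ : Field K) (_ : NumberField K) (φ : K →+* ℂ)
    (γ : K), φ γ = g ∧ logHeight₁ γ ≤ B * finrank ℚ K} with hF
  have hFG : ∀ g ∈ F, g ∈ G := fun g hg => hg.1
  set K0 := IntermediateField.adjoin ℚ ((fun g : ℂˣ => (g : ℂ)) '' F) with hK0
  have : Finite ((fun g : ℂˣ => (g : ℂ)) '' F) := (hfin.image _).to_subtype
  have hfd : FiniteDimensional ℚ K0 := by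
    apply IntermediateField.finiteDimensional_adjoin
    rintro _ ⟨g, hg, rfl⟩
    exact (hG.1 g (hFG g hg)).isIntegral
  have : NumberField K0 := ⟨⟩
  obtain ⟨S, hS0, hS⟩ := exponents K0
  -- choice of relations
  have h1 : ∀ x : ℂ, ∃ p : ℤ × ℤ, ¬ MI x → (p.1 ≠ 0 ∨ p.2 ≠ 0) ∧ x ^ p.1 * (1 - x) ^ p.2 = 1 := by
    intro x
    by_cases hx : MI x
    · exact ⟨(0, 0), fun h => absurd hx h⟩
    · have hx' := hx
      unfold MI at hx'
      push Not at hx'
      obtain ⟨a, b, hab, hne⟩ := hx'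
      refine ⟨(a, b), fun _ => ⟨?_, hab⟩⟩
      by_cases ha : a = 0
      · exact Or.inr (hne ha)
      · exact Or.inl ha
  choose p hp using h1
  set FF : Finset ℂ := (hfin.image fun g : ℂˣ => (g : ℂ)).toFinset with hFF
  set E : Finset (Fin 4 → ℤ) := ((northSix ∪ FF.image (fun x => ![(p x).1, (p x).2, 0, 0]) ∪
    FF.image (fun x => ![0, 0, (p x).1, (p x).2]) ∪ S).filter (· ≠ 0)) with hE
  -- one half
  have half : ∀ x y : ℂ, ∀ (K : Type) [Field K] [NumberField K] (φ : K →+* ℂ) (x' y' : K),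
      φ x' = x → φ y' = y → x' ≠ 0 → x' ≠ 1 → y' ≠ 0 → y' ≠ 1 →
      (∃ g ∈ G, (g : ℂ) = x) →
      (∃ g ∈ G, (g : ℂ) = 1 - x) → (∃ g ∈ G, (g : ℂ) = y) → (∃ g ∈ G, (g : ℂ) = 1 - y) →
      Rel2 x' y' → logHeight₁ x' ≤ H * finrank ℚ K →
      (x ∈ FF ∧ ¬ MI x) ∨ (x ∈ K0 ∧ y ∈ K0) := by
    intro x y K _ _ φ x' y' ex ey hx hx1 hy hy1 ⟨g1, hg1, e1⟩ ⟨g2, hg2, e2⟩ ⟨g3, hg3, e3⟩
      ⟨g4, hg4, e4⟩ hrel hle
    have hd : (0 : ℝ) < finrank ℚ K := by exact_mod_cast finrank_pos
    have h1x : (1 - x') ≠ 0 := sub_ne_zero.mpr hx1.symm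
    have h1y : (1 - y') ≠ 0 := sub_ne_zero.mpr hy1.symm
    have e1x : φ (1 - x') = 1 - x := by rw [map_sub, map_one, ex]
    have e1y : φ (1 - y') = 1 - y := by rw [map_sub, map_one, ey]
    have hle2 : logHeight₁ x' + logHeight₁ (1 - x') ≤ B * finrank ℚ K := by
      have := height_one_sub_le x'
      rw [hB]
      linarith
    have hx'0 := zero_le_logHeight₁ x'
    have h1x'0 := zero_le_logHeight₁ (1 - x')
    by_cases hmx : MI x'
    · right
      obtain ⟨N, A, B', C, D, hc⟩ := exists_comm hx hx1 hy hy1 hrel hmx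
      constructor
      · rw [← ex]
        refine north_hull F B rfl K φ x' (1 - x') x' hx h1x g1 g2 g1 hg1 hg2 hg1
          (e1.trans ex.symm) (e2.trans e1x.symm) (e1.trans ex.symm) hle2 1 one_pos 1 0 ?_
        simp
      · rw [← ey]
        exact north_hull F B rfl K φ x' (1 - x') y' hx h1x g1 g2 g3 hg1 hg2 hg3
          (e1.trans ex.symm) (e2.trans e1x.symm) (e3.trans ey.symm) hle2 N hc.N0 A B' hc.hy
    · left
      constructor
      · rw [hFF, Set.Finite.mem_toFinset]
        refine ⟨g1, ?_, e1⟩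
        exact ⟨hg1, K, inferInstance, inferInstance, φ, x', by rw [ex, e1], by linarith⟩
      · intro hm
        apply hmx
        intro a b hab
        apply hm a b
        have := congrArg φ hab
        rw [map_mul, map_zpow₀, map_zpow₀, e1x, ex, map_one] at this
        exact this
  refine ⟨E, by simp [hE], ?_⟩
  intro x y hgx hg1x hgy hg1y hrel
  -- the number field generated by `x` and `y`
  have ax : IsAlgebraic ℚ x := by
    obtain ⟨g, hg, e⟩ := hgx
    rw [← e]
    exact hG.1 g hg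
  have ay : IsAlgebraic ℚ y := by
    obtain ⟨g, hg, e⟩ := hgy
    rw [← e]
    exact hG.1 g hg
  have hx : x ≠ 0 := by
    obtain ⟨g, hg, e⟩ := hgx
    rw [← e]
    exact g.ne_zero
  have hy : y ≠ 0 := by
    obtain ⟨g, hg, e⟩ := hgy
    rw [← e]
    exact g.ne_zero
  have h1x : 1 - x ≠ 0 := by
    obtain ⟨g, hg, e⟩ := hg1x
    rw [← e]
    exact g.ne_zero
  have h1y : 1 - y ≠ 0 := by
    obtain ⟨g, hg, e⟩ := hg1y
    rw [← e]
    exact g.ne_zero
  have hx1 : x ≠ 1 := fun h => h1x (by rw [h, sub_self])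
  have hy1 : y ≠ 1 := fun h => h1y (by rw [h, sub_self])
  set K := IntermediateField.adjoin ℚ ({x, y} : Set ℂ) with hK
  have : FiniteDimensional ℚ K :=
    IntermediateField.finiteDimensional_adjoin_pair ax.isIntegral ay.isIntegral
  have : NumberField K := ⟨⟩
  have mx : x ∈ K := IntermediateField.subset_adjoin _ _ (by simp)
  have my : y ∈ K := IntermediateField.subset_adjoin _ _ (by simp)
  set x' : K := ⟨x, mx⟩ with hx'
  set y' : K := ⟨y, my⟩ with hy'
  set φ : K →+* ℂ := algebraMap K ℂ with hφ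
  have ex : φ x' = x := rfl
  have ey : φ y' = y := rfl
  have x0 : x' ≠ 0 := fun h => hx (by rw [← ex, h, map_zero])
  have y0 : y' ≠ 0 := fun h => hy (by rw [← ey, h, map_zero])
  have x1 : x' ≠ 1 := fun h => hx1 (by rw [← ex, h, map_one])
  have y1 : y' ≠ 1 := fun h => hy1 (by rw [← ey, h, map_one])
  have hrelK : Rel2 x' y' := by
    obtain ⟨a, b, hind, ha, hb⟩ := hrel
    rw [← ex, ← ey, R_map] at ha hb
    exact ⟨a, b, hind, φ.injective (by rw [ha, map_one]), φ.injective (by rw [hb, map_one])⟩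
  have fin1 : ∀ a ∈ S, R x y a = 1 → ∃ a ∈ E, R x y a = 1 := by
    intro a ha hR
    refine ⟨a, ?_, hR⟩
    rw [hE, Finset.mem_filter]
    exact ⟨Finset.mem_union_right _ ha, fun h0 => hS0 (h0 ▸ ha)⟩
  have fin2 : x ∈ K0 ∧ y ∈ K0 → ∃ a ∈ E, R x y a = 1 := by
    rintro ⟨kx, ky⟩
    obtain ⟨a, ha, hR⟩ := hS ⟨x, kx⟩ ⟨y, ky⟩ (fun h => hx (congrArg Subtype.val h))
      (fun h => hx1 (congrArg Subtype.val h)) (fun h => hy (congrArg Subtype.val h))
      (fun h => hy1 (congrArg Subtype.val h)) (by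
        obtain ⟨a, b, hind, ha, hb⟩ := hrel
        refine ⟨a, b, hind, (algebraMap K0 ℂ).injective ?_, (algebraMap K0 ℂ).injective ?_⟩
        · rw [← R_map, map_one]
          exact ha
        · rw [← R_map, map_one]
          exact hb)
    refine fin1 a ha ?_
    have := congrArg (algebraMap K0 ℂ) hR
    rw [← R_map, map_one] at this
    exact this
  by_cases he : Eqv x y
  · obtain ⟨a, ha, hR⟩ := north_six hx hx1 he
    refine ⟨a, ?_, hR⟩
    rw [hE, Finset.mem_filter]
    exact ⟨by simp [ha], north_six_ne a ha⟩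
  · have he' : ¬ Eqv x' y' := by
      intro h
      apply he
      unfold Eqv at h ⊢
      have t : ∀ z : K, y' = z → y = φ z := fun z hz => by rw [← ey, hz]
      rcases h with h | h | h | h | h | h
      · exact Or.inl (t _ h)
      · refine Or.inr (Or.inl ?_)
        rw [t _ h, map_sub, map_one, ex]
      · refine Or.inr (Or.inr (Or.inl ?_))
        rw [t _ h, map_inv₀, ex]
      · refine Or.inr (Or.inr (Or.inr (Or.inl ?_)))
        rw [t _ h, map_inv₀, map_sub, map_one, ex]
      · refine Or.inr (Or.inr (Or.inr (Or.inr (Or.inl ?_))))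
        rw [t _ h, map_div₀, map_sub, map_one, ex]
      · refine Or.inr (Or.inr (Or.inr (Or.inr (Or.inr ?_))))
        rw [t _ h, map_div₀, map_sub, map_one, ex]
    rcases min_le_iff.1 (hmin K x' y' x0 x1 y0 y1 hrelK he') with hle | hle
    · rcases half x y K φ x' y' ex ey x0 x1 y0 y1 hgx hg1x hgy hg1y hrelK hle with h | h
      · obtain ⟨n0, hR⟩ := hp x h.2
        refine ⟨![(p x).1, (p x).2, 0, 0], ?_, by simpa [R] using hR⟩
        rw [hE, Finset.mem_filter]
        refine ⟨?_, ?_⟩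
        · have : ![(p x).1, (p x).2, 0, 0] ∈ FF.image (fun x => ![(p x).1, (p x).2, 0, 0]) :=
            Finset.mem_image_of_mem _ h.1
          simp only [Finset.mem_union]
          exact Or.inl (Or.inl (Or.inr this))
        · intro h0
          rcases n0 with h | h
          · exact h (by simpa using congrFun h0 0)
          · exact h (by simpa using congrFun h0 1)
      · exact fin2 h
    · rcases half y x K φ y' x' ey ex y0 y1 x0 x1 hgy hg1y hgx hg1x (north_rel_symm hrelK) hle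
        with h | h
      · obtain ⟨n0, hR⟩ := hp y h.2
        refine ⟨![0, 0, (p y).1, (p y).2], ?_, by simpa [R] using hR⟩
        rw [hE, Finset.mem_filter]
        refine ⟨?_, ?_⟩
        · have : ![0, 0, (p y).1, (p y).2] ∈ FF.image (fun x => ![0, 0, (p x).1, (p x).2]) :=
            Finset.mem_image_of_mem _ h.1
          simp only [Finset.mem_union]
          exact Or.inl (Or.inr this)
        · intro h0
          rcases n0 with h | h
          · exact h (by simpa using congrFun h0 2)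
          · exact h (by simpa using congrFun h0 3)
      · exact fin2 ⟨h.2, h.1⟩

/-- Points of powers of the line with coordinates in a Northcott group. -/
theorem covered_of_northcott (G : Subgroup ℂˣ) (hG : NorthcottGroup G) (r : ℕ) (hr : 2 ≤ r) :
    Covered r {z | ∃ g ∈ G, (g : ℂ) = z} := by
  classical
  obtain ⟨S, hS0, hS⟩ := north_relations G hG
  set E : (Fin 4 → ℤ) → (Fin (r + r) → ℤ) := fun a => Function.extend (e4 hr) a 0 with hE
  have hEe : ∀ a j, E a (e4 hr j) = a j := fun a j => (e4_injective hr).extend_apply _ _ _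
  have hE0 : ∀ a i, i ∉ Set.range (e4 hr) → E a i = 0 := by
    intro a i hi
    rw [hE]
    simp only
    rw [Function.extend_apply' _ _ _ (by simpa using hi)]
    rfl
  obtain ⟨k, L, ζ, hfam, hcov⟩ := cover_finset (S.image E) (by
    intro h0
    obtain ⟨a, haS, ha⟩ := Finset.mem_image.mp h0
    apply hS0
    have : a = 0 := by
      funext j
      rw [← hEe a j, ha]
      rfl
    rwa [← this])
  refine ⟨k, L, ζ, hfam, ?_⟩
  intro T hT hdim P hP hK
  have hrel := relations hr T hT hdim P hP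
  have hL0 : P (e4 hr 1) = 1 - P (e4 hr 0) := by
    have := hP.1.2 ⟨0, by omega⟩
    simp only [e4, Matrix.cons_val_zero, Matrix.cons_val_one]
    rw [← this]
    ring
  have hL1 : P (e4 hr 3) = 1 - P (e4 hr 2) := by
    have := hP.1.2 ⟨1, by omega⟩
    simp only [e4, Matrix.cons_val]
    rw [← this]
    ring
  obtain ⟨a, haS, ha⟩ := hS (P (e4 hr 0)) (P (e4 hr 2)) (hK (e4 hr 0))
    (by rw [← hL0]; exact hK (e4 hr 1)) (hK (e4 hr 2)) (by rw [← hL1]; exact hK (e4 hr 3)) hrel
  obtain ⟨j, hj⟩ := hcov P hP.1.1 ⟨E a, Finset.mem_image_of_mem _ haS, by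
    rw [prod_support P (e4 hr) (e4_injective hr) (E a) (hE0 a), Fin.prod_univ_four]
    simp only [hEe]
    rw [hL0, hL1]
    refine Eq.trans ?_ ha
    simp only [R]
    ring⟩
  exact ⟨j, hP.1.1, hj⟩

end Pool.Agent.MinHt
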