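import Pool.Agent.CITNF.Places

set_option autoImplicit false

/-! M1. Finitely many normalised absolute values which see everything about finitely many elements
of a number field. -/

namespace Pool.Agent.MinHt

open NumberField Height Real Module

/-- Finitely many normalised absolute values of `K` (all infinite ones to the power of their
multiplicity, and some finite ones), which see the height of every element of `good`. -/
structure PF (K : Type) [Field K] [NumberField K] (ι : Type) [Fintype ι] where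
  /-- the absolute values -/
  av : ι → K →*₀ ℝ
  /-- the multiplicities (`0` for finite places) -/
  wt : ι → ℕ
  /-- elements which are units outside the chosen places -/
  good : Set K
  nonneg : ∀ j z, 0 ≤ av j z
  sum_wt : ∑ j, wt j = finrank ℚ K
  sum_le : ∀ (j : ι) {β : Type} (s : Finset β) (f : β → K) (B : ℝ), 0 ≤ B →
    (∀ i ∈ s, av j (f i) ≤ B) → av j (∑ i ∈ s, f i) ≤ (s.card : ℝ) ^ wt j * B
  int_le : ∀ (j : ι) (n : ℤ), av j (n : K) ≤ (|n| : ℝ) ^ wt j
  good_ne : ∀ z ∈ good, z ≠ 0
  good_mul : ∀ z ∈ good, ∀ w ∈ good, z * w ∈ good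
  good_inv : ∀ z ∈ good, z⁻¹ ∈ good
  sum_log : ∀ z ∈ good, ∑ j, log (av j z) = 0
  height : ∀ z ∈ good, logHeight₁ z = ∑ j, log⁺ (av j z)

section Construct

variable (K : Type) [Field K] [NumberField K]

private noncomputable def pfInf (v : InfinitePlace K) : K →*₀ ℝ where
  toFun z := v z ^ v.mult
  map_zero' := by
    rw [map_zero, zero_pow (InfinitePlace.mult_ne_zero)]
  map_one' := by rw [map_one, one_pow]
  map_mul' x y := by rw [map_mul, mul_pow]

private noncomputable def pfFin (v : FinitePlace K) : K →*₀ ℝ where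
  toFun z := v z
  map_zero' := map_zero v
  map_one' := map_one v
  map_mul' x y := map_mul v x y

private theorem pf_inf_sum (v : InfinitePlace K) {β : Type} (s : Finset β) (f : β → K) (B : ℝ)
    (h : ∀ i ∈ s, v (f i) ^ v.mult ≤ B) :
    v (∑ i ∈ s, f i) ^ v.mult ≤ (s.card : ℝ) ^ v.mult * B := by
  rcases s.eq_empty_or_nonempty with rfl | hs
  · rw [Finset.sum_empty, map_zero, zero_pow (InfinitePlace.mult_ne_zero), Finset.card_empty,
      Nat.cast_zero, zero_pow (InfinitePlace.mult_ne_zero), zero_mul]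
  · obtain ⟨i0, hi0, hmax⟩ := s.exists_max_image (fun i => v (f i)) hs
    have h1 : v (∑ i ∈ s, f i) ≤ s.card * v (f i0) := by
      have h2 : v (∑ i ∈ s, f i) ≤ ∑ i ∈ s, v (f i) := v.1.sum_le s f
      have h3 : ∑ i ∈ s, v (f i) ≤ s.card • v (f i0) := Finset.sum_le_card_nsmul s _ _ hmax
      rw [nsmul_eq_mul] at h3
      exact h2.trans h3
    calc v (∑ i ∈ s, f i) ^ v.mult ≤ (s.card * v (f i0)) ^ v.mult :=
          pow_le_pow_left₀ (apply_nonneg v _) h1 _
      _ = (s.card : ℝ) ^ v.mult * v (f i0) ^ v.mult := mul_pow _ _ _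
      _ ≤ (s.card : ℝ) ^ v.mult * B :=
          mul_le_mul_of_nonneg_left (h i0 hi0) (by positivity)

private theorem pf_fin_sum (v : FinitePlace K) {β : Type} (s : Finset β) (f : β → K) (B : ℝ)
    (hB : 0 ≤ B) (h : ∀ i ∈ s, v (f i) ≤ B) : v (∑ i ∈ s, f i) ≤ B := by
  classical
  induction s using Finset.induction_on with
  | empty => rw [Finset.sum_empty, map_zero]; exact hB
  | insert a s ha ih =>
    rw [Finset.sum_insert ha]
    refine (FinitePlace.add_le v _ _).trans (max_le (h a (Finset.mem_insert_self a s)) ?_)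
    exact ih fun i hi => h i (Finset.mem_insert_of_mem hi)

private theorem pf_inf_int (v : InfinitePlace K) (n : ℤ) : v (n : K) = |(n : ℝ)| := by
  rcases Int.natAbs_eq n with h | h
  · rw [h]
    simp only [Int.cast_natCast, InfinitePlace.map_natCast, Nat.abs_cast]
  · rw [h]
    have e : v (-((n.natAbs : ℕ) : K)) = v ((n.natAbs : ℕ) : K) := v.1.map_neg _
    simp only [Int.cast_neg, Int.cast_natCast, abs_neg, Nat.abs_cast]
    rw [e, InfinitePlace.map_natCast]

private theorem pf_fin_int (v : FinitePlace K) (n : ℤ) : v (n : K) ≤ 1 := by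
  rcases Int.natAbs_eq n with h | h
  · rw [h]
    simp only [Int.cast_natCast]
    exact CITNF.natCast_le_one v _
  · rw [h]
    simp only [Int.cast_neg, Int.cast_natCast, map_neg_eq_map]
    exact CITNF.natCast_le_one v _

private theorem pf_posLog_pow (r : ℝ) (m : ℕ) : log⁺ (r ^ m) = m * log⁺ r := by
  change max 0 (log (r ^ m)) = m * max 0 (log r)
  rw [Real.log_pow, mul_max_of_nonneg _ _ (Nat.cast_nonneg m), mul_zero]

end Construct

/-- Proof: `ι` = infinite places ⊕ the finite places where some element of `Z` is not a unit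
(`FinitePlace.hasFiniteMulSupport`); `av (inl v) z = (v z) ^ v.mult`, `av (inr v) z = v z`;
`good z` iff `z ≠ 0` and `v z = 1` for all finite `v` outside. `sum_log` is the product formula
`NumberField.prod_abs_eq_one`, `height` is `NumberField.logHeight₁_eq`, `sum_wt` is
`InfinitePlace.sum_mult_eq`, finite places are ultrametric (`FinitePlace.add_le`) and `≤ 1` on
integers. -/
theorem exists_PF (K : Type) [Field K] [NumberField K] (Z : Finset K) (hZ : ∀ z ∈ Z, z ≠ 0) :
    ∃ (ι : Type) (_ : Fintype ι) (P : PF K ι), ∀ z ∈ Z, z ∈ P.good := by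
  classical
  let S : Finset (FinitePlace K) := Z.attach.biUnion fun z =>
    (FinitePlace.hasFiniteMulSupport (hZ z.1 z.2)).toFinset
  have hS : ∀ z ∈ Z, ∀ v : FinitePlace K, v ∉ S → v z = 1 := by
    intro z hz v hv
    by_contra hne
    apply hv
    simp only [S, Finset.mem_biUnion, Finset.mem_attach, true_and]
    refine ⟨⟨z, hz⟩, ?_⟩
    rw [Set.Finite.mem_toFinset, Function.mem_mulSupport]
    exact hne
  have hprod : ∀ z : K, (∀ v : FinitePlace K, v ∉ S → v z = 1) →
      ∏ᶠ v : FinitePlace K, v z = ∏ v : S, (v : FinitePlace K) z := by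
    intro z hz
    rw [finprod_eq_prod_of_mulSupport_subset (s := S)]
    · rw [Finset.prod_coe_sort S (fun v : FinitePlace K => v z)]
    · intro v hv
      by_contra hne
      exact hv (hz v hne)
  have hsum : ∀ z : K, (∀ v : FinitePlace K, v ∉ S → v z = 1) →
      ∑ᶠ v : FinitePlace K, log⁺ (v z) = ∑ v : S, log⁺ ((v : FinitePlace K) z) := by
    intro z hz
    rw [finsum_eq_sum_of_support_subset (s := S)]
    · rw [Finset.sum_coe_sort S (fun v : FinitePlace K => log⁺ (v z))]
    · intro v hv
      by_contra hne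
      apply hv
      change max 0 (log (v z)) = 0
      rw [hz v hne, Real.log_one, max_self]
  refine ⟨InfinitePlace K ⊕ S, inferInstance,
    { av := Sum.elim (fun v => pfInf K v) (fun v => pfFin K v.1)
      wt := Sum.elim (fun v => v.mult) (fun _ => 0)
      good := {z | z ≠ 0 ∧ ∀ v : FinitePlace K, v ∉ S → v z = 1}
      nonneg := ?_, sum_wt := ?_, sum_le := ?_, int_le := ?_, good_ne := ?_, good_mul := ?_
      good_inv := ?_, sum_log := ?_, height := ?_ }, fun z hz => ⟨hZ z hz, hS z hz⟩⟩
  · rintro (v | v) z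
    · exact pow_nonneg (apply_nonneg v z) _
    · exact apply_nonneg v.1 z
  · rw [Fintype.sum_sum_type]
    simp only [Sum.elim_inl, Sum.elim_inr, Finset.sum_const_zero, add_zero]
    exact InfinitePlace.sum_mult_eq
  · rintro (v | v) β s f B hB h
    · exact pf_inf_sum K v s f B h
    · simp only [Sum.elim_inr, pow_zero, one_mul]
      exact pf_fin_sum K v.1 s f B hB h
  · rintro (v | v) n
    · change v (n : K) ^ v.mult ≤ |(n : ℝ)| ^ v.mult
      rw [pf_inf_int]
    · simp only [Sum.elim_inr, pow_zero]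
      exact pf_fin_int K v.1 n
  · exact fun z hz => hz.1
  · rintro z ⟨hz, hz1⟩ w ⟨hw, hw1⟩
    exact ⟨mul_ne_zero hz hw, fun v hv => by rw [map_mul, hz1 v hv, hw1 v hv, one_mul]⟩
  · rintro z ⟨hz, hz1⟩
    exact ⟨inv_ne_zero hz, fun v hv => by rw [map_inv₀, hz1 v hv, inv_one]⟩
  · rintro z ⟨hz, hz1⟩
    have h1 := prod_abs_eq_one hz
    rw [hprod z hz1] at h1
    rw [Fintype.sum_sum_type]
    have e1 : ∑ v : InfinitePlace K, log (v z ^ v.mult) = log (∏ v : InfinitePlace K, v z ^ v.mult) := by
      rw [Real.log_prod]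
      intro v _
      exact (pow_pos (InfinitePlace.pos_iff.2 hz) _).ne'
    have e2 : ∑ v : S, log ((v : FinitePlace K) z) = log (∏ v : S, (v : FinitePlace K) z) := by
      rw [Real.log_prod]
      intro v _
      exact (FinitePlace.pos_iff.2 hz).ne'
    change ∑ v : InfinitePlace K, log (v z ^ v.mult) + ∑ v : S, log ((v : FinitePlace K) z) = 0
    rw [e1, e2, ← Real.log_mul, h1, Real.log_one]
    · exact (Finset.prod_pos fun v _ => pow_pos (InfinitePlace.pos_iff.2 hz) _).ne'
    · exact (Finset.prod_pos fun v _ => FinitePlace.pos_iff.2 hz).ne'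
  · rintro z ⟨hz, hz1⟩
    rw [NumberField.logHeight₁_eq, hsum z hz1, Fintype.sum_sum_type]
    congr 1
    refine Finset.sum_congr rfl fun v _ => ?_
    exact (pf_posLog_pow _ _).symm

namespace PF

variable {K : Type} [Field K] [NumberField K] {ι : Type} [Fintype ι] (P : PF K ι)

theorem add_le (j : ι) (x y : K) : P.av j (x + y) ≤ 2 ^ P.wt j * max (P.av j x) (P.av j y) := by
  have h := P.sum_le j (Finset.univ : Finset (Fin 2)) ![x, y] (max (P.av j x) (P.av j y))
    (le_max_of_le_left (P.nonneg j x)) (by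
      intro i _
      fin_cases i
      · exact le_max_left _ _
      · exact le_max_right _ _)
  rw [Fin.sum_univ_two] at h
  simpa using h

theorem av_pos (j : ι) {z : K} (hz : z ≠ 0) : 0 < P.av j z := by
  refine lt_of_le_of_ne (P.nonneg j z) (Ne.symm ?_)
  intro h
  have h1 : P.av j (z * z⁻¹) = 0 := by rw [map_mul, h, zero_mul]
  rw [mul_inv_cancel₀ hz, map_one] at h1
  exact one_ne_zero h1

theorem good_pow {z : K} (hz : z ∈ P.good) (n : ℕ) (hn : 0 < n) : z ^ n ∈ P.good := by
  induction n with
  | zero => omega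
  | succ n ih =>
    rcases Nat.eq_zero_or_pos n with rfl | h
    · simpa using hz
    · rw [pow_succ]
      exact P.good_mul _ (ih h) _ hz

/-- A polynomial with integer coefficients, of degree at most `m` and with coefficients of absolute
value at most `B`. -/
theorem eval_le (j : ι) (Q : Polynomial ℤ) (m : ℕ) (B : ℝ) (hm : Q.natDegree ≤ m)
    (hB : ∀ i, (|Q.coeff i| : ℝ) ≤ B) (x : K) :
    P.av j (Polynomial.aeval x Q) ≤ ((m + 1) * B) ^ P.wt j * (max 1 (P.av j x)) ^ m := by
  have hB0 : 0 ≤ B := (abs_nonneg _).trans (hB 0)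
  have h1 : (1 : ℝ) ≤ max 1 (P.av j x) := le_max_left _ _
  rw [Polynomial.aeval_eq_sum_range' (Nat.lt_succ_of_le hm)]
  have h := P.sum_le j (Finset.range (m + 1)) (fun i => Q.coeff i • x ^ i)
    (B ^ P.wt j * (max 1 (P.av j x)) ^ m) (by positivity) (by
      intro i hi
      have hi' : i ≤ m := Nat.lt_succ_iff.1 (Finset.mem_range.1 hi)
      rw [zsmul_eq_mul, map_mul, map_pow]
      refine mul_le_mul ((P.int_le j _).trans (pow_le_pow_left₀ (abs_nonneg _) (hB i) _)) ?_
        (pow_nonneg (P.nonneg j x) _) (by positivity)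
      exact (pow_le_pow_left₀ (P.nonneg j x) (le_max_right _ _) i).trans
        (pow_le_pow_right₀ h1 hi'))
  rw [Finset.card_range] at h
  refine h.trans (le_of_eq ?_)
  push_cast
  rw [mul_pow]
  ring

end PF

end Pool.Agent.MinHt
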