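import Mathlib

set_option autoImplicit false

/-! M4a. Three vectors near the tripod with sum zero. -/

namespace Pool.Agent.MinHt

open Finset

/-- The two largest of `0, a, b` differ by at most `e`. -/
def Near (e a b : ℝ) : Prop := a ≤ max 0 b + e ∧ b ≤ max 0 a + e ∧ 0 ≤ max a b + e

/-- The six symmetries of `(log |y|, log |1-y|)`: `y, 1-y, 1/y, 1/(1-y), y/(y-1), (y-1)/y`. -/
def orb1 : Fin 6 → ℝ → ℝ → ℝ
  | 0, a, _ => a
  | 1, _, b => b
  | 2, a, _ => -a
  | 3, _, b => -b
  | 4, a, b => a - b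
  | 5, a, b => b - a

def orb2 : Fin 6 → ℝ → ℝ → ℝ
  | 0, _, b => b
  | 1, a, _ => a
  | 2, a, b => b - a
  | 3, a, b => a - b
  | 4, _, b => -b
  | 5, a, _ => -a

/-- distance from the tripod `{two largest of 0, a, b are equal}`: largest minus middle -/
noncomputable def gapF (a b : ℝ) : ℝ :=
  max 0 (max a b) - max (min a b) (min (max a b) 0)

theorem near_iff (e a b : ℝ) (he : 0 ≤ e) : Near e a b ↔ gapF a b ≤ e := by
  unfold Near gapF
  rcases le_total 0 a with h1 | h1 <;> rcases le_total 0 b with h2 | h2 <;>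
    rcases le_total a b with h3 | h3
  · rw [max_eq_right h2, max_eq_right h1, max_eq_right h3, max_eq_right h2, min_eq_left h3,
      min_eq_right h2, max_eq_left h1]
    constructor
    · rintro ⟨-, h5, -⟩
      linarith
    · intro h5
      refine ⟨?_, ?_, ?_⟩ <;> linarith
  · rw [max_eq_right h2, max_eq_right h1, max_eq_left h3, max_eq_right h1, min_eq_right h3,
      min_eq_right h1, max_eq_left h2]
    constructor
    · rintro ⟨h5, -, -⟩
      linarith
    · intro h5
      refine ⟨?_, ?_, ?_⟩ <;> linarith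
  · have ha : a = 0 := le_antisymm (h3.trans h2) h1
    have hb : b = 0 := le_antisymm h2 (h1.trans h3)
    subst ha hb
    simp [he]
  · rw [max_eq_left h2, max_eq_right h1, max_eq_left h3, max_eq_right h1, min_eq_right h3,
      min_eq_right h1, max_eq_right h2]
    constructor
    · rintro ⟨h5, -, -⟩
      linarith
    · intro h5
      refine ⟨?_, ?_, ?_⟩ <;> linarith
  · rw [max_eq_right h2, max_eq_left h1, max_eq_right h3, max_eq_right h2, min_eq_left h3,
      min_eq_right h2, max_eq_right h1]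
    constructor
    · rintro ⟨-, h5, -⟩
      linarith
    · intro h5
      refine ⟨?_, ?_, ?_⟩ <;> linarith
  · have ha : a = 0 := le_antisymm h1 (h2.trans h3)
    have hb : b = 0 := le_antisymm (h3.trans h1) h2
    subst ha hb
    simp [he]
  · rw [max_eq_left h2, max_eq_left h1, max_eq_right h3, max_eq_left h2, min_eq_left h3,
      min_eq_left h2, max_eq_right h3]
    constructor
    · rintro ⟨-, -, h5⟩
      linarith
    · intro h5
      refine ⟨?_, ?_, ?_⟩ <;> linarith
  · rw [max_eq_left h2, max_eq_left h1, max_eq_left h3, max_eq_left h1, min_eq_right h3,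
      min_eq_left h1, max_eq_right h3]
    constructor
    · rintro ⟨-, -, h5⟩
      linarith
    · intro h5
      refine ⟨?_, ?_, ?_⟩ <;> linarith

/-- a vector near the tripod is near one of the rays -/
private theorem rigid_ray {u v ε : ℝ} (hε : 0 ≤ ε) (h : gapF u v ≤ ε) :
    (u ≤ 0 ∧ -ε ≤ v ∧ v ≤ ε) ∨ (v ≤ 0 ∧ -ε ≤ u ∧ u ≤ ε) ∨
      (0 ≤ u ∧ 0 ≤ v ∧ -ε ≤ u - v ∧ u - v ≤ ε) := by
  obtain ⟨h1, h2, h3⟩ := (near_iff ε u v hε).2 h
  rcases le_total 0 u with h4 | h4 <;> rcases le_total 0 v with h5 | h5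
  · right; right
    rw [max_eq_right h5] at h1
    rw [max_eq_right h4] at h2
    refine ⟨h4, h5, ?_, ?_⟩ <;> linarith
  · right; left
    rw [max_eq_left h5] at h1
    refine ⟨h5, ?_, ?_⟩ <;> linarith
  · left
    rw [max_eq_left h4] at h2
    refine ⟨h4, ?_, ?_⟩ <;> linarith
  · rcases le_total u v with h6 | h6
    · left
      rw [max_eq_right h6] at h3
      refine ⟨h4, ?_, ?_⟩ <;> linarith
    · right; left
      rw [max_eq_left h6] at h3
      refine ⟨h5, ?_, ?_⟩ <;> linarith

private theorem rigid_lin {p q l K : ℝ} (h1 : -K ≤ p - l) (h2 : p - l ≤ K) (h3 : -K ≤ q)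
    (h4 : q ≤ K) (a b : ℝ) : |p * a + q * b - l * a| ≤ K * (|a| + |b|) := by
  have h5 : |p - l| ≤ K := abs_le.2 ⟨h1, h2⟩
  have h6 : |q| ≤ K := abs_le.2 ⟨h3, h4⟩
  calc |p * a + q * b - l * a| = |(p - l) * a + q * b| := by ring_nf
    _ ≤ |(p - l) * a| + |q * b| := abs_add_le _ _
    _ = |p - l| * |a| + |q| * |b| := by rw [abs_mul, abs_mul]
    _ ≤ K * |a| + K * |b| := add_le_add (mul_le_mul_of_nonneg_right h5 (abs_nonneg a))
        (mul_le_mul_of_nonneg_right h6 (abs_nonneg b))
    _ = K * (|a| + |b|) := by ring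

private theorem rigid_lin' {p q l K : ℝ} (h1 : -K ≤ q - l) (h2 : q - l ≤ K) (h3 : -K ≤ p)
    (h4 : p ≤ K) (a b : ℝ) : |p * a + q * b - l * b| ≤ K * (|a| + |b|) := by
  have := rigid_lin h1 h2 h3 h4 b a
  rwa [add_comm (q * b), add_comm |b|] at this

/-- Three vectors with sum zero near the tripod with rays `(-1,0), (0,-1), (1,1)`: up to a common
factor `l ≥ 0` they are the three rays. The conclusion is given for the matrix
`(α β; γ δ)` with `c1 = (-α,-γ)`, `c2 = (-β,-δ)`, `c0 = (α+β, γ+δ)`: one of the six symmetries of the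
linear map `(a,b) ↦ (αa+βb, γa+δb)` is near `l` times the identity. -/
theorem three_rays (α β γ δ ε : ℝ) (hε : 0 ≤ ε) (h1 : gapF (-α) (-γ) ≤ ε)
    (h2 : gapF (-β) (-δ) ≤ ε) (h0 : gapF (α + β) (γ + δ) ≤ ε) :
    ∃ (l : ℝ) (k : Fin 6), 0 ≤ l ∧ ∀ a b : ℝ,
      |orb1 k (α * a + β * b) (γ * a + δ * b) - l * a| ≤ 20 * ε * (|a| + |b|) ∧
      |orb2 k (α * a + β * b) (γ * a + δ * b) - l * b| ≤ 20 * ε * (|a| + |b|) := by
  -- the case of a small matrix
  have small : (-(20 * ε) ≤ α ∧ α ≤ 20 * ε ∧ -(20 * ε) ≤ β ∧ β ≤ 20 * ε ∧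
      -(20 * ε) ≤ γ ∧ γ ≤ 20 * ε ∧ -(20 * ε) ≤ δ ∧ δ ≤ 20 * ε) →
      ∃ (l : ℝ) (k : Fin 6), 0 ≤ l ∧ ∀ a b : ℝ,
      |orb1 k (α * a + β * b) (γ * a + δ * b) - l * a| ≤ 20 * ε * (|a| + |b|) ∧
      |orb2 k (α * a + β * b) (γ * a + δ * b) - l * b| ≤ 20 * ε * (|a| + |b|) := by
    rintro ⟨a1, a2, a3, a4, a5, a6, a7, a8⟩
    refine ⟨0, 0, le_rfl, fun a b => ⟨?_, ?_⟩⟩
    · exact rigid_lin (by linarith) (by linarith) a3 a4 a b
    · exact rigid_lin' (by linarith) (by linarith) a5 a6 a b
  rcases rigid_ray hε h1 with ⟨a1, a2, a3⟩ | ⟨a1, a2, a3⟩ | ⟨a1, a2, a3, a4⟩ <;>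
    rcases rigid_ray hε h2 with ⟨b1, b2, b3⟩ | ⟨b1, b2, b3⟩ | ⟨b1, b2, b3, b4⟩ <;>
    rcases rigid_ray hε h0 with ⟨c1, c2, c3⟩ | ⟨c1, c2, c3⟩ | ⟨c1, c2, c3, c4⟩
  all_goals first
    | (apply small
       refine ⟨?_, ?_, ?_, ?_, ?_, ?_, ?_, ?_⟩ <;> linarith)
    | skip
  · -- `c1, c2, c0` of type `1, 2, 0`
    refine ⟨α, 0, by linarith, fun a b => ⟨?_, ?_⟩⟩
    · exact rigid_lin (by linarith) (by linarith) (by linarith) (by linarith) a b
    · exact rigid_lin' (by linarith) (by linarith) (by linarith) (by linarith) a b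
  · -- type `1, 0, 2`
    refine ⟨α, 4, by linarith, fun a b => ⟨?_, ?_⟩⟩
    · have := rigid_lin (p := α - γ) (q := β - δ) (l := α) (K := 20 * ε) (by linarith)
        (by linarith) (by linarith) (by linarith) a b
      have h : orb1 4 (α * a + β * b) (γ * a + δ * b) = (α - γ) * a + (β - δ) * b := by
        change α * a + β * b - (γ * a + δ * b) = _
        ring
      rwa [h]
    · have := rigid_lin' (p := -γ) (q := -δ) (l := α) (K := 20 * ε) (by linarith)
        (by linarith) (by linarith) (by linarith) a b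
      have h : orb2 4 (α * a + β * b) (γ * a + δ * b) = -γ * a + -δ * b := by
        change -(γ * a + δ * b) = _
        ring
      rwa [h]
  · -- type `2, 1, 0`
    refine ⟨γ, 1, by linarith, fun a b => ⟨?_, ?_⟩⟩
    · exact rigid_lin (by linarith) (by linarith) (by linarith) (by linarith) a b
    · exact rigid_lin' (by linarith) (by linarith) (by linarith) (by linarith) a b
  · -- type `2, 0, 1`
    refine ⟨γ, 5, by linarith, fun a b => ⟨?_, ?_⟩⟩
    · have := rigid_lin (p := γ - α) (q := δ - β) (l := γ) (K := 20 * ε) (by linarith)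
        (by linarith) (by linarith) (by linarith) a b
      have h : orb1 5 (α * a + β * b) (γ * a + δ * b) = (γ - α) * a + (δ - β) * b := by
        change γ * a + δ * b - (α * a + β * b) = _
        ring
      rwa [h]
    · have := rigid_lin' (p := -α) (q := -β) (l := γ) (K := 20 * ε) (by linarith)
        (by linarith) (by linarith) (by linarith) a b
      have h : orb2 5 (α * a + β * b) (γ * a + δ * b) = -α * a + -β * b := by
        change -(α * a + β * b) = _
        ring
      rwa [h]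
  · -- type `0, 1, 2`
    refine ⟨β, 3, by linarith, fun a b => ⟨?_, ?_⟩⟩
    · have := rigid_lin (p := -γ) (q := -δ) (l := β) (K := 20 * ε) (by linarith)
        (by linarith) (by linarith) (by linarith) a b
      have h : orb1 3 (α * a + β * b) (γ * a + δ * b) = -γ * a + -δ * b := by
        change -(γ * a + δ * b) = _
        ring
      rwa [h]
    · have := rigid_lin' (p := α - γ) (q := β - δ) (l := β) (K := 20 * ε) (by linarith)
        (by linarith) (by linarith) (by linarith) a b
      have h : orb2 3 (α * a + β * b) (γ * a + δ * b) = (α - γ) * a + (β - δ) * b := by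
        change α * a + β * b - (γ * a + δ * b) = _
        ring
      rwa [h]
  · -- type `0, 2, 1`
    refine ⟨δ, 2, by linarith, fun a b => ⟨?_, ?_⟩⟩
    · have := rigid_lin (p := -α) (q := -β) (l := δ) (K := 20 * ε) (by linarith)
        (by linarith) (by linarith) (by linarith) a b
      have h : orb1 2 (α * a + β * b) (γ * a + δ * b) = -α * a + -β * b := by
        change -(α * a + β * b) = _
        ring
      rwa [h]
    · have := rigid_lin' (p := γ - α) (q := δ - β) (l := δ) (K := 20 * ε) (by linarith)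
        (by linarith) (by linarith) (by linarith) a b
      have h : orb2 2 (α * a + β * b) (γ * a + δ * b) = (γ - α) * a + (δ - β) * b := by
        change γ * a + δ * b - (α * a + β * b) = _
        ring
      rwa [h]

end Pool.Agent.MinHt
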