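import Pool.Agent.MinHt.Bog

set_option autoImplicit false

/-! M12. Totally real numbers, and subgroups with the Bogomolov property. -/

namespace Pool.Agent.MinHt

open NumberField Height Real Module Pool.Agent.CITNF

private theorem tr_real (r : ℝ) (h0 : r ≠ 0) (h1 : r ^ 2 - 1 ≠ 0) :
    log |r ^ 2 - 1| ≤ 4 * log⁺ |r| + 2 * log⁺ |r|⁻¹ - log 4 := by
  have hr : 0 < |r| := abs_pos.2 h0
  have hr2 : r ^ 2 = |r| ^ 2 := (sq_abs r).symm
  have hpos : 0 < |r ^ 2 - 1| := abs_pos.2 h1
  rcases le_total 1 |r| with h | h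
  · have e1 : log⁺ |r| = log |r| := posLog_eq_log (by rwa [abs_abs])
    have e2 : log⁺ |r|⁻¹ = 0 := by
      rw [posLog_eq_zero_iff, abs_of_pos (inv_pos.2 hr)]
      exact inv_le_one_of_one_le₀ h
    rw [e1, e2]
    have h2 : |r ^ 2 - 1| ≤ |r| ^ 4 / 4 := by
      rw [abs_of_nonneg (by rw [hr2]; nlinarith), hr2]
      nlinarith [sq_nonneg (|r| ^ 2 - 2)]
    have h3 := Real.log_le_log hpos h2
    rw [Real.log_div (by positivity) (by norm_num), Real.log_pow] at h3
    push_cast at h3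
    linarith
  · have e1 : log⁺ |r| = 0 := by
      rw [posLog_eq_zero_iff, abs_abs]
      exact h
    have e2 : log⁺ |r|⁻¹ = -log |r| := by
      rw [posLog_eq_log, Real.log_inv]
      rw [abs_of_pos (inv_pos.2 hr)]
      exact one_le_inv_iff₀.2 ⟨hr, h⟩
    rw [e1, e2]
    have h2 : |r ^ 2 - 1| ≤ (|r| ^ 2)⁻¹ / 4 := by
      rw [abs_of_nonpos (by rw [hr2]; nlinarith), hr2]
      have h4 : 0 < |r| ^ 2 := by positivity
      rw [le_div_iff₀ (by norm_num), ← mul_le_mul_iff_of_pos_left h4, mul_inv_cancel₀ h4.ne']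
      nlinarith [sq_nonneg (2 * |r| ^ 2 - 1)]
    have h3 := Real.log_le_log hpos h2
    rw [Real.log_div (by positivity) (by norm_num), Real.log_inv, Real.log_pow] at h3
    push_cast at h3
    linarith

/-- Schinzel's theorem. With `s_v = |log |γ²|_v|`: `|γ² - 1|_v = max(1, γ_v²)(1 - e^{-s_v})` at the real
places, `|γ² - 1|_v ≤ max(1, |γ²|_v)` at the finite ones, so by the product formula
`0 ≤ 2 h + ∑ log (1 - e^{-s_v})`, `∑ s_v ≤ 4 h`, and Jensen: `0 ≤ 2 h + N log (1 - e^{-4h/N})`. -/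
theorem schinzel : ∃ c : ℝ, 0 < c ∧ ∀ (K : Type) [Field K] [NumberField K],
    (∀ (ψ : K →+* ℂ) (z : K), (ψ z).im = 0) → ∀ γ : K, γ ≠ 0 → γ ^ 2 ≠ 1 →
      c * finrank ℚ K ≤ logHeight₁ γ := by
  refine ⟨log 4 / 6, div_pos (Real.log_pos (by norm_num)) (by norm_num), ?_⟩
  intro K _ _ hreal γ hγ hγ1
  set β : K := γ ^ 2 - 1 with hβ
  have hβ0 : β ≠ 0 := sub_ne_zero.2 hγ1
  -- the infinite places
  have hinf : ∀ v : InfinitePlace K,
      log (v β) ≤ 4 * log⁺ (v γ) + 2 * log⁺ (v γ⁻¹) - log 4 := by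
    intro v
    have h1 : ∀ z : K, v.embedding z = ((v.embedding z).re : ℂ) := fun z =>
      Complex.ext rfl (by simp [hreal v.embedding z])
    set r : ℝ := (v.embedding γ).re with hr
    have h2 : v γ = |r| := by
      rw [← InfinitePlace.norm_embedding_eq, h1 γ, Complex.norm_real, Real.norm_eq_abs]
    have h3 : v β = |r ^ 2 - 1| := by
      rw [← InfinitePlace.norm_embedding_eq, hβ, map_sub, map_pow, map_one, h1 γ]
      rw [← Complex.ofReal_pow, ← Complex.ofReal_one, ← Complex.ofReal_sub, Complex.norm_real,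
        Real.norm_eq_abs]
    have h4 : v γ ≠ 0 := by
      intro h
      exact hγ (by simpa using h)
    have h5 : v β ≠ 0 := by
      intro h
      exact hβ0 (by simpa using h)
    rw [map_inv₀, h2, h3]
    apply tr_real
    · intro h
      rw [h2, h, abs_zero] at h4
      exact h4 rfl
    · intro h
      rw [h3, h, abs_zero] at h5
      exact h5 rfl
  have hsum : ∑ v : InfinitePlace K, (v.mult : ℝ) * log (v β) ≤
      4 * hi γ + 2 * hi γ⁻¹ - finrank ℚ K * log 4 := by
    have h1 : (∑ v : InfinitePlace K, (v.mult : ℝ)) = finrank ℚ K := by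
      rw [← InfinitePlace.sum_mult_eq (K := K)]
      push_cast
      rfl
    calc ∑ v : InfinitePlace K, (v.mult : ℝ) * log (v β)
        ≤ ∑ v : InfinitePlace K, (v.mult : ℝ) *
            (4 * log⁺ (v γ) + 2 * log⁺ (v γ⁻¹) - log 4) :=
          Finset.sum_le_sum fun v _ => mul_le_mul_of_nonneg_left (hinf v) (Nat.cast_nonneg _)
      _ = 4 * hi γ + 2 * hi γ⁻¹ - finrank ℚ K * log 4 := by
          rw [← h1]
          unfold hi
          rw [Finset.mul_sum, Finset.mul_sum, Finset.sum_mul, ← Finset.sum_add_distrib,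
            ← Finset.sum_sub_distrib]
          exact Finset.sum_congr rfl fun v _ => by ring
  -- the finite places
  have hfin : hf β ≤ 2 * hf γ := by
    have h1 : 2 * hf γ = ∑ᶠ v : FinitePlace K, 2 * log⁺ (v γ) := by
      unfold hf
      exact mul_finsum _ _
    rw [h1]
    refine finsum_le_finsum' (hf_support β) ?_ fun v => ?_
    · refine (hf_support γ).subset fun v hv => ?_
      rw [Function.mem_support] at hv ⊢
      intro h
      exact hv (by rw [h, mul_zero])
    · have h2 := max_one v (γ ^ 2)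
      have h3 : v β = v (1 - γ ^ 2) := by
        rw [hβ, ← map_neg_eq_map v (γ ^ 2 - 1), neg_sub]
      rw [h3]
      rcases le_max_iff.1 h2 with h4 | h4
      · have h5 : log⁺ (v (1 - γ ^ 2)) = 0 := by
          rw [posLog_eq_zero_iff, abs_of_nonneg (apply_nonneg v _)]
          exact h4
        rw [h5]
        exact mul_nonneg (by norm_num) posLog_nonneg
      · have h5 := posLog_le_posLog (apply_nonneg v _) h4
        rw [map_pow, posLog_pow] at h5
        exact_mod_cast h5
  -- the product formula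
  have hprod : -∑ v : InfinitePlace K, (v.mult : ℝ) * log (v β) ≤ hf β := by
    have h1 := logHeight₁_inv β
    rw [lh_eq, lh_eq] at h1
    have h2 : hi β - hi β⁻¹ = ∑ v : InfinitePlace K, (v.mult : ℝ) * log (v β) := by
      unfold hi
      rw [← Finset.sum_sub_distrib]
      refine Finset.sum_congr rfl fun v _ => ?_
      rw [← mul_sub, map_inv₀]
      congr 1
      exact posLog_sub_posLog_inv
    have h3 := hf_nonneg β⁻¹
    linarith
  have h1 : logHeight₁ γ = hi γ + hf γ := lh_eq γ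
  have h2 : logHeight₁ γ = hi γ⁻¹ + hf γ⁻¹ := by rw [← lh_eq, logHeight₁_inv]
  have h3 := hf_nonneg γ⁻¹
  have h4 := hf_nonneg γ
  linarith

/-- Totally real algebraic numbers. -/
def TotallyRealNumbers : Set ℂ :=
  {z | IsAlgebraic ℚ z ∧ ∀ w : ℂ, Polynomial.aeval w (minpoly ℚ z) = 0 → w.im = 0}

theorem bogSet_totallyReal : BogSet TotallyRealNumbers := by
  obtain ⟨c, hc, hs⟩ := schinzel
  refine ⟨fun s hs => hs.1, c, hc, 2, by norm_num, ?_⟩
  intro K _ _ φ x hx hadj i j a b e
  set γ : K := x i ^ a * (1 - x i) ^ b * x j ^ e with hγ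
  by_cases h1 : γ ^ 2 = 1
  · exact Or.inl h1
  right
  have hγ0 : γ ≠ 0 := by
    rw [hγ]
    exact mul_ne_zero (mul_ne_zero (zpow_ne_zero _ (hx i).1)
      (zpow_ne_zero _ (sub_ne_zero.2 (Ne.symm (hx i).2.1)))) (zpow_ne_zero _ (hx j).1)
  refine hs K ?_ γ hγ0 h1
  intro ψ z
  -- the elements with real image form a subfield
  let R : IntermediateField ℚ K :=
    { carrier := {z | (ψ z).im = 0}
      mul_mem' := by
        intro a b ha hb
        rw [Set.mem_ofPred_eq] at *
        rw [map_mul, Complex.mul_im, ha, hb]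
        ring
      add_mem' := by
        intro a b ha hb
        rw [Set.mem_ofPred_eq] at *
        rw [map_add, Complex.add_im, ha, hb, add_zero]
      algebraMap_mem' := by
        intro q
        rw [Set.mem_ofPred_eq]
        rw [eq_ratCast, map_ratCast]
        exact Complex.ratCast_im q
      inv_mem' := by
        intro a ha
        rw [Set.mem_ofPred_eq] at *
        rw [map_inv₀, Complex.inv_im, ha]
        simp }
  have hR : R = ⊤ := by
    rw [eq_top_iff, ← hadj, IntermediateField.adjoin_le_iff]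
    rintro _ ⟨l, rfl⟩
    change (ψ (x l)).im = 0
    have h2 := (hx l).2.2.1.2 (ψ (x l))
    apply h2
    have h3 : minpoly ℚ (φ (x l)) = minpoly ℚ (x l) := by
      have := minpoly.algHom_eq (φ.toRatAlgHom) φ.injective (x l)
      exact this
    rw [h3]
    have h4 : Polynomial.aeval (ψ.toRatAlgHom (x l)) (minpoly ℚ (x l)) = 0 := by
      rw [Polynomial.aeval_algHom_apply, minpoly.aeval, map_zero]
    exact h4
  have hz : z ∈ R := by rw [hR]; exact IntermediateField.mem_top
  exact hz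

/-- A group of algebraic numbers whose elements of infinite order have height at least `c > 0`, and
whose elements of finite order have bounded order. -/
def BogomolovGroup (G : Subgroup ℂˣ) : Prop :=
  (∀ g ∈ G, IsAlgebraic ℚ (g : ℂ)) ∧ ∃ c : ℝ, 0 < c ∧ ∃ w : ℕ, 0 < w ∧
    ∀ (K : Type) [Field K] [NumberField K] (φ : K →+* ℂ) (γ : K), (∃ g ∈ G, (g : ℂ) = φ γ) →
      γ ^ w = 1 ∨ c * finrank ℚ K ≤ logHeight₁ γ

theorem bogSet_group (G : Subgroup ℂˣ) (hG : BogomolovGroup G) :
    BogSet {z | ∃ g ∈ G, (g : ℂ) = z} := by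
  obtain ⟨halg, c, hc, w, hw, h⟩ := hG
  refine ⟨?_, c, hc, w, hw, ?_⟩
  · rintro _ ⟨g, hg, rfl⟩
    exact halg g hg
  intro K _ _ φ x hx _ i j a b e
  apply h K φ
  obtain ⟨g₁, hg₁, h1⟩ := (hx i).2.2.1
  obtain ⟨g₂, hg₂, h2⟩ := (hx i).2.2.2
  obtain ⟨g₃, hg₃, h3⟩ := (hx j).2.2.1
  refine ⟨g₁ ^ a * g₂ ^ b * g₃ ^ e, G.mul_mem (G.mul_mem (G.zpow_mem hg₁ a) (G.zpow_mem hg₂ b))
    (G.zpow_mem hg₃ e), ?_⟩
  rw [map_mul, map_mul, map_zpow₀, map_zpow₀, map_zpow₀, ← h1, ← h2, ← h3]
  push_cast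
  rfl

end Pool.Agent.MinHt
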